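import Mathlib

/-! # JH: the core inequality (real numbers) -/

set_option autoImplicit false
set_option linter.unusedVariables false

namespace Pool.Agent.Helper59.JH

/-- `x² ≤ 4 u v` gives `- x ≤ u + v` -/
theorem am_gm {x u v : ℝ} (hu : 0 ≤ u) (hv : 0 ≤ v) (h : x ^ 2 ≤ 4 * (u * v)) : -x ≤ u + v := by
  by_contra hc
  push Not at hc
  have h1 : 0 ≤ u + v := add_nonneg hu hv
  have h2 : (u + v) ^ 2 < (-x) ^ 2 := by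
    apply pow_lt_pow_left₀ hc h1 (by norm_num)
  nlinarith [sq_nonneg (u - v)]

/-- the scalar conditions; `i` is the inverse of `L = lam²` -/
structure Sca (L i be A rho gam c1 c3 k kt E1 al Th n0 N2 q G w1 w1' w2 w3 w3' cp t3 xt ec sub e3
    ks bm bp : ℝ) : Prop where
  Li : L * i = 1
  i0 : 0 < i
  A0 : 0 ≤ A
  E0 : 0 ≤ E1
  hal : al = c1 * A - E1
  hk : k = c1 - c3
  q0 : 0 ≤ q
  G0 : 0 ≤ G
  qG : 4 * q * G = 1
  ec0 : 0 ≤ ec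
  sub0 : 0 ≤ sub
  e30 : 0 ≤ e3
  bm0 : 0 ≤ bm
  bp0 : 0 ≤ bp
  bmp : be = bp - bm
  ks0 : 0 ≤ ks
  w10 : 0 ≤ w1
  w10' : 0 ≤ w1'
  w20 : 0 < w2
  w30 : 0 ≤ w3
  w30' : 0 ≤ w3'
  cp0 : 0 ≤ cp
  t30 : 0 ≤ t3
  xt0 : 0 ≤ xt
  s1 : G * Th + ec + A / 100 ≤ al
  s2 : (be * (1 - 3 * i)) ^ 2 * rho * Th ≤ 4 * ec * (sub * A)
  s3 : 3 * e3 + sub + 1 / 100 ≤ c1 + 3 * be * i
  s4 : 9 / 4 * be ^ 2 * Th ≤ 4 * (e3 * A + E1) * cp
  s5 : 9 / 5 * rho * Th ≤ 4 * (e3 * A + E1) * t3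
  s6 : be ^ 2 * (3 - 4 * i) ^ 2 ≤ 4 * (e3 * A + E1) * xt
  s7 : 1 ≤ 4 * w1 * w1'
  s7' : (1 - 2 * gam * q) ^ 2 ≤ 1
  s8 : (1 - i) ^ 2 * rho ≤ 4 * w3 * w3'
  s9 : w1' + w3 + cp ≤ c3 + ks / 4
  s10 : w1 + w2 ≤ k + G + 1 - q * (3 + 2 * gam) - ks - bm
  s11 : 0 ≤ k + gam - q * gam ^ 2 - ks - bm
  s12 : i ^ 2 / w2 * ((1 - 2 * gam * q) ^ 2 * n0 ^ 2 + 4 * q ^ 2 * N2) ≤
    kt + 2 * i - 4 * q * N2 * i ^ 2 - 4 * q * gam * i - xt - t3 - w3'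
  s13 : ∀ om p : ℝ, 0 ≤ (i + 4 * q * i - 3 * q) * om ^ 2 +
    (i + 6 * q * be - 2 * gam * q - 4 * q * be * i) * (om * p) +
    (c3 + ks / 4 + (k + gam - q * gam ^ 2 - ks - bm) / 3 + bp / 3 - be - 3 * q * be ^ 2 +
      2 * gam * q * be) * p ^ 2

/-- the core inequality -/
theorem core {L i be A rho gam c1 c3 k kt E1 al Th n0 N2 q G w1 w1' w2 w3 w3' cp t3 xt ec sub e3
    ks bm bp : ℝ}
    (S : Sca L i be A rho gam c1 c3 k kt E1 al Th n0 N2 q G w1 w1' w2 w3 w3' cp t3 xt ec sub e3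
      ks bm bp)
    {a2 b2 ps2 p x2 z2 om c0N c0P cNP cV T2 w F2 tau cNF bP bW yX yN y0 yx tY B Y2 H2 trs vV Q : ℝ}
    (ha : 0 ≤ a2) (hb : 0 ≤ b2) (hps : 0 ≤ ps2) (hx : 0 ≤ x2) (hT : 0 ≤ T2) (hw : 0 ≤ w)
    (hF : 0 ≤ F2)
    (f1 : F2 + tau ^ 2 ≤ w + T2 - trs) (f2 : F2 + tau ^ 2 ≤ 3 * T2) (f3 : a2 + Y2 ≤ Th * w)
    (f4 : tY ^ 2 ≤ T2 * (rho * Th * w))
    (f5 : gam * yX - 2 * i * yN - y0 + (om - be * p) * yx ≤ G * Y2 + q * H2)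
    (f6 : H2 ≤ gam ^ 2 * b2 + 4 * i ^ 2 * N2 * x2 + 3 * a2 + 3 * (om - be * p) ^ 2 +
      4 * gam * i * (x2 + n0 * c0N) + 2 * gam * (a2 - c0P) + 2 * gam * ((om - be * p) * p) +
      4 * i * cV - 4 * i * ((om - be * p) * om))
    (f7 : c0P ^ 2 ≤ a2 * ps2)
    (f8 : ((1 - 2 * gam * q) * n0 * c0N - 2 * q * cV) ^ 2 ≤
      x2 * (((1 - 2 * gam * q) ^ 2 * n0 ^ 2 + 4 * q ^ 2 * N2) * a2))
    (f9 : cNP ^ 2 ≤ x2 * (rho * ps2))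
    (f10 : bP ^ 2 ≤ Th * ps2) (f10' : bW ^ 2 ≤ rho * Th * x2) (f11 : cNF ^ 2 ≤ x2 * F2)
    (f12 : ps2 + p ^ 2 ≤ 4 * (a2 + b2)) (f12' : p ^ 2 ≤ 3 * b2)
    (f13 : om ^ 2 ≤ L * z2) (f14 : p ^ 2 ≤ 3 * B) (f14' : B ≤ a2 + b2)
    (hN2 : 0 ≤ N2)
    (hQ : Q = k * (a2 + b2) + c3 * (ps2 + p ^ 2) + kt * x2 + (1 - i) * (cNP - p * om) + z2 +
      be * B + al * (w + T2) + E1 * (w + T2 - trs) + (E1 + be * A) * T2 + gam * (b2 - yX) +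
      be * (1 - 3 * i) * (tY - A * T2) + 2 * i * (x2 + n0 * c0N + yN) + (a2 - c0P + y0) +
      be * (3 - 4 * i) * cNF - be * (tau * bP + (p - yx) * p) - tau * bW + (p - yx) * om) :
    A / 100 * (w + T2) ≤ Q := by
  have e0 : 0 ≤ e3 * A + E1 := add_nonneg (mul_nonneg S.e30 S.A0) S.E0
  -- E1 and e3
  have e1 : E1 * (F2 + tau ^ 2) ≤ E1 * (w + T2 - trs) := mul_le_mul_of_nonneg_left f1 S.E0
  have e2 : e3 * A * (F2 + tau ^ 2) ≤ e3 * A * (3 * T2) :=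
    mul_le_mul_of_nonneg_left f2 (mul_nonneg S.e30 S.A0)
  have e3' : (3 * e3 + sub + 1 / 100) * (A * T2) ≤ (c1 + 3 * be * i) * (A * T2) :=
    mul_le_mul_of_nonneg_right S.s3 (mul_nonneg S.A0 hT)
  have e4 : -(be * (1 - 3 * i) * tY) ≤ ec * w + sub * A * T2 := by
    apply am_gm (mul_nonneg S.ec0 hw) (mul_nonneg (mul_nonneg S.sub0 S.A0) hT)
    calc (be * (1 - 3 * i) * tY) ^ 2 = (be * (1 - 3 * i)) ^ 2 * tY ^ 2 := by ring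
      _ ≤ (be * (1 - 3 * i)) ^ 2 * (T2 * (rho * Th * w)) :=
        mul_le_mul_of_nonneg_left f4 (sq_nonneg _)
      _ = ((be * (1 - 3 * i)) ^ 2 * rho * Th) * (T2 * w) := by ring
      _ ≤ (4 * ec * (sub * A)) * (T2 * w) :=
        mul_le_mul_of_nonneg_right S.s2 (mul_nonneg hT hw)
      _ = 4 * (ec * w * (sub * A * T2)) := by ring
  have e5 : (G * Th + ec + A / 100) * w ≤ al * w := mul_le_mul_of_nonneg_right S.s1 hw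
  have e6 : G * (a2 + Y2) ≤ G * (Th * w) := mul_le_mul_of_nonneg_left f3 S.G0
  have e7 : q * H2 ≤ q * (gam ^ 2 * b2 + 4 * i ^ 2 * N2 * x2 + 3 * a2 + 3 * (om - be * p) ^ 2 +
      4 * gam * i * (x2 + n0 * c0N) + 2 * gam * (a2 - c0P) + 2 * gam * ((om - be * p) * p) +
      4 * i * cV - 4 * i * ((om - be * p) * om)) := mul_le_mul_of_nonneg_left f6 S.q0
  -- the terms with Phi and tau
  have e8 : -(be * (3 - 4 * i) * cNF) ≤ (e3 * A + E1) * F2 + xt * x2 := by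
    apply am_gm (mul_nonneg e0 hF) (mul_nonneg S.xt0 hx)
    calc (be * (3 - 4 * i) * cNF) ^ 2 = be ^ 2 * (3 - 4 * i) ^ 2 * cNF ^ 2 := by ring
      _ ≤ be ^ 2 * (3 - 4 * i) ^ 2 * (x2 * F2) := mul_le_mul_of_nonneg_left f11 (by positivity)
      _ ≤ 4 * (e3 * A + E1) * xt * (x2 * F2) :=
        mul_le_mul_of_nonneg_right S.s6 (mul_nonneg hx hF)
      _ = 4 * ((e3 * A + E1) * F2 * (xt * x2)) := by ring
  have e9 : -(-(be * (tau * bP))) ≤ 4 / 9 * (e3 * A + E1) * tau ^ 2 + cp * ps2 := by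
    apply am_gm (by positivity) (mul_nonneg S.cp0 hps)
    calc (-(be * (tau * bP))) ^ 2 = be ^ 2 * tau ^ 2 * bP ^ 2 := by ring
      _ ≤ be ^ 2 * tau ^ 2 * (Th * ps2) := mul_le_mul_of_nonneg_left f10 (by positivity)
      _ = 4 / 9 * (9 / 4 * be ^ 2 * Th) * (tau ^ 2 * ps2) := by ring
      _ ≤ 4 / 9 * (4 * (e3 * A + E1) * cp) * (tau ^ 2 * ps2) := by
        apply mul_le_mul_of_nonneg_right _ (by positivity)
        apply mul_le_mul_of_nonneg_left S.s4 (by norm_num)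
      _ = 4 * (4 / 9 * (e3 * A + E1) * tau ^ 2 * (cp * ps2)) := by ring
  have e10 : -(-(tau * bW)) ≤ 5 / 9 * (e3 * A + E1) * tau ^ 2 + t3 * x2 := by
    apply am_gm (by positivity) (mul_nonneg S.t30 hx)
    calc (-(tau * bW)) ^ 2 = tau ^ 2 * bW ^ 2 := by ring
      _ ≤ tau ^ 2 * (rho * Th * x2) := mul_le_mul_of_nonneg_left f10' (by positivity)
      _ = 5 / 9 * (9 / 5 * rho * Th) * (tau ^ 2 * x2) := by ring
      _ ≤ 5 / 9 * (4 * (e3 * A + E1) * t3) * (tau ^ 2 * x2) := by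
        apply mul_le_mul_of_nonneg_right _ (by positivity)
        apply mul_le_mul_of_nonneg_left S.s5 (by norm_num)
      _ = 4 * (5 / 9 * (e3 * A + E1) * tau ^ 2 * (t3 * x2)) := by ring
  have e11 : -(-((1 - 2 * gam * q) * c0P)) ≤ w1 * a2 + w1' * ps2 := by
    apply am_gm (mul_nonneg S.w10 ha) (mul_nonneg S.w10' hps)
    calc (-((1 - 2 * gam * q) * c0P)) ^ 2 = (1 - 2 * gam * q) ^ 2 * c0P ^ 2 := by ring
      _ ≤ 1 * (a2 * ps2) := mul_le_mul S.s7' f7 (sq_nonneg _) (by norm_num)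
      _ ≤ (4 * w1 * w1') * (a2 * ps2) :=
        mul_le_mul_of_nonneg_right S.s7 (mul_nonneg ha hps)
      _ = 4 * (w1 * a2 * (w1' * ps2)) := by ring
  have e12 : -(2 * i * ((1 - 2 * gam * q) * n0 * c0N - 2 * q * cV)) ≤ w2 * a2 +
      i ^ 2 / w2 * ((1 - 2 * gam * q) ^ 2 * n0 ^ 2 + 4 * q ^ 2 * N2) * x2 := by
    have hw2 := S.w20
    apply am_gm (mul_nonneg hw2.le ha) (by positivity)
    calc (2 * i * ((1 - 2 * gam * q) * n0 * c0N - 2 * q * cV)) ^ 2 =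
        4 * i ^ 2 * ((1 - 2 * gam * q) * n0 * c0N - 2 * q * cV) ^ 2 := by ring
      _ ≤ 4 * i ^ 2 * (x2 * (((1 - 2 * gam * q) ^ 2 * n0 ^ 2 + 4 * q ^ 2 * N2) * a2)) :=
        mul_le_mul_of_nonneg_left f8 (by positivity)
      _ = 4 * (w2 * a2 * (i ^ 2 / w2 * ((1 - 2 * gam * q) ^ 2 * n0 ^ 2 + 4 * q ^ 2 * N2) * x2)) := by
        field_simp
  have e13 : -((1 - i) * cNP) ≤ w3 * ps2 + w3' * x2 := by
    apply am_gm (mul_nonneg S.w30 hps) (mul_nonneg S.w30' hx)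
    calc ((1 - i) * cNP) ^ 2 = (1 - i) ^ 2 * cNP ^ 2 := by ring
      _ ≤ (1 - i) ^ 2 * (x2 * (rho * ps2)) := mul_le_mul_of_nonneg_left f9 (sq_nonneg _)
      _ = (1 - i) ^ 2 * rho * (x2 * ps2) := by ring
      _ ≤ 4 * w3 * w3' * (x2 * ps2) := mul_le_mul_of_nonneg_right S.s8 (mul_nonneg hx hps)
      _ = 4 * (w3 * ps2 * (w3' * x2)) := by ring
  have e14 : ks * (ps2 + p ^ 2) ≤ ks * (4 * (a2 + b2)) := mul_le_mul_of_nonneg_left f12 S.ks0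
  have e15 : (k + gam - q * gam ^ 2 - ks - bm) * p ^ 2 ≤
      (k + gam - q * gam ^ 2 - ks - bm) * (3 * b2) := mul_le_mul_of_nonneg_left f12' S.s11
  have e16 : bp * p ^ 2 ≤ bp * (3 * B) := mul_le_mul_of_nonneg_left f14 S.bp0
  have e17 : bm * B ≤ bm * (a2 + b2) := mul_le_mul_of_nonneg_left f14' S.bm0
  have e18 : i * om ^ 2 ≤ z2 := by
    calc i * om ^ 2 ≤ i * (L * z2) := mul_le_mul_of_nonneg_left f13 S.i0.le
      _ = (L * i) * z2 := by ring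
      _ = z2 := by rw [S.Li, one_mul]
  have e19 : (w1' + w3 + cp) * ps2 ≤ (c3 + ks / 4) * ps2 := mul_le_mul_of_nonneg_right S.s9 hps
  have e20 : (w1 + w2) * a2 ≤ (k + G + 1 - q * (3 + 2 * gam) - ks - bm) * a2 :=
    mul_le_mul_of_nonneg_right S.s10 ha
  have e21 : i ^ 2 / w2 * ((1 - 2 * gam * q) ^ 2 * n0 ^ 2 + 4 * q ^ 2 * N2) * x2 ≤
      (kt + 2 * i - 4 * q * N2 * i ^ 2 - 4 * q * gam * i - xt - t3 - w3') * x2 :=
    mul_le_mul_of_nonneg_right S.s12 hx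
  have e22 := S.s13 om p
  rw [hQ, S.hal, S.bmp]
  rw [S.hal] at e5
  rw [S.bmp] at e3' e4 e7 e8 e9 e22 f5
  have hq2 := S.hk
  set R := i ^ 2 / w2 * ((1 - 2 * gam * q) ^ 2 * n0 ^ 2 + 4 * q ^ 2 * N2) * x2 with hR
  clear_value R
  linarith
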