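import Pool.Agent.Helper59.JH.Vec4
import Pool.Agent.Helper59.JH.Core

/-! # JH: assembly of the lower bound -/

set_option autoImplicit false
set_option linter.unusedSectionVars false
set_option linter.unusedVariables false

namespace Pool.Agent.Helper59.JH

open Pool.Agent.Helper77.JH

variable {H : Type*} [NormedAddCommGroup H] [InnerProductSpace ℝ H] [FiniteDimensional ℝ H]
variable {ι : Type*} [Fintype ι] [DecidableEq ι] {d : Dat H ι}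
variable {P0 : H} {s n0 : ℝ} {n : ι → ℝ}

theorem cs (u v : H) : inner ℝ u v ^ 2 ≤ ‖u‖ ^ 2 * ‖v‖ ^ 2 := by
  have h1 := abs_real_inner_le_norm u v
  rw [← mul_pow, ← sq_abs (inner ℝ u v)]
  exact pow_le_pow_left₀ (abs_nonneg _) h1 2

theorem cs_sum (u v : ι → H) :
    (∑ i, inner ℝ (u i) (v i)) ^ 2 ≤ (∑ i, ‖u i‖ ^ 2) * ∑ i, ‖v i‖ ^ 2 := by
  have h1 : |∑ i, inner ℝ (u i) (v i)| ≤ ∑ i, ‖u i‖ * ‖v i‖ :=
    (Finset.abs_sum_le_sum_abs _ _).trans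
      (Finset.sum_le_sum fun i _ => abs_real_inner_le_norm _ _)
  have h2 := Finset.sum_mul_sq_le_sq_mul_sq Finset.univ (fun i => ‖u i‖) (fun i => ‖v i‖)
  refine le_trans ?_ h2
  rw [← sq_abs]
  exact pow_le_pow_left₀ (abs_nonneg _) h1 2

theorem sum_sq_le3 (h3 : Fintype.card ι = 3) (f : ι → ℝ) : (∑ i, f i) ^ 2 ≤ 3 * ∑ i, f i ^ 2 := by
  have h1 := sq_sum_le_card_mul_sum_sq (s := (Finset.univ : Finset ι)) (f := f)
  rw [Finset.card_univ, h3] at h1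
  exact_mod_cast h1

theorem norm_sum_le3 (h3 : Fintype.card ι = 3) (f : ι → H) :
    ‖∑ i, f i‖ ^ 2 ≤ 3 * ∑ i, ‖f i‖ ^ 2 :=
  (pow_le_pow_left₀ (norm_nonneg _) (norm_sum_le _ _) 2).trans (sum_sq_le3 h3 fun i => ‖f i‖)

/-- `|Φ|² + τ² ≤ 3 ∑ |t_i|²` for any family -/
theorem phi_tau_le (h : Rul d) (h3 : Fintype.card ι = 3) (X : ι → H) :
    ‖∑ i, d.φ i (X i)‖ ^ 2 + (∑ i, inner ℝ (d.ξ i) (X i)) ^ 2 ≤ 3 * ∑ i, ‖X i‖ ^ 2 := by
  have h1 := norm_sum_le3 h3 fun i => d.φ i (X i)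
  have h2 := sum_sq_le3 h3 fun i => inner ℝ (d.ξ i) (X i)
  have h4 : ∑ i, ‖d.φ i (X i)‖ ^ 2 = ∑ i, ‖X i‖ ^ 2 - ∑ i, inner ℝ (d.ξ i) (X i) ^ 2 := by
    rw [← Finset.sum_sub_distrib]
    exact Finset.sum_congr rfl fun i _ => phi_sq h i _
  rw [h4] at h1
  linarith

theorem f2 (h : Rul d) (h3 : Fintype.card ι = 3) : ‖Ph d‖ ^ 2 + d.tau ^ 2 ≤ 3 * T2 d := by
  have h1 := phi_tau_le h h3 fun i => d.T (d.ξ i)
  rw [tau_eq h]
  exact h1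

theorem f4 (h : Rul d) (N : Nf d P0 s n0 n) : tY d P0 n0 n ^ 2 ≤
    T2 d * (d.ρ * ‖P0‖ ^ 2 * (LinearMap.trace ℝ H (d.T ∘ₗ d.T) - T2 d)) := by
  have h1 := cs_sum (fun i => d.T (d.ξ i)) (fun i => d.T (d.φ i (Jn d n0 n P0)))
  have h2 := tr_bessel h (Jn d n0 n P0) (xi_Jn h P0 N.xP)
  have h3 : ‖Jn d n0 n P0‖ ^ 2 ≤ d.ρ * ‖P0‖ ^ 2 := by
    rw [N.ρ]
    exact Jn_sq h P0
  have h4 : 0 ≤ LinearMap.trace ℝ H (d.T ∘ₗ d.T) - T2 d := by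
    have h5 := tr_xi h h.symT
    rw [T2]
    linarith
  refine h1.trans (mul_le_mul_of_nonneg_left ?_ (Finset.sum_nonneg fun i _ => by positivity))
  refine le_trans ?_ (mul_le_mul_of_nonneg_right h3 h4)
  have h6 : 0 ≤ ‖d.T (Jn d n0 n P0)‖ ^ 2 := by positivity
  rw [T2]
  linarith

theorem nX (d : Dat H ι) (P0 : H) (s n0 : ℝ) (n : ι → ℝ) :
    ∑ i, n i * inner ℝ (Xq d P0 s i) (XN d P0 s n0 n) =
      -(‖XN d P0 s n0 n‖ ^ 2 + n0 * inner ℝ (d.T P0) (XN d P0 s n0 n)) := by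
  have e2 : inner ℝ (XN d P0 s n0 n) (XN d P0 s n0 n) =
      inner ℝ (-(n0 • d.T P0 + ∑ i, n i • Xq d P0 s i)) (XN d P0 s n0 n) := rfl
  rw [real_inner_self_eq_norm_sq, inner_neg_left, inner_add_left, real_inner_smul_left,
    sum_inner] at e2
  have e3 : ∀ i, inner ℝ (n i • Xq d P0 s i) (XN d P0 s n0 n) =
      n i * inner ℝ (Xq d P0 s i) (XN d P0 s n0 n) := fun i => real_inner_smul_left _ _ _
  rw [Finset.sum_congr rfl fun i _ => e3 i] at e2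
  linarith

/-- the vectors `h_i` -/
noncomputable def hv (d : Dat H ι) (P0 : H) (s n0 : ℝ) (n : ι → ℝ) (gam i ka : ℝ) (j : ι) : H :=
  gam • Xq d P0 s j - (2 * i * n j) • XN d P0 s n0 n - d.φ j (d.T P0) + ka • d.ξ j

theorem f5 (h : Rul d) {gam i ka q G : ℝ} (hG : 0 ≤ G) (hq : 4 * q * G = 1) :
    gam * yX d P0 s - 2 * i * yN d P0 s n0 n - y0 d P0 + ka * yx d P0 ≤
      G * ∑ j, ‖d.T (d.φ j P0)‖ ^ 2 + q * ∑ j, ‖hv d P0 s n0 n gam i ka j‖ ^ 2 := by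
  have hG0 : 0 < G := lt_of_le_of_ne hG (by rintro rfl; simp at hq)
  have h1 : ∀ j, inner ℝ (d.T (d.φ j P0)) (hv d P0 s n0 n gam i ka j) ≤
      G * ‖d.T (d.φ j P0)‖ ^ 2 + q * ‖hv d P0 s n0 n gam i ka j‖ ^ 2 := by
    intro j
    have h2 := sq_nonneg ‖(2 * G) • d.T (d.φ j P0) - hv d P0 s n0 n gam i ka j‖
    rw [norm_sub_sq_real, norm_smul, real_inner_smul_left, mul_pow, Real.norm_eq_abs,
      sq_abs] at h2
    have h3 : 0 ≤ q * ((2 * G) ^ 2 * ‖d.T (d.φ j P0)‖ ^ 2 -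
        2 * (2 * G * inner ℝ (d.T (d.φ j P0)) (hv d P0 s n0 n gam i ka j)) +
        ‖hv d P0 s n0 n gam i ka j‖ ^ 2) := by
      apply mul_nonneg _ h2
      by_contra hc
      push Not at hc
      nlinarith
    have h4 : q * ((2 * G) ^ 2 * ‖d.T (d.φ j P0)‖ ^ 2 -
        2 * (2 * G * inner ℝ (d.T (d.φ j P0)) (hv d P0 s n0 n gam i ka j)) +
        ‖hv d P0 s n0 n gam i ka j‖ ^ 2) = (4 * q * G) * (G * ‖d.T (d.φ j P0)‖ ^ 2) -
        (4 * q * G) * inner ℝ (d.T (d.φ j P0)) (hv d P0 s n0 n gam i ka j) +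
        q * ‖hv d P0 s n0 n gam i ka j‖ ^ 2 := by ring
    rw [h4, hq] at h3
    linarith
  have h5 : ∑ j, inner ℝ (d.T (d.φ j P0)) (hv d P0 s n0 n gam i ka j) =
      gam * yX d P0 s - 2 * i * yN d P0 s n0 n - y0 d P0 + ka * yx d P0 := by
    rw [yX, yN, y0, yx, Finset.mul_sum, Finset.mul_sum, Finset.mul_sum, ← Finset.sum_sub_distrib,
      ← Finset.sum_sub_distrib, ← Finset.sum_add_distrib]
    refine Finset.sum_congr rfl fun j _ => ?_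
    rw [hv, inner_add_right, inner_sub_right, inner_sub_right, real_inner_smul_right,
      real_inner_smul_right, real_inner_smul_right, real_inner_comm (XN d P0 s n0 n),
      real_inner_comm (d.φ j (d.T P0)), real_inner_comm (d.ξ j)]
    ring
  rw [← h5, Finset.mul_sum, Finset.mul_sum, ← Finset.sum_add_distrib]
  exact Finset.sum_le_sum fun j _ => h1 j

theorem f6 (h : Rul d) (h3 : Fintype.card ι = 3) (gam i ka : ℝ) :
    ∑ j, ‖hv d P0 s n0 n gam i ka j‖ ^ 2 ≤ gam ^ 2 * b2 d P0 s +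
      4 * i ^ 2 * (∑ j, n j ^ 2) * ‖XN d P0 s n0 n‖ ^ 2 + 3 * ‖d.T P0‖ ^ 2 + 3 * ka ^ 2 +
      4 * gam * i * (‖XN d P0 s n0 n‖ ^ 2 + n0 * inner ℝ (d.T P0) (XN d P0 s n0 n)) +
      2 * gam * (‖d.T P0‖ ^ 2 - inner ℝ (d.T P0) (Psi d P0 s)) + 2 * gam * (ka * pn d P0 s) +
      4 * i * (∑ j, n j * inner ℝ (XN d P0 s n0 n) (d.φ j (d.T P0))) -
      4 * i * (ka * om d P0 s n0 n) := by
  have e1 : ∀ j, ‖hv d P0 s n0 n gam i ka j‖ ^ 2 = gam ^ 2 * ‖Xq d P0 s j‖ ^ 2 +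
      4 * i ^ 2 * (n j ^ 2 * ‖XN d P0 s n0 n‖ ^ 2) + ‖d.φ j (d.T P0)‖ ^ 2 + ka ^ 2 -
      4 * gam * i * (n j * inner ℝ (Xq d P0 s j) (XN d P0 s n0 n)) -
      2 * gam * inner ℝ (Xq d P0 s j) (d.φ j (d.T P0)) +
      2 * gam * ka * inner ℝ (d.ξ j) (Xq d P0 s j) +
      4 * i * (n j * inner ℝ (XN d P0 s n0 n) (d.φ j (d.T P0))) -
      4 * i * ka * (n j * inner ℝ (d.ξ j) (XN d P0 s n0 n)) := by
    intro j
    have h5 : inner ℝ (d.φ j (d.T P0)) (d.ξ j) = 0 := by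
      rw [h.skew, phx0 h, inner_zero_right, neg_zero]
    have h5' : inner ℝ (d.ξ j) (d.φ j (d.T P0)) = 0 := by rw [real_inner_comm, h5]
    have h6 : inner ℝ (d.ξ j) (d.ξ j) = (1 : ℝ) := by rw [h.on, if_pos rfl]
    rw [← real_inner_self_eq_norm_sq (hv d P0 s n0 n gam i ka j), hv]
    simp only [inner_add_left, inner_add_right, inner_sub_left, inner_sub_right,
      real_inner_smul_left, real_inner_smul_right, h5, h5', h6]
    rw [real_inner_comm (Xq d P0 s j) (XN d P0 s n0 n),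
      real_inner_comm (Xq d P0 s j) (d.φ j (d.T P0)),
      real_inner_comm (XN d P0 s n0 n) (d.φ j (d.T P0)),
      real_inner_comm (d.ξ j) (Xq d P0 s j), real_inner_comm (d.ξ j) (XN d P0 s n0 n),
      real_inner_self_eq_norm_sq, real_inner_self_eq_norm_sq, real_inner_self_eq_norm_sq]
    ring
  have e2 : ∑ j, ‖d.φ j (d.T P0)‖ ^ 2 ≤ 3 * ‖d.T P0‖ ^ 2 := by
    have e3 : ∀ j ∈ Finset.univ, ‖d.φ j (d.T P0)‖ ^ 2 ≤ ‖d.T P0‖ ^ 2 := by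
      intro j _
      rw [phi_sq h]
      nlinarith [sq_nonneg (inner ℝ (d.ξ j) (d.T P0))]
    have e4 := Finset.sum_le_sum e3
    rw [Finset.sum_const, Finset.card_univ, h3, nsmul_eq_mul] at e4
    push_cast at e4
    exact e4
  have e5 := nX d P0 s n0 n
  have e6 : ∑ j, inner ℝ (Xq d P0 s j) (d.φ j (d.T P0)) =
      -(‖d.T P0‖ ^ 2 - inner ℝ (d.T P0) (Psi d P0 s)) := by
    rw [Psi, inner_sub_right, real_inner_self_eq_norm_sq, inner_sum]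
    have e7 : ∀ j, inner ℝ (Xq d P0 s j) (d.φ j (d.T P0)) =
        - inner ℝ (d.T P0) (d.φ j (Xq d P0 s j)) := by
      intro j
      rw [skew' h, real_inner_comm]
    rw [Finset.sum_congr rfl fun j _ => e7 j, Finset.sum_neg_distrib]
    ring
  rw [Finset.sum_congr rfl fun j _ => e1 j]
  simp only [Finset.sum_add_distrib, Finset.sum_sub_distrib, ← Finset.mul_sum]
  rw [e5, e6, Finset.sum_const, Finset.card_univ, h3, ← Finset.sum_mul, nsmul_eq_mul, b2, pn, om]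
  push_cast
  linarith

theorem f8 (h : Rul d) (x y : ℝ) : (x * n0 * inner ℝ (d.T P0) (XN d P0 s n0 n) -
    y * ∑ j, n j * inner ℝ (XN d P0 s n0 n) (d.φ j (d.T P0))) ^ 2 ≤
      ‖XN d P0 s n0 n‖ ^ 2 * ((x ^ 2 * n0 ^ 2 + y ^ 2 * ∑ j, n j ^ 2) * ‖d.T P0‖ ^ 2) := by
  have h1 := cs (XN d P0 s n0 n) ((x * n0) • d.T P0 + (-y) • ∑ j, n j • d.φ j (d.T P0))
  have h2 := nrm_lin h (x * n0) (-y) n (d.T P0)
  have h3 : inner ℝ (XN d P0 s n0 n) ((x * n0) • d.T P0 +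
      (-y) • ∑ j, n j • d.φ j (d.T P0)) = x * n0 * inner ℝ (d.T P0) (XN d P0 s n0 n) -
      y * ∑ j, n j * inner ℝ (XN d P0 s n0 n) (d.φ j (d.T P0)) := by
    rw [inner_add_right, real_inner_smul_right, real_inner_smul_right, inner_sum,
      real_inner_comm (d.T P0)]
    simp only [real_inner_smul_right]
    ring
  rw [h3] at h1
  refine h1.trans (mul_le_mul_of_nonneg_left (h2.trans (le_of_eq ?_)) (by positivity))
  ring

theorem f12 (h : Rul d) (h3 : Fintype.card ι = 3) :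
    ‖Psi d P0 s‖ ^ 2 + pn d P0 s ^ 2 ≤ 4 * (‖d.T P0‖ ^ 2 + b2 d P0 s) := by
  have h1 := phi_tau_le h h3 fun i => Xq d P0 s i
  have h2 : ‖Psi d P0 s‖ ^ 2 ≤ 4 * ‖d.T P0‖ ^ 2 + 4 / 3 * ‖∑ i, d.φ i (Xq d P0 s i)‖ ^ 2 := by
    rw [Psi, norm_sub_sq_real]
    have h4 := abs_real_inner_le_norm (d.T P0) (∑ i, d.φ i (Xq d P0 s i))
    have h5 := neg_abs_le (inner ℝ (d.T P0) (∑ i, d.φ i (Xq d P0 s i)))
    nlinarith [sq_nonneg (3 * ‖d.T P0‖ - ‖∑ i, d.φ i (Xq d P0 s i)‖)]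
  have h6 : 0 ≤ (∑ i, inner ℝ (d.ξ i) (Xq d P0 s i)) ^ 2 := sq_nonneg _
  rw [pn, b2]
  linarith

theorem f12' (h : Rul d) (h3 : Fintype.card ι = 3) : pn d P0 s ^ 2 ≤ 3 * b2 d P0 s := by
  have h1 := phi_tau_le h h3 fun i => Xq d P0 s i
  have h2 : 0 ≤ ‖∑ i, d.φ i (Xq d P0 s i)‖ ^ 2 := sq_nonneg _
  rw [pn, b2]
  linarith

theorem f14 (h : Rul d) (h3 : Fintype.card ι = 3) : pn d P0 s ^ 2 ≤ 3 * Bx d P0 s := by
  have h1 := sum_sq_le3 h3 fun i => inner ℝ (d.ξ i) (Xq d P0 s i)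
  refine h1.trans (mul_le_mul_of_nonneg_left ?_ (by norm_num))
  rw [Bx]
  refine Finset.sum_le_sum fun i _ => ?_
  have h2 : inner ℝ (d.ξ i) (Xq d P0 s i) ^ 2 ≤ ∑ j, inner ℝ (d.ξ i) (Xq d P0 s j) ^ 2 :=
    Finset.single_le_sum (f := fun j => inner ℝ (d.ξ i) (Xq d P0 s j) ^ 2)
      (fun j _ => sq_nonneg _) (Finset.mem_univ i)
  nlinarith [sq_nonneg (inner ℝ (d.ξ i) (d.T P0))]

theorem f14' (h : Rul d) : Bx d P0 s ≤ ‖d.T P0‖ ^ 2 + b2 d P0 s := by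
  rw [Bx, Finset.sum_add_distrib, Finset.sum_comm, b2]
  exact add_le_add (sum_xi_sq h _) (Finset.sum_le_sum fun j _ => sum_xi_sq h _)

/-- **assembly**: the scalar conditions give the lower bound -/
theorem asm (h : Rul d) (N : Nf d P0 s n0 n) (h3 : Fintype.card ι = 3)
    {L i be c1 c3 gam E1 q G w1 w1' w2 w3 w3' cp t3 xt ec sub e3 ks bm bp : ℝ}
    (hL : L = d.lam ^ 2) (hi : i = L⁻¹) (hbe : be = (d.ρ - L) / 2)
    (hc3 : c3 = 1 + (1 - i) * be) (hc1 : c1 = 4 * L * c3 - 1 + be * i)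
    (hgam : gam = d.ρ * i) (hE1 : E1 = d.A + be * gam)
    (S : Sca L i be d.A d.ρ gam c1 c3 (c1 - c3) (4 * (L - 1) - 1 + 2 * i) E1 (c1 * d.A - E1)
      (‖P0‖ ^ 2) n0 (∑ j, n j ^ 2) q G w1 w1' w2 w3 w3' cp t3 xt ec sub e3 ks bm bp) :
    d.A / 100 * LinearMap.trace ℝ H (d.T ∘ₗ d.T) ≤ d.Qf 4 := by
  have hQ := Qf_eq h N h3 4 L i be c1 c3 hL hi hbe hc3 hc1
  rw [← hgam, ← hE1] at hQ
  have hw : 0 ≤ LinearMap.trace ℝ H (d.T ∘ₗ d.T) - T2 d := by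
    have h5 := tr_xi h h.symT
    rw [T2]
    linarith
  have hN2 : ∑ j, n j ^ 2 ≤ L := by
    have h6 := N.ball
    rw [hL]
    nlinarith [sq_nonneg (n0 - (d.lam - 1) * s)]
  have hz : 0 ≤ ∑ j, inner ℝ (d.ξ j) (XN d P0 s n0 n) ^ 2 :=
    Finset.sum_nonneg fun j _ => sq_nonneg _
  have hom : om d P0 s n0 n ^ 2 ≤ L * ∑ j, inner ℝ (d.ξ j) (XN d P0 s n0 n) ^ 2 := by
    have h7 := Finset.sum_mul_sq_le_sq_mul_sq Finset.univ n
      (fun j => inner ℝ (d.ξ j) (XN d P0 s n0 n))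
    exact h7.trans (mul_le_mul_of_nonneg_right hN2 hz)
  have hK := lemK h h3
  have hJ : ‖Jn d n0 n P0‖ ^ 2 ≤ d.ρ * ‖P0‖ ^ 2 := by
    rw [N.ρ]
    exact Jn_sq h P0
  have hJ' : ‖Jn d n0 n (Psi d P0 s)‖ ^ 2 ≤ d.ρ * ‖Psi d P0 s‖ ^ 2 := by
    rw [N.ρ]
    exact Jn_sq h (Psi d P0 s)
  have hmain := core S (a2 := ‖d.T P0‖ ^ 2) (b2 := b2 d P0 s) (ps2 := ‖Psi d P0 s‖ ^ 2)
    (p := pn d P0 s) (x2 := ‖XN d P0 s n0 n‖ ^ 2)
    (z2 := ∑ j, inner ℝ (d.ξ j) (XN d P0 s n0 n) ^ 2) (om := om d P0 s n0 n)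
    (c0N := inner ℝ (d.T P0) (XN d P0 s n0 n)) (c0P := inner ℝ (d.T P0) (Psi d P0 s))
    (cNP := inner ℝ (XN d P0 s n0 n) (Jn d n0 n (Psi d P0 s)))
    (cV := ∑ j, n j * inner ℝ (XN d P0 s n0 n) (d.φ j (d.T P0))) (T2 := T2 d)
    (w := LinearMap.trace ℝ H (d.T ∘ₗ d.T) - T2 d) (F2 := ‖Ph d‖ ^ 2) (tau := d.tau)
    (cNF := inner ℝ (XN d P0 s n0 n) (Ph d)) (bP := inner ℝ P0 (Psi d P0 s))
    (bW := inner ℝ (Jn d n0 n P0) (XN d P0 s n0 n)) (yX := yX d P0 s)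
    (yN := yN d P0 s n0 n) (y0 := y0 d P0) (yx := yx d P0) (tY := tY d P0 n0 n)
    (B := Bx d P0 s) (Y2 := ∑ j, ‖d.T (d.φ j P0)‖ ^ 2)
    (H2 := ∑ j, ‖hv d P0 s n0 n gam i (om d P0 s n0 n - be * pn d P0 s) j‖ ^ 2)
    (trs := trs d) (vV := 0) (Q := d.Qf 4)
    (sq_nonneg _) (Finset.sum_nonneg fun j _ => sq_nonneg _) (sq_nonneg _) (sq_nonneg _)
    (Finset.sum_nonneg fun j _ => sq_nonneg _) hw (sq_nonneg _)
    (by rw [trs]; linarith) (f2 h h3) (tr_bessel h P0 N.xP) (f4 h N)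
    (f5 h S.G0 S.qG) (f6 h h3 gam i _) (cs _ _)
    (by
      have h8 := f8 (s := s) (P0 := P0) (n0 := n0) (n := n) h (1 - 2 * gam * q) (2 * q)
      refine h8.trans (le_of_eq ?_)
      ring)
    ((cs _ _).trans (mul_le_mul_of_nonneg_left hJ' (sq_nonneg _)))
    (cs _ _)
    ((cs _ _).trans (mul_le_mul_of_nonneg_right hJ (sq_nonneg _)))
    (cs _ _) (f12 h h3) (f12' h h3) hom (f14 h h3) (f14' h)
    (Finset.sum_nonneg fun j _ => sq_nonneg _)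
    (by rw [hQ]; ring)
  have e : LinearMap.trace ℝ H (d.T ∘ₗ d.T) - T2 d + T2 d = LinearMap.trace ℝ H (d.T ∘ₗ d.T) := by
    ring
  rw [e] at hmain
  exact hmain

end Pool.Agent.Helper59.JH
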