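import Mathlib

/-! # JH: scalar inequalities, second case -/

set_option autoImplicit false
set_option linter.unusedVariables false

namespace Pool.Agent.Helper59.JH

noncomputable def EtN (m v : ℝ) : ℝ := (19 - 20 * m + 5 * v) / 10

noncomputable def gN (m v : ℝ) : ℝ := (1 + v - 2 * m) / (1 + v)

noncomputable def qN (m v : ℝ) : ℝ := 5 / (9 * ((1 + v) * (2 - m + 2 * v)))

noncomputable def GN (m v : ℝ) : ℝ := 9 / 20 * ((1 + v) * (2 - m + 2 * v))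

noncomputable def w2N (m v : ℝ) : ℝ := 2 * (1 - m + v)

noncomputable def cpN (m v : ℝ) : ℝ := 9 / 8 * m ^ 2 / ((1 + v) * EtN m v)

noncomputable def t3N (m v : ℝ) : ℝ := 9 / 10 * gN m v / EtN m v

noncomputable def XN' (v : ℝ) : ℝ := (9 + 4 * v + 5 * v ^ 2) / 10

noncomputable def xtN (m v : ℝ) : ℝ := m * (3 * v - 1) ^ 2 / (4 * (1 + v) * XN' v)

noncomputable def c3N (m v : ℝ) : ℝ := 1 - m * v / (1 + v)

noncomputable def c1N (m v : ℝ) : ℝ := 4 * (1 + v - m * v) - 1 - m / (1 + v)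

noncomputable def subN (m v : ℝ) : ℝ :=
  m * gN m v * ((v - 2) / (1 + v)) ^ 2 / (18 / 25 * (2 - m + 2 * v))

theorem n_gl {m v : ℝ} (hm : 0 ≤ m) (hm' : m ≤ 1 / 2) (hv : 0 ≤ v) :
    0 ≤ c1N m v - 1 - (2 - m + 2 * v) := by
  obtain ⟨w, hw⟩ : ∃ w, w = 1 - 2 * m := ⟨_, rfl⟩
  have hw0 : 0 ≤ w := by rw [hw]; linarith
  have h1 : 0 < 1 + v := by linarith
  have h2 : 0 < 2 - m + 2 * v := by linarith
  have h3 : 0 < 19 - 20 * m + 5 * v := by linarith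
  have h4 : 0 < 1 - m + v := by linarith
  have h5 : 0 < 2 + v := by linarith
  have h6 : 0 < 9 + 4 * v + 5 * v ^ 2 := by positivity
  have h2' := h2.ne'
  have h3' := h3.ne'
  have h4' := h4.ne'
  have h2'' : 2 - m + v * 2 ≠ 0 := by rw [mul_comm v 2]; exact h2'
  have h3'' : 19 - m * 20 + v * 5 ≠ 0 := by rw [mul_comm v 5, mul_comm m 20]; exact h3'
  have e : c1N m v - 1 - (2 - m + 2 * v) =
      (2 * w * v + 1 * m * v + 2 * w * v ^ 2) /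
      (1 * (1 + v)) := by
    unfold c1N
    rw [hw]
    field_simp
    ring
  rw [e]
  positivity

theorem n_Rc {m v : ℝ} (hm : 0 ≤ m) (hm' : m ≤ 1 / 2) (hv : 0 ≤ v) :
    0 ≤ c1N m v - 3 * (m / (1 + v)) - subN m v - 1 / 100 - 3 * (EtN m v - 1) := by
  obtain ⟨w, hw⟩ : ∃ w, w = 1 - 2 * m := ⟨_, rfl⟩
  have hw0 : 0 ≤ w := by rw [hw]; linarith
  have h1 : 0 < 1 + v := by linarith
  have h2 : 0 < 2 - m + 2 * v := by linarith
  have h3 : 0 < 19 - 20 * m + 5 * v := by linarith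
  have h4 : 0 < 1 - m + v := by linarith
  have h5 : 0 < 2 + v := by linarith
  have h6 : 0 < 9 + 4 * v + 5 * v ^ 2 := by positivity
  have h2' := h2.ne'
  have h3' := h3.ne'
  have h4' := h4.ne'
  have h2'' : 2 - m + v * 2 ≠ 0 := by rw [mul_comm v 2]; exact h2'
  have h3'' : 19 - m * 20 + v * 5 ≠ 0 := by rw [mul_comm v 5, mul_comm m 20]; exact h3'
  have e : c1N m v - 3 * (m / (1 + v)) - subN m v - 1 / 100 - 3 * (EtN m v - 1) =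
      (522 * w ^ 2 + 427 * m * w + 6966 * m ^ 2 + 6588 * w ^ 2 * v + 37719 * m * w * v +
        33686 * m ^ 2 * v + 21132 * w ^ 2 * v ^ 2 + 95145 * m * w * v ^ 2 + 106462 * m ^ 2 * v ^ 2 +
        29088 * w ^ 2 * v ^ 3 + 100891 * m * w * v ^ 3 + 90830 * m ^ 2 * v ^ 3 +
        18522 * w ^ 2 * v ^ 4 + 53838 * m * w * v ^ 4 + 37188 * m ^ 2 * v ^ 4 +
        4500 * w ^ 2 * v ^ 5 + 10800 * m * w * v ^ 5 + 3600 * m ^ 2 * v ^ 5) /
      (900 * (1 + v) ^ 3 * (2 - m + 2 * v)) := by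
    unfold c1N subN EtN gN
    rw [hw]
    field_simp
    ring
  rw [e]
  positivity

theorem n_R0 {m v : ℝ} (hm : 0 ≤ m) (hm' : m ≤ 1 / 2) (hv : 0 ≤ v) :
    0 ≤ c1N m v - 3 * (m / (1 + v)) - subN m v - 1 / 100 := by
  obtain ⟨w, hw⟩ : ∃ w, w = 1 - 2 * m := ⟨_, rfl⟩
  have hw0 : 0 ≤ w := by rw [hw]; linarith
  have h1 : 0 < 1 + v := by linarith
  have h2 : 0 < 2 - m + 2 * v := by linarith
  have h3 : 0 < 19 - 20 * m + 5 * v := by linarith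
  have h4 : 0 < 1 - m + v := by linarith
  have h5 : 0 < 2 + v := by linarith
  have h6 : 0 < 9 + 4 * v + 5 * v ^ 2 := by positivity
  have h2' := h2.ne'
  have h3' := h3.ne'
  have h4' := h4.ne'
  have h2'' : 2 - m + v * 2 ≠ 0 := by rw [mul_comm v 2]; exact h2'
  have h3'' : 19 - m * 20 + v * 5 ≠ 0 := by rw [mul_comm v 5, mul_comm m 20]; exact h3'
  have e : c1N m v - 3 * (m / (1 + v)) - subN m v - 1 / 100 =
      (5382 * w ^ 2 + 6637 * m * w + 5346 * m ^ 2 + 28728 * w ^ 2 * v + 74439 * m * w * v +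
        34766 * m ^ 2 * v + 61092 * w ^ 2 * v ^ 2 + 178845 * m * w * v ^ 2 + 130222 * m ^ 2 * v ^ 2 +
        64728 * w ^ 2 * v ^ 3 + 193771 * m * w * v ^ 3 + 139430 * m ^ 2 * v ^ 3 +
        34182 * w ^ 2 * v ^ 4 + 104328 * m * w * v ^ 4 + 75528 * m ^ 2 * v ^ 4 +
        7200 * w ^ 2 * v ^ 5 + 21600 * m * w * v ^ 5 + 14400 * m ^ 2 * v ^ 5) /
      (900 * (1 + v) ^ 3 * (2 - m + 2 * v)) := by
    unfold c1N subN gN
    rw [hw]
    field_simp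
    ring
  rw [e]
  positivity

theorem n_s9 {m v : ℝ} (hm : 0 ≤ m) (hm' : m ≤ 1 / 2) (hv : 0 ≤ v) :
    0 ≤ c3N m v - (2 + v) / (4 * (1 + v)) - (2 + v) * v / (8 * (1 + v) ^ 2) - cpN m v := by
  obtain ⟨w, hw⟩ : ∃ w, w = 1 - 2 * m := ⟨_, rfl⟩
  have hw0 : 0 ≤ w := by rw [hw]; linarith
  have h1 : 0 < 1 + v := by linarith
  have h2 : 0 < 2 - m + 2 * v := by linarith
  have h3 : 0 < 19 - 20 * m + 5 * v := by linarith
  have h4 : 0 < 1 - m + v := by linarith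
  have h5 : 0 < 2 + v := by linarith
  have h6 : 0 < 9 + 4 * v + 5 * v ^ 2 := by positivity
  have h2' := h2.ne'
  have h3' := h3.ne'
  have h4' := h4.ne'
  have h2'' : 2 - m + v * 2 ≠ 0 := by rw [mul_comm v 2]; exact h2'
  have h3'' : 19 - m * 20 + v * 5 ≠ 0 := by rw [mul_comm v 5, mul_comm m 20]; exact h3'
  have e : c3N m v - (2 + v) / (4 * (1 + v)) - (2 + v) * v / (8 * (1 + v) ^ 2) - cpN m v =
      (76 * w ^ 2 + 224 * m * w + 54 * m ^ 2 + 172 * w ^ 2 * v + 376 * m * w * v + 134 * m ^ 2 * v +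
        135 * w ^ 2 * v ^ 2 + 248 * m * w * v ^ 2 + 116 * m ^ 2 * v ^ 2 + 25 * w ^ 2 * v ^ 3 +
        60 * m * w * v ^ 3 + 20 * m ^ 2 * v ^ 3) /
      (8 * (1 + v) ^ 2 * (19 - 20 * m + 5 * v)) := by
    unfold c3N cpN EtN
    rw [hw]
    field_simp
    ring
  rw [e]
  positivity

theorem n_s10 {m v : ℝ} (hm : 0 ≤ m) (hm' : m ≤ 1 / 2) (hv : 0 ≤ v) :
    0 ≤ c1N m v - c3N m v + GN m v + 1 - qN m v * (3 + 2 * gN m v) - m - (1 + v) / (2 + v) - w2N m v := by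
  obtain ⟨w, hw⟩ : ∃ w, w = 1 - 2 * m := ⟨_, rfl⟩
  have hw0 : 0 ≤ w := by rw [hw]; linarith
  have h1 : 0 < 1 + v := by linarith
  have h2 : 0 < 2 - m + 2 * v := by linarith
  have h3 : 0 < 19 - 20 * m + 5 * v := by linarith
  have h4 : 0 < 1 - m + v := by linarith
  have h5 : 0 < 2 + v := by linarith
  have h6 : 0 < 9 + 4 * v + 5 * v ^ 2 := by positivity
  have h2' := h2.ne'
  have h3' := h3.ne'
  have h4' := h4.ne'
  have h2'' : 2 - m + v * 2 ≠ 0 := by rw [mul_comm v 2]; exact h2'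
  have h3'' : 19 - m * 20 + v * 5 ≠ 0 := by rw [mul_comm v 5, mul_comm m 20]; exact h3'
  have e : c1N m v - c3N m v + GN m v + 1 - qN m v * (3 + 2 * gN m v) - m - (1 + v) / (2 + v) - w2N m v =
      (8 * w ^ 2 + 4 * m * w + 138 * m ^ 2 + 4584 * w ^ 2 * v + 13300 * m * w * v +
        9551 * m ^ 2 * v + 13720 * w ^ 2 * v ^ 2 + 41236 * m * w * v ^ 2 + 30841 * m ^ 2 * v ^ 2 +
        16560 * w ^ 2 * v ^ 3 + 50184 * m * w * v ^ 3 + 37053 * m ^ 2 * v ^ 3 +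
        10080 * w ^ 2 * v ^ 4 + 31536 * m * w * v ^ 4 + 23553 * m ^ 2 * v ^ 4 +
        2988 * w ^ 2 * v ^ 5 + 10188 * m * w * v ^ 5 + 8424 * m ^ 2 * v ^ 5 + 324 * w ^ 2 * v ^ 6 +
        1296 * m * w * v ^ 6 + 1296 * m ^ 2 * v ^ 6) /
      (180 * (1 + v) ^ 2 * (2 - m + 2 * v) * (2 + v)) := by
    unfold c1N c3N GN qN gN w2N
    rw [hw]
    field_simp
    ring
  rw [e]
  positivity

theorem n_s11 {m v : ℝ} (hm : 0 ≤ m) (hm' : m ≤ 1 / 2) (hv : 0 ≤ v) :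
    0 ≤ c1N m v - c3N m v + gN m v - qN m v * gN m v ^ 2 - m := by
  obtain ⟨w, hw⟩ : ∃ w, w = 1 - 2 * m := ⟨_, rfl⟩
  have hw0 : 0 ≤ w := by rw [hw]; linarith
  have h1 : 0 < 1 + v := by linarith
  have h2 : 0 < 2 - m + 2 * v := by linarith
  have h3 : 0 < 19 - 20 * m + 5 * v := by linarith
  have h4 : 0 < 1 - m + v := by linarith
  have h5 : 0 < 2 + v := by linarith
  have h6 : 0 < 9 + 4 * v + 5 * v ^ 2 := by positivity
  have h2' := h2.ne'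
  have h3' := h3.ne'
  have h4' := h4.ne'
  have h2'' : 2 - m + v * 2 ≠ 0 := by rw [mul_comm v 2]; exact h2'
  have h3'' : 19 - m * 20 + v * 5 ≠ 0 := by rw [mul_comm v 5, mul_comm m 20]; exact h3'
  have e : c1N m v - c3N m v + gN m v - qN m v * gN m v ^ 2 - m =
      (49 * w ^ 2 + 117 * m * w + 54 * m ^ 2 + 278 * w ^ 2 * v + 727 * m * w * v + 450 * m ^ 2 * v +
        607 * w ^ 2 * v ^ 2 + 1735 * m * w * v ^ 2 + 1186 * m ^ 2 * v ^ 2 + 648 * w ^ 2 * v ^ 3 +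
        1953 * m * w * v ^ 3 + 1422 * m ^ 2 * v ^ 3 + 342 * w ^ 2 * v ^ 4 + 1044 * m * w * v ^ 4 +
        756 * m ^ 2 * v ^ 4 + 72 * w ^ 2 * v ^ 5 + 216 * m * w * v ^ 5 + 144 * m ^ 2 * v ^ 5) /
      (9 * (1 + v) ^ 3 * (2 - m + 2 * v)) := by
    unfold c1N c3N gN qN
    rw [hw]
    field_simp
    ring
  rw [e]
  positivity

theorem n_f0 {m v : ℝ} (hm : 0 ≤ m) (hm' : m ≤ 1 / 2) (hv : 0 ≤ v) :
    0 ≤ 4 * v - 1 + 4 / (1 + v) - 4 * qN m v * gN m v / (1 + v) - xtN m v - t3N m v -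
      2 * v * (1 + v - 2 * m) / (2 + v) - gN m v / ((1 + v) * w2N m v) := by
  obtain ⟨w, hw⟩ : ∃ w, w = 1 - 2 * m := ⟨_, rfl⟩
  have hw0 : 0 ≤ w := by rw [hw]; linarith
  have h1 : 0 < 1 + v := by linarith
  have h2 : 0 < 2 - m + 2 * v := by linarith
  have h3 : 0 < 19 - 20 * m + 5 * v := by linarith
  have h4 : 0 < 1 - m + v := by linarith
  have h5 : 0 < 2 + v := by linarith
  have h6 : 0 < 9 + 4 * v + 5 * v ^ 2 := by positivity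
  have h2' := h2.ne'
  have h3' := h3.ne'
  have h4' := h4.ne'
  have h2'' : 2 - m + v * 2 ≠ 0 := by rw [mul_comm v 2]; exact h2'
  have h3'' : 19 - m * 20 + v * 5 ≠ 0 := by rw [mul_comm v 5, mul_comm m 20]; exact h3'
  have e : 4 * v - 1 + 4 / (1 + v) - 4 * qN m v * gN m v / (1 + v) - xtN m v - t3N m v -
      2 * v * (1 + v - 2 * m) / (2 + v) - gN m v / ((1 + v) * w2N m v) =
      (11268 * w ^ 4 + 90162 * m * w ^ 3 + 242730 * m ^ 2 * w ^ 2 + 264114 * m ^ 3 * w +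
        100116 * m ^ 4 + 112522 * w ^ 4 * v + 749667 * m * w ^ 3 * v + 1799369 * m ^ 2 * w ^ 2 * v +
        1859175 * m ^ 3 * w * v + 698598 * m ^ 4 * v + 398708 * w ^ 4 * v ^ 2 +
        2640559 * m * w ^ 3 * v ^ 2 + 6295362 * m ^ 2 * w ^ 2 * v ^ 2 + 6450063 * m ^ 3 * w * v ^ 2 +
        2411982 * m ^ 4 * v ^ 2 + 794710 * w ^ 4 * v ^ 3 + 5322306 * m * w ^ 3 * v ^ 3 +
        12949299 * m ^ 2 * w ^ 2 * v ^ 3 + 13584226 * m ^ 3 * w * v ^ 3 + 5190784 * m ^ 4 * v ^ 3 +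
        1055432 * w ^ 4 * v ^ 4 + 7117330 * m * w ^ 3 * v ^ 4 + 17599858 * m ^ 2 * w ^ 2 * v ^ 4 +
        18897200 * m ^ 3 * w * v ^ 4 + 7421856 * m ^ 4 * v ^ 4 + 996466 * w ^ 4 * v ^ 5 +
        6804417 * m * w ^ 3 * v ^ 5 + 17104611 * m ^ 2 * w ^ 2 * v ^ 5 +
        18747059 * m ^ 3 * w * v ^ 5 + 7548294 * m ^ 4 * v ^ 5 + 681524 * w ^ 4 * v ^ 6 +
        4766977 * m * w ^ 3 * v ^ 6 + 12286686 * m ^ 2 * w ^ 2 * v ^ 6 +
        13820143 * m ^ 3 * w * v ^ 6 + 5717774 * m ^ 4 * v ^ 6 + 334746 * w ^ 4 * v ^ 7 +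
        2417814 * m * w ^ 3 * v ^ 7 + 6453225 * m ^ 2 * w ^ 2 * v ^ 7 + 7530804 * m ^ 3 * w * v ^ 7 +
        3235284 * m ^ 4 * v ^ 7 + 111492 * w ^ 4 * v ^ 8 + 832716 * m * w ^ 3 * v ^ 8 +
        2312388 * m ^ 2 * w ^ 2 * v ^ 8 + 2824704 * m ^ 3 * w * v ^ 8 + 1277712 * m ^ 4 * v ^ 8 +
        21780 * w ^ 4 * v ^ 9 + 167940 * m * w ^ 3 * v ^ 9 + 484920 * m ^ 2 * w ^ 2 * v ^ 9 +
        621360 * m ^ 3 * w * v ^ 9 + 298080 * m ^ 4 * v ^ 9 + 1800 * w ^ 4 * v ^ 10 +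
        14400 * m * w ^ 3 * v ^ 10 + 43200 * m ^ 2 * w ^ 2 * v ^ 10 + 57600 * m ^ 3 * w * v ^ 10 +
        28800 * m ^ 4 * v ^ 10) /
      (18 * (1 + v) ^ 3 * (2 - m + 2 * v) * (19 - 20 * m + 5 * v) * (1 - m + v) * (2 + v) * (9 + 4 * v + 5 * v ^ 2)) := by
    unfold qN xtN XN' t3N EtN w2N gN
    rw [hw]
    field_simp
    ring
  rw [e]
  positivity

theorem n_fR {m v : ℝ} (hm : 0 ≤ m) (hm' : m ≤ 1 / 2) (hv : 0 ≤ v) :
    0 ≤ 4 * v - 1 + 4 / (1 + v) - 4 * qN m v * gN m v / (1 + v) - xtN m v - t3N m v -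
      2 * v * (1 + v - 2 * m) / (2 + v) - gN m v / ((1 + v) * w2N m v) -
      4 * qN m v * gN m v / (1 + v) + (1 - (31 / 100 + m / 2)) * gN m v / ((1 + v) * w2N m v) := by
  obtain ⟨w, hw⟩ : ∃ w, w = 1 - 2 * m := ⟨_, rfl⟩
  have hw0 : 0 ≤ w := by rw [hw]; linarith
  have h1 : 0 < 1 + v := by linarith
  have h2 : 0 < 2 - m + 2 * v := by linarith
  have h3 : 0 < 19 - 20 * m + 5 * v := by linarith
  have h4 : 0 < 1 - m + v := by linarith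
  have h5 : 0 < 2 + v := by linarith
  have h6 : 0 < 9 + 4 * v + 5 * v ^ 2 := by positivity
  have h2' := h2.ne'
  have h3' := h3.ne'
  have h4' := h4.ne'
  have h2'' : 2 - m + v * 2 ≠ 0 := by rw [mul_comm v 2]; exact h2'
  have h3'' : 19 - m * 20 + v * 5 ≠ 0 := by rw [mul_comm v 5, mul_comm m 20]; exact h3'
  have e : 4 * v - 1 + 4 / (1 + v) - 4 * qN m v * gN m v / (1 + v) - xtN m v - t3N m v -
      2 * v * (1 + v - 2 * m) / (2 + v) - gN m v / ((1 + v) * w2N m v) -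
      4 * qN m v * gN m v / (1 + v) + (1 - (31 / 100 + m / 2)) * gN m v / ((1 + v) * w2N m v) =
      (183564 * w ^ 4 + 5197482 * m * w ^ 3 + 19578420 * m ^ 2 * w ^ 2 + 24589224 * m ^ 3 * w +
        10011600 * m ^ 4 + 8651438 * w ^ 4 * v + 60995679 * m * w ^ 3 * v +
        154800322 * m ^ 2 * w ^ 2 * v + 168585156 * m ^ 3 * w * v + 66215448 * m ^ 4 * v +
        37043872 * w ^ 4 * v ^ 2 + 245861621 * m * w ^ 3 * v ^ 2 +
        588576036 * m ^ 2 * w ^ 2 * v ^ 2 + 606847656 * m ^ 3 * w * v ^ 2 +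
        228956184 * m ^ 4 * v ^ 2 + 77827358 * w ^ 4 * v ^ 3 + 519898524 * m * w ^ 3 * v ^ 3 +
        1263218724 * m ^ 2 * w ^ 2 * v ^ 3 + 1324579904 * m ^ 3 * w * v ^ 3 +
        506221376 * m ^ 4 * v ^ 3 + 105185812 * w ^ 4 * v ^ 4 + 707256206 * m * w ^ 3 * v ^ 4 +
        1744949228 * m ^ 2 * w ^ 2 * v ^ 4 + 1870483624 * m ^ 3 * w * v ^ 4 +
        733852992 * m ^ 4 * v ^ 4 + 99930482 * w ^ 4 * v ^ 5 + 681195921 * m * w ^ 3 * v ^ 5 +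
        1709520558 * m ^ 2 * w ^ 2 * v ^ 5 + 1870729804 * m ^ 3 * w * v ^ 5 +
        752131032 * m ^ 4 * v ^ 5 + 68350480 * w ^ 4 * v ^ 6 + 477864515 * m * w ^ 3 * v ^ 6 +
        1231061820 * m ^ 2 * w ^ 2 * v ^ 6 + 1383923960 * m ^ 3 * w * v ^ 6 +
        572189080 * m ^ 4 * v ^ 6 + 33505650 * w ^ 4 * v ^ 7 + 242007300 * m * w ^ 3 * v ^ 7 +
        645932700 * m ^ 2 * w ^ 2 * v ^ 7 + 753804000 * m ^ 3 * w * v ^ 7 +
        323845200 * m ^ 4 * v ^ 7 + 11149200 * w ^ 4 * v ^ 8 + 83271600 * m * w ^ 3 * v ^ 8 +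
        231238800 * m ^ 2 * w ^ 2 * v ^ 8 + 282470400 * m ^ 3 * w * v ^ 8 +
        127771200 * m ^ 4 * v ^ 8 + 2178000 * w ^ 4 * v ^ 9 + 16794000 * m * w ^ 3 * v ^ 9 +
        48492000 * m ^ 2 * w ^ 2 * v ^ 9 + 62136000 * m ^ 3 * w * v ^ 9 + 29808000 * m ^ 4 * v ^ 9 +
        180000 * w ^ 4 * v ^ 10 + 1440000 * m * w ^ 3 * v ^ 10 + 4320000 * m ^ 2 * w ^ 2 * v ^ 10 +
        5760000 * m ^ 3 * w * v ^ 10 + 2880000 * m ^ 4 * v ^ 10) /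
      (1800 * (1 + v) ^ 3 * (2 - m + 2 * v) * (19 - 20 * m + 5 * v) * (1 - m + v) * (2 + v) * (9 + 4 * v + 5 * v ^ 2)) := by
    unfold qN xtN XN' t3N EtN w2N gN
    rw [hw]
    field_simp
    ring
  rw [e]
  positivity

theorem n_q2 {m v : ℝ} (hm : 0 ≤ m) (hm' : m ≤ 1 / 2) (hv : 0 ≤ v) :
    0 ≤ 31 / 100 + m / 2 - 4 * qN m v ^ 2 := by
  obtain ⟨w, hw⟩ : ∃ w, w = 1 - 2 * m := ⟨_, rfl⟩
  have hw0 : 0 ≤ w := by rw [hw]; linarith
  have h1 : 0 < 1 + v := by linarith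
  have h2 : 0 < 2 - m + 2 * v := by linarith
  have h3 : 0 < 19 - 20 * m + 5 * v := by linarith
  have h4 : 0 < 1 - m + v := by linarith
  have h5 : 0 < 2 + v := by linarith
  have h6 : 0 < 9 + 4 * v + 5 * v ^ 2 := by positivity
  have h2' := h2.ne'
  have h3' := h3.ne'
  have h4' := h4.ne'
  have h2'' : 2 - m + v * 2 ≠ 0 := by rw [mul_comm v 2]; exact h2'
  have h3'' : 19 - m * 20 + v * 5 ≠ 0 := by rw [mul_comm v 5, mul_comm m 20]; exact h3'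
  have e : 31 / 100 + m / 2 - 4 * qN m v ^ 2 =
      (44 * w ^ 3 + 6420 * m * w ^ 2 + 11463 * m ^ 2 * w + 1648 * m ^ 3 + 40176 * w ^ 3 * v +
        275724 * m * w ^ 2 * v + 577206 * m ^ 2 * w * v + 381024 * m ^ 3 * v +
        60264 * w ^ 3 * v ^ 2 + 428652 * m * w ^ 2 * v ^ 2 + 945351 * m ^ 2 * w * v ^ 2 +
        662256 * m ^ 3 * v ^ 2 + 40176 * w ^ 3 * v ^ 3 + 295812 * m * w ^ 2 * v ^ 3 +
        684936 * m ^ 2 * w * v ^ 3 + 508032 * m ^ 3 * v ^ 3 + 10044 * w ^ 3 * v ^ 4 +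
        76464 * m * w ^ 2 * v ^ 4 + 185328 * m ^ 2 * w * v ^ 4 + 145152 * m ^ 3 * v ^ 4) /
      (8100 * (1 + v) ^ 2 * (2 - m + 2 * v) ^ 2) := by
    unfold qN
    rw [hw]
    field_simp
    ring
  rw [e]
  positivity

theorem n_Cp {m v : ℝ} (hm : 0 ≤ m) (hm' : m ≤ 1 / 2) (hv : 0 ≤ v) :
    0 ≤ c3N m v + (c1N m v - c3N m v + gN m v - qN m v * gN m v ^ 2 - m) / 3 + m -
      3 * qN m v * m ^ 2 - 2 * gN m v * qN m v * m := by
  obtain ⟨w, hw⟩ : ∃ w, w = 1 - 2 * m := ⟨_, rfl⟩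
  have hw0 : 0 ≤ w := by rw [hw]; linarith
  have h1 : 0 < 1 + v := by linarith
  have h2 : 0 < 2 - m + 2 * v := by linarith
  have h3 : 0 < 19 - 20 * m + 5 * v := by linarith
  have h4 : 0 < 1 - m + v := by linarith
  have h5 : 0 < 2 + v := by linarith
  have h6 : 0 < 9 + 4 * v + 5 * v ^ 2 := by positivity
  have h2' := h2.ne'
  have h3' := h3.ne'
  have h4' := h4.ne'
  have h2'' : 2 - m + v * 2 ≠ 0 := by rw [mul_comm v 2]; exact h2'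
  have h3'' : 19 - m * 20 + v * 5 ≠ 0 := by rw [mul_comm v 5, mul_comm m 20]; exact h3'
  have e : c3N m v + (c1N m v - c3N m v + gN m v - qN m v * gN m v ^ 2 - m) / 3 + m -
      3 * qN m v * m ^ 2 - 2 * gN m v * qN m v * m =
      (103 * w ^ 2 + 330 * m * w + 252 * m ^ 2 + 494 * w ^ 2 * v + 1612 * m * w * v +
        1272 * m ^ 2 * v + 931 * w ^ 2 * v ^ 2 + 3082 * m * w * v ^ 2 + 2512 * m ^ 2 * v ^ 2 +
        864 * w ^ 2 * v ^ 3 + 2844 * m * w * v ^ 3 + 2340 * m ^ 2 * v ^ 3 + 396 * w ^ 2 * v ^ 4 +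
        1260 * m * w * v ^ 4 + 972 * m ^ 2 * v ^ 4 + 72 * w ^ 2 * v ^ 5 + 216 * m * w * v ^ 5 +
        144 * m ^ 2 * v ^ 5) /
      (27 * (1 + v) ^ 3 * (2 - m + 2 * v)) := by
    unfold c1N c3N gN qN
    rw [hw]
    field_simp
    ring
  rw [e]
  positivity

theorem n_ao {m v : ℝ} (hm : 0 ≤ m) (hm' : m ≤ 1 / 2) (hv : 0 ≤ v) :
    0 ≤ 1 + 4 * qN m v - 3 * qN m v * (1 + v) := by
  obtain ⟨w, hw⟩ : ∃ w, w = 1 - 2 * m := ⟨_, rfl⟩
  have hw0 : 0 ≤ w := by rw [hw]; linarith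
  have h1 : 0 < 1 + v := by linarith
  have h2 : 0 < 2 - m + 2 * v := by linarith
  have h3 : 0 < 19 - 20 * m + 5 * v := by linarith
  have h4 : 0 < 1 - m + v := by linarith
  have h5 : 0 < 2 + v := by linarith
  have h6 : 0 < 9 + 4 * v + 5 * v ^ 2 := by positivity
  have h2' := h2.ne'
  have h3' := h3.ne'
  have h4' := h4.ne'
  have h2'' : 2 - m + v * 2 ≠ 0 := by rw [mul_comm v 2]; exact h2'
  have h3'' : 19 - m * 20 + v * 5 ≠ 0 := by rw [mul_comm v 5, mul_comm m 20]; exact h3'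
  have e : 1 + 4 * qN m v - 3 * qN m v * (1 + v) =
      (23 * w + 37 * m + 21 * w * v + 33 * m * v + 18 * w * v ^ 2 + 36 * m * v ^ 2) /
      (9 * (1 + v) * (2 - m + 2 * v)) := by
    unfold qN
    rw [hw]
    field_simp
    ring
  rw [e]
  positivity

theorem n_disc {m v : ℝ} (hm : 0 ≤ m) (hm' : m ≤ 1 / 2) (hv : 0 ≤ v) :
    0 ≤ 4 * (1 + v) * (c3N m v + (c1N m v - c3N m v + gN m v - qN m v * gN m v ^ 2 - m) / 3 + m -
      3 * qN m v * m ^ 2 - 2 * gN m v * qN m v * m) *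
      (1 + 4 * qN m v - 3 * qN m v * (1 + v)) -
      (1 - 6 * qN m v * m * (1 + v) - 2 * gN m v * qN m v * (1 + v) + 4 * qN m v * m) ^ 2 := by
  obtain ⟨w, hw⟩ : ∃ w, w = 1 - 2 * m := ⟨_, rfl⟩
  have hw0 : 0 ≤ w := by rw [hw]; linarith
  have h1 : 0 < 1 + v := by linarith
  have h2 : 0 < 2 - m + 2 * v := by linarith
  have h3 : 0 < 19 - 20 * m + 5 * v := by linarith
  have h4 : 0 < 1 - m + v := by linarith
  have h5 : 0 < 2 + v := by linarith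
  have h6 : 0 < 9 + 4 * v + 5 * v ^ 2 := by positivity
  have h2' := h2.ne'
  have h3' := h3.ne'
  have h4' := h4.ne'
  have h2'' : 2 - m + v * 2 ≠ 0 := by rw [mul_comm v 2]; exact h2'
  have h3'' : 19 - m * 20 + v * 5 ≠ 0 := by rw [mul_comm v 5, mul_comm m 20]; exact h3'
  have e : 4 * (1 + v) * (c3N m v + (c1N m v - c3N m v + gN m v - qN m v * gN m v ^ 2 - m) / 3 + m -
      3 * qN m v * m ^ 2 - 2 * gN m v * qN m v * m) *
      (1 + 4 * qN m v - 3 * qN m v * (1 + v)) -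
      (1 - 6 * qN m v * m * (1 + v) - 2 * gN m v * qN m v * (1 + v) + 4 * qN m v * m) ^ 2 =
      (9284 * w ^ 3 + 44404 * m * w ^ 2 + 69525 * m ^ 2 * w + 35562 * m ^ 3 + 52660 * w ^ 3 * v +
        255760 * m * w ^ 2 * v + 409951 * m ^ 2 * w * v + 217134 * m ^ 3 * v +
        130424 * w ^ 3 * v ^ 2 + 643392 * m * w ^ 2 * v ^ 2 + 1049295 * m ^ 2 * w * v ^ 2 +
        564958 * m ^ 3 * v ^ 2 + 187560 * w ^ 3 * v ^ 3 + 934488 * m * w ^ 2 * v ^ 3 +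
        1545525 * m ^ 2 * w * v ^ 3 + 847098 * m ^ 3 * v ^ 3 + 172260 * w ^ 3 * v ^ 4 +
        864972 * m * w ^ 2 * v ^ 4 + 1444032 * m ^ 2 * w * v ^ 4 + 801072 * m ^ 3 * v ^ 4 +
        101124 * w ^ 3 * v ^ 5 + 511992 * m * w ^ 2 * v ^ 5 + 859536 * m ^ 2 * w * v ^ 5 +
        478800 * m ^ 3 * v ^ 5 + 34560 * w ^ 3 * v ^ 6 + 175392 * m * w ^ 2 * v ^ 6 +
        292032 * m ^ 2 * w * v ^ 6 + 158976 * m ^ 3 * v ^ 6 + 5184 * w ^ 3 * v ^ 7 +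
        25920 * m * w ^ 2 * v ^ 7 + 41472 * m ^ 2 * w * v ^ 7 + 20736 * m ^ 3 * v ^ 7) /
      (243 * (1 + v) ^ 3 * (2 - m + 2 * v) ^ 2) := by
    unfold c1N c3N gN qN
    rw [hw]
    field_simp
    ring
  rw [e]
  positivity

end Pool.Agent.Helper59.JH
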