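import Pool.Agent.Helper59.JH.ScP
import Pool.Agent.Helper59.JH.ScN0

/-! # JH: the scalar conditions, second case -/

set_option autoImplicit false
set_option linter.unusedVariables false

namespace Pool.Agent.Helper59.JH

theorem scaN {L i m A rho gam c1 c3 E1 Th n0 N2 be : ℝ} (hL1 : 1 < L)
    (hi : i = L⁻¹) (hbe : be = (rho - L) / 2) (hm : be = -m) (hm0 : 0 ≤ m) (hm1 : m ≤ 1 / 2)
    (hc3 : c3 = 1 + (1 - i) * be) (hc1 : c1 = 4 * L * c3 - 1 + be * i) (hgam : gam = rho * i)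
    (hE1 : E1 = A + be * gam) (hA : m ≤ A) (hTh : 0 ≤ Th) (hN0 : 0 ≤ N2)
    (hn : n0 ^ 2 + N2 = rho) (H1 : L * Th ≤ 2 * (A - m)) :
    ∃ q G w1 w1' w2 w3 w3' cp t3 xt ec sub e3 ks bm bp,
      Sca L i be A rho gam c1 c3 (c1 - c3) (4 * (L - 1) - 1 + 2 * i) E1 (c1 * A - E1) Th n0 N2
        q G w1 w1' w2 w3 w3' cp t3 xt ec sub e3 ks bm bp := by
  obtain ⟨v, hv⟩ : ∃ v, v = L - 1 := ⟨_, rfl⟩
  have hv0 : 0 ≤ v := by rw [hv]; linarith
  have hL' : L = 1 + v := by rw [hv]; ring
  have hLp : 0 < L := by linarith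
  have hLi : L * i = 1 := by rw [hi]; exact mul_inv_cancel₀ hLp.ne'
  have hi0 : 0 < i := by rw [hi]; positivity
  have hiv : i = 1 / (1 + v) := by rw [hi, hL', one_div]
  have hdiv : ∀ x : ℝ, x / (1 + v) = x * i := fun x => by rw [hiv]; ring
  have hrho : rho = L - 2 * m := by
    rw [hm] at hbe; linarith
  have hA0 : 0 ≤ A := hm0.trans hA
  have hgN : gam = gN m v := by
    rw [hgam, hrho, hiv, gN, hL']; ring
  have hg0 : 0 ≤ gam := by
    rw [hgam, hrho]
    apply mul_nonneg _ hi0.le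
    linarith
  have hg1 : gam ≤ 1 := by
    have : gam = 1 - 2 * m * i := by rw [hgam, hrho]; linear_combination hLi
    rw [this]
    have := mul_nonneg hm0 hi0.le
    linarith
  have hLg : L * gam = rho := by rw [hgam]; linear_combination rho * hLi
  have hc3N : c3 = c3N m v := by
    rw [hc3, hm, c3N, hdiv]
    have : 1 - i = v * i := by
      have := hLi
      rw [hL'] at this
      linarith
    rw [this]; ring
  have hLc3 : L * c3 = 1 + v - m * v := by
    rw [hc3, hm]
    linear_combination hL' - m * hL' + m * hLi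
  have hc1N : c1 = c1N m v := by
    rw [hc1, c1N, mul_assoc 4 L c3, hLc3, hm, hdiv]; ring
  have hgl0 : 0 < 2 - m + 2 * v := by linarith
  have hEt0 : 0 < EtN m v := by unfold EtN; linarith
  have hw20 : 0 < w2N m v := by unfold w2N; linarith
  have hX0 : 0 < XN' v := by unfold XN'; positivity
  have hc1gl := n_gl hm0 hm1 hv0
  rw [← hc1N] at hc1gl
  obtain ⟨Y, hY⟩ : ∃ Y, Y = (1 - 3 * i) ^ 2 := ⟨_, rfl⟩
  have hY0 : 0 ≤ Y := by rw [hY]; positivity
  have hYv : ((v - 2) / (1 + v)) ^ 2 = Y := by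
    rw [hY, hiv]
    congr 1
    field_simp
    ring
  obtain ⟨sub, hsub⟩ : ∃ sub, sub = subN m v := ⟨_, rfl⟩
  have hsub' : sub = m * gam * Y / (18 / 25 * (2 - m + 2 * v)) := by
    rw [hsub, subN, hYv, hgN]
  have hsub0 : 0 ≤ sub := by rw [hsub']; positivity
  obtain ⟨e3, he3⟩ : ∃ e3, e3 = (c1 + 3 * be * i - sub - 1 / 100) / 3 := ⟨_, rfl⟩
  have hmi : m / (1 + v) = m * i := hdiv m
  have he31 : EtN m v - 1 ≤ e3 := by
    have h1 := n_Rc hm0 hm1 hv0
    rw [← hc1N, ← hsub, hmi] at h1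
    rw [he3, hm]
    linarith
  have he30 : 0 ≤ e3 := by
    have h1 := n_R0 hm0 hm1 hv0
    rw [← hc1N, ← hsub, hmi] at h1
    rw [he3, hm]
    linarith
  have hE1' : E1 = A - m * gam := by rw [hE1, hm]; ring
  have hmg : m * gam ≤ m := by
    have := mul_le_mul_of_nonneg_left hg1 hm0
    linarith
  have hAm : 0 ≤ A - m := by linarith
  have hE10 : 0 ≤ E1 := by rw [hE1']; linarith
  -- the two lower bounds for `E = e3 A + E1`
  have hEa : EtN m v * (A - m) ≤ e3 * A + E1 := by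
    have h1 : (EtN m v - 1) * (A - m) ≤ e3 * (A - m) := mul_le_mul_of_nonneg_right he31 hAm
    have h2 : e3 * (A - m) ≤ e3 * A := mul_le_mul_of_nonneg_left (by linarith) he30
    rw [hE1']
    linarith
  have hEb : m * (XN' v * i) ≤ e3 * A + E1 := by
    have h1 : e3 * m ≤ e3 * A := mul_le_mul_of_nonneg_left hA he30
    have h2 : (EtN m v - 1) * m ≤ e3 * m := mul_le_mul_of_nonneg_right he31 hm0
    have h3 : XN' v * i ≤ EtN m v - gam := by
      have h4 : XN' v * i = XN' v / (1 + v) := (hdiv _).symm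
      rw [h4, div_le_iff₀ (by linarith), hgN, gN, XN', EtN]
      have h5 : (1 + v - 2 * m) / (1 + v) * (1 + v) = 1 + v - 2 * m := by field_simp
      rw [sub_mul, h5]
      nlinarith [mul_nonneg hv0 (sub_nonneg.2 hm1)]
    have h6 := mul_le_mul_of_nonneg_left h3 hm0
    rw [hE1']
    linarith
  have hq0 : 0 < qN m v := by unfold qN; positivity
  have hG0 : 0 < GN m v := by unfold GN; positivity
  have hcp0 : 0 ≤ cpN m v := by unfold cpN; positivity
  have ht30 : 0 ≤ t3N m v := by unfold t3N; rw [← hgN]; positivity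
  have hxt0 : 0 ≤ xtN m v := by unfold xtN; positivity
  have hgq0 : 0 ≤ gam * qN m v := by positivity
  have hq1 : qN m v ≤ 1 := by
    rw [qN, div_le_one (by positivity)]
    nlinarith [mul_nonneg hv0 (sub_nonneg.2 hm1)]
  have hgq1 : gam * qN m v ≤ 1 := by
    have := mul_le_mul hg1 hq1 hq0.le (by norm_num)
    linarith
  have hgq : (1 - 2 * gam * qN m v) ^ 2 ≤ 1 := by
    have := aux_sq hgq0 hgq1
    rwa [mul_assoc]
  have h1i : 1 - i = v * i := by
    have := hLi
    rw [hL'] at this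
    linarith
  refine ⟨qN m v, GN m v, (1 + v) / (2 + v), (2 + v) / (4 * (1 + v)), w2N m v,
    (2 + v) * v / (8 * (1 + v) ^ 2), 2 * v * (1 + v - 2 * m) / (2 + v), cpN m v, t3N m v,
    xtN m v, 9 / 100 * ((2 - m + 2 * v) * A), sub, e3, 0, m, 0, ?_⟩
  refine ⟨hLi, hi0, hA0, hE10, rfl, rfl, hq0.le, hG0.le, ?_, by positivity, hsub0, he30,
    hm0, le_rfl, by rw [hm]; ring, le_rfl, by positivity, by positivity, hw20,
    by positivity, ?_, hcp0, ht30, hxt0, ?_, ?_, ?_, ?_, ?_, ?_, ?_, ?_, ?_, ?_, ?_, ?_,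
    ?_, ?_⟩
  · -- qG
    unfold qN GN
    have h7 := hgl0.ne'
    have h8 : 2 - m + v * 2 ≠ 0 := by rw [mul_comm v 2]; exact h7
    field_simp
    norm_num
  · -- w3'
    apply div_nonneg _ (by linarith)
    apply mul_nonneg (by linarith)
    linarith
  · -- s1
    have h1 : GN m v * Th ≤ 9 / 10 * ((2 - m + 2 * v) * A) := by
      have h2 : GN m v * Th = 9 / 20 * (2 - m + 2 * v) * (L * Th) := by
        rw [GN, hL']; ring
      have h3 : L * Th ≤ 2 * A := by linarith
      have h4 := mul_le_mul_of_nonneg_left h3 (by positivity : 0 ≤ 9 / 20 * (2 - m + 2 * v))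
      rw [h2]
      linarith
    have h5 : (2 - m + 2 * v) * A ≤ (c1 - 1) * A :=
      mul_le_mul_of_nonneg_right (by linarith) hA0
    have h6 : 1 * A ≤ (2 - m + 2 * v) * A := mul_le_mul_of_nonneg_right (by linarith) hA0
    have h7 : 0 ≤ m * gam := mul_nonneg hm0 hg0
    rw [hE1']
    linarith
  · -- s2
    have h1 : (be * (1 - 3 * i)) ^ 2 * rho * Th = m * gam * Y * (m * (L * Th)) := by
      rw [hm, ← hLg, hY]; ring
    have h2 : m * (L * Th) ≤ A ^ 2 / 2 := by
      have h3 := mul_le_mul_of_nonneg_left H1 hm0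
      nlinarith [sq_nonneg (A - 2 * m)]
    have h4 : 4 * (9 / 100 * ((2 - m + 2 * v) * A)) * (sub * A) =
        m * gam * Y * (A ^ 2 / 2) := by
      rw [hsub']
      have := hgl0.ne'
      field_simp
      ring
    rw [h1, h4]
    exact mul_le_mul_of_nonneg_left h2 (by positivity)
  · -- s3
    rw [he3]
    linarith
  · -- s4
    have h1 : 9 / 4 * be ^ 2 * Th ≤ 4 * (EtN m v * (A - m)) * cpN m v := by
      have h2 : 4 * (EtN m v * (A - m)) * cpN m v = 9 / 2 * m ^ 2 * (A - m) * i := by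
        rw [cpN, hiv]
        field_simp
        ring
      have h3 : Th = (L * Th) * i := by linear_combination (-Th) * hLi
      have h4 : (L * Th) * i ≤ 2 * (A - m) * i := mul_le_mul_of_nonneg_right H1 hi0.le
      have h5 : Th ≤ 2 * (A - m) * i := by rw [h3]; exact h4
      have h6 := mul_le_mul_of_nonneg_left h5 (by positivity : 0 ≤ 9 / 4 * m ^ 2)
      rw [h2, hm]
      linarith
    exact h1.trans (mul_le_mul_of_nonneg_right (by linarith) hcp0)
  · -- s5
    have h1 : 9 / 5 * rho * Th ≤ 4 * (EtN m v * (A - m)) * t3N m v := by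
      have h2 : 4 * (EtN m v * (A - m)) * t3N m v = 18 / 5 * gam * (A - m) := by
        rw [t3N, ← hgN]
        field_simp
        ring
      have h3 : 9 / 5 * rho * Th = 9 / 5 * gam * (L * Th) := by rw [← hLg]; ring
      have h6 := mul_le_mul_of_nonneg_left H1 (by positivity : 0 ≤ 9 / 5 * gam)
      rw [h2, h3]
      linarith
    exact h1.trans (mul_le_mul_of_nonneg_right (by linarith) ht30)
  · -- s6
    have h1 : be ^ 2 * (3 - 4 * i) ^ 2 ≤ 4 * (m * (XN' v * i)) * xtN m v := by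
      have h3 : (3 - 4 * i) ^ 2 = (3 * v - 1) ^ 2 * i ^ 2 := by
        rw [← mul_pow]
        congr 1
        rw [hiv]
        field_simp
        ring
      rw [h3, xtN, hm]
      apply le_of_eq
      rw [hiv]
      field_simp
    exact h1.trans (mul_le_mul_of_nonneg_right (by linarith) hxt0)
  · -- s7
    apply le_of_eq
    field_simp
  · -- s7'
    exact hgq
  · -- s8
    apply le_of_eq
    rw [h1i, ← hLg, hgN, gN, hL', hiv]
    field_simp
    ring
  · -- s9
    have h1 := n_s9 hm0 hm1 hv0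
    rw [← hc3N] at h1
    linarith
  · -- s10
    have h1 := n_s10 hm0 hm1 hv0
    rw [← hc3N, ← hc1N, ← hgN] at h1
    linarith
  · -- s11
    have h1 := n_s11 hm0 hm1 hv0
    rw [← hc3N, ← hc1N, ← hgN] at h1
    linarith
  · -- s12
    have h1 := n_f0 hm0 hm1 hv0
    have h2 := n_fR hm0 hm1 hv0
    have h3 := n_q2 hm0 hm1 hv0
    have h5 : (1 - 2 * gam * qN m v) ^ 2 * n0 ^ 2 + 4 * qN m v ^ 2 * N2 ≤
        rho - (1 - (31 / 100 + m / 2)) * N2 := by
      have h6 := mul_le_mul_of_nonneg_right hgq (sq_nonneg n0)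
      have h7 : 4 * qN m v ^ 2 * N2 ≤ (31 / 100 + m / 2) * N2 :=
        mul_le_mul_of_nonneg_right (by linarith) hN0
      have h8 : n0 ^ 2 = rho - N2 := by linarith
      linarith
    have h6 : i ^ 2 / w2N m v * ((1 - 2 * gam * qN m v) ^ 2 * n0 ^ 2 + 4 * qN m v ^ 2 * N2) ≤
        i ^ 2 / w2N m v * (rho - (1 - (31 / 100 + m / 2)) * N2) :=
      mul_le_mul_of_nonneg_left h5 (by positivity)
    refine h6.trans ?_
    rw [← hgN] at h1 h2
    have e2 : ∀ x : ℝ, x / ((1 + v) * w2N m v) = x * i * (w2N m v)⁻¹ := fun x => by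
      rw [hiv]
      field_simp
    rw [hdiv, hdiv, e2] at h1
    rw [hdiv, hdiv, e2, e2] at h2
    have hN : N2 ≤ rho := by
      have := sq_nonneg n0
      linarith
    have e3 : i ^ 2 / w2N m v * (rho - (1 - (31 / 100 + m / 2)) * N2) =
        gam * i * (w2N m v)⁻¹ - (1 - (31 / 100 + m / 2)) * i * (w2N m v)⁻¹ * (N2 * i) := by
      rw [hgam]
      ring
    have e4 : 4 * qN m v * N2 * i ^ 2 = 4 * qN m v * i * (N2 * i) := by ring
    have e5 : 4 * (L - 1) - 1 + 2 * i = 4 * v - 1 + 2 * i := by rw [hv]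
    rw [e3, e4, e5]
    -- `N2 i = t gam`
    have ht0 : 0 ≤ N2 * i := by positivity
    have ht1 : N2 * i ≤ gam := by
      rw [hgam]
      exact mul_le_mul_of_nonneg_right hN hi0.le
    obtain ⟨t, ht⟩ : ∃ t, t = N2 * i := ⟨_, rfl⟩
    rw [← ht] at ht0 ht1 ⊢
    -- linear in t
    obtain ⟨a, ha⟩ : ∃ a, a = 4 * v - 1 + 4 * i - 4 * qN m v * gam * i - xtN m v - t3N m v -
      2 * v * (1 + v - 2 * m) / (2 + v) - gam * i * (w2N m v)⁻¹ := ⟨_, rfl⟩
    obtain ⟨b, hb⟩ : ∃ b, b = 4 * qN m v * i - (1 - (31 / 100 + m / 2)) * i * (w2N m v)⁻¹ :=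
      ⟨_, rfl⟩
    rw [← ha] at h1
    have h2' : 0 ≤ a - b * gam := by
      rw [ha, hb]
      linarith
    have h9 : 0 ≤ a - b * t := by
      rcases le_total 0 b with hb0 | hb0
      · have := mul_le_mul_of_nonneg_left ht1 hb0
        linarith
      · have := mul_nonneg (neg_nonneg.2 hb0) ht0
        linarith
    rw [ha, hb] at h9
    linarith
  · -- s13
    intro om p
    have h1 := n_Cp hm0 hm1 hv0
    have h3 := n_disc hm0 hm1 hv0
    rw [← hgN, ← hc1N, ← hc3N, ← hL'] at h3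
    obtain ⟨Cp, hCp⟩ : ∃ Cp, Cp = c3 + (c1 - c3 + gam - qN m v * gam ^ 2 - m) / 3 + m -
      3 * qN m v * m ^ 2 - 2 * gam * qN m v * m := ⟨_, rfl⟩
    rw [← hCp] at h3
    have hao : 0 < 1 + 4 * qN m v - 3 * qN m v * L := by
      rw [hL', qN]
      have h4 : 0 < 3 * (2 - m + 2 * v) - 5 + 20 / (3 * (1 + v)) := by
        have h5 : 0 < 20 / (3 * (1 + v)) := by positivity
        have h6 : (20 / (3 * (1 + v))) * (3 * (1 + v)) = 20 := by field_simp
        by_contra hc
        push Not at hc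
        nlinarith
      have h7 : 1 + 4 * (5 / (9 * ((1 + v) * (2 - m + 2 * v)))) -
          3 * (5 / (9 * ((1 + v) * (2 - m + 2 * v)))) * (1 + v) =
          (3 * (2 - m + 2 * v) - 5 + 20 / (3 * (1 + v))) / (3 * (2 - m + 2 * v)) := by
        have := hgl0.ne'
        have h8 : 2 - m + v * 2 ≠ 0 := by rw [mul_comm v 2]; exact this
        field_simp
        ring
      rw [h7]
      positivity
    have h4 : i + 4 * qN m v * i - 3 * qN m v = i * (1 + 4 * qN m v - 3 * qN m v * L) := by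
      linear_combination (3 * qN m v) * hLi
    have h5 : i + 6 * qN m v * be - 2 * gam * qN m v - 4 * qN m v * be * i =
        i * (1 - 6 * qN m v * m * L - 2 * gam * qN m v * L + 4 * qN m v * m) := by
      rw [hm]
      linear_combination (6 * qN m v * m + 2 * gam * qN m v) * hLi
    have h7 : c3 + 0 / 4 + (c1 - c3 + gam - qN m v * gam ^ 2 - 0 - m) / 3 + 0 / 3 - be -
        3 * qN m v * be ^ 2 + 2 * gam * qN m v * be = Cp := by
      rw [hCp, hm]; ring
    rw [h4, h5, h7]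
    apply quad_nonneg (mul_pos hi0 hao)
    have h8 : (i * (1 - 6 * qN m v * m * L - 2 * gam * qN m v * L + 4 * qN m v * m)) ^ 2 =
        i ^ 2 * (1 - 6 * qN m v * m * L - 2 * gam * qN m v * L + 4 * qN m v * m) ^ 2 := by ring
    have h9 : 4 * (i * (1 + 4 * qN m v - 3 * qN m v * L)) * Cp =
        i ^ 2 * (4 * L * Cp * (1 + 4 * qN m v - 3 * qN m v * L)) := by
      linear_combination (-(4 * i * (1 + 4 * qN m v - 3 * qN m v * L) * Cp)) * hLi
    rw [h8, h9]
    apply mul_le_mul_of_nonneg_left _ (sq_nonneg i)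
    linarith

end Pool.Agent.Helper59.JH
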