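import Pool.Agent.Helper59.JH.Asm
import Pool.Agent.Helper59.JH.ScN

/-! # JH: positivity of the quadratic form (`card ι = 3`) -/

set_option autoImplicit false
set_option linter.unusedSectionVars false
set_option linter.unusedVariables false

namespace Pool.Agent.Helper59.JH

open Pool.Agent.Helper77.JH

variable {H : Type*} [NormedAddCommGroup H] [InnerProductSpace ℝ H] [FiniteDimensional ℝ H]
variable {ι : Type*} [Fintype ι] [DecidableEq ι] {d : Dat H ι}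
variable {P0 : H} {s n0 : ℝ} {n : ι → ℝ}

/-- the facts about the region -/
theorem region {lam s n0 N2 A rho be Th : ℝ} (hlam : 1 < lam) (hs : 0 ≤ s) (hN : 0 ≤ N2)
    (hTh : 0 ≤ Th) (hA : A = s * n0) (hrho : rho = n0 ^ 2 + N2)
    (hbe : be = (rho - lam ^ 2) / 2) (ball : (n0 - (lam - 1) * s) ^ 2 + N2 ≤ lam ^ 2)
    (nrm : lam ^ 2 * Th + (lam ^ 2 - 1) * s ^ 2 = 2 * (A + be)) :
    be ≤ (lam - 1) * A ∧ -be ≤ A ∧ lam ^ 2 * Th ≤ 2 * (A + be) ∧ 0 ≤ A ∧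
      Real.sqrt rho * Th ≤ 2 * A ∧ -(1 / 2) ≤ be := by
  have hl : 0 < lam - 1 := by linarith
  have hl0 : 0 < lam := by linarith
  have h1 : 2 * be ≤ 2 * ((lam - 1) * A) - (lam - 1) ^ 2 * s ^ 2 := by
    rw [hbe, hrho, hA]
    nlinarith
  have hs2 : 0 ≤ s ^ 2 := sq_nonneg s
  have h2 : be ≤ (lam - 1) * A := by
    have := mul_nonneg (sq_nonneg (lam - 1)) hs2
    linarith
  have h3 : lam * (lam * Th) ≤ lam * (2 * (A - (lam - 1) * s ^ 2)) := by
    nlinarith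
  have h4 : lam * Th ≤ 2 * (A - (lam - 1) * s ^ 2) := le_of_mul_le_mul_left h3 hl0
  have h5 : 0 ≤ A - (lam - 1) * s ^ 2 := by
    have := mul_nonneg hl0.le hTh
    linarith
  have h6 : 0 ≤ A := by
    have := mul_nonneg hl.le hs2
    linarith
  have h7 : 0 ≤ lam ^ 2 * Th := by positivity
  have h8 : 0 ≤ (lam ^ 2 - 1) * s ^ 2 := mul_nonneg (by nlinarith) hs2
  have h9 : 0 ≤ n0 - (lam - 1) * s ∨ s = 0 := by
    rcases eq_or_lt_of_le hs with h0 | h0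
    · right; exact h0.symm
    · left
      have h10 : A - (lam - 1) * s ^ 2 = s * (n0 - (lam - 1) * s) := by rw [hA]; ring
      rw [h10] at h5
      exact nonneg_of_mul_nonneg_right h5 h0
  have hn0 : n0 - (lam - 1) * s ≤ lam := by
    have := abs_le_of_sq_le_sq' (show (n0 - (lam - 1) * s) ^ 2 ≤ lam ^ 2 by linarith) hl0.le
    exact this.2
  refine ⟨h2, by linarith, by linarith, h6, ?_, ?_⟩
  · -- `√ρ Θ ≤ 2 A`
    have hm0 : 0 ≤ Real.sqrt rho := Real.sqrt_nonneg _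
    have hr0 : 0 ≤ rho := by rw [hrho]; positivity
    have hm2 : Real.sqrt rho ^ 2 = rho := Real.sq_sqrt hr0
    set m := Real.sqrt rho with hm
    have hn : n0 ≤ m := by
      apply Real.le_sqrt_of_sq_le
      rw [hrho]; linarith
    have h11 : m ≤ lam + (lam - 1) * s := by
      have h12 : (m - (lam - 1) * s) ^ 2 ≤ lam ^ 2 := by
        have h13 : 0 ≤ 2 * ((lam - 1) * s) * (m - n0) := by
          apply mul_nonneg _ (by linarith)
          positivity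
        nlinarith
      have h14 := abs_le_of_sq_le_sq' h12 hl0.le
      linarith [h14.2]
    have h15 : A - (lam - 1) * s ^ 2 ≤ lam * s := by
      have h16 : A - (lam - 1) * s ^ 2 = s * (n0 - (lam - 1) * s) := by rw [hA]; ring
      rw [h16]
      nlinarith
    have h17 : lam * (m * Th) ≤ m * (2 * (A - (lam - 1) * s ^ 2)) := by
      have := mul_le_mul_of_nonneg_left h4 hm0
      linarith
    have h18 : m * (A - (lam - 1) * s ^ 2) ≤ (lam + (lam - 1) * s) * (A - (lam - 1) * s ^ 2) :=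
      mul_le_mul_of_nonneg_right h11 h5
    have h19 : (lam - 1) * s * (A - (lam - 1) * s ^ 2) ≤ (lam - 1) * s * (lam * s) :=
      mul_le_mul_of_nonneg_left h15 (by positivity)
    have h20 : lam * (m * Th) ≤ lam * (2 * A) := by nlinarith
    exact le_of_mul_le_mul_left h20 hl0
  · -- `β ≥ - 1/2`
    obtain ⟨e, he⟩ : ∃ e, e = 1 - ((n0 - (lam - 1) * s) ^ 2 + N2) / lam ^ 2 := ⟨_, rfl⟩
    obtain ⟨D, hD⟩ : ∃ D, D = s * (n0 - (lam - 1) * s) / lam := ⟨_, rfl⟩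
    have e1 : lam ^ 2 * (1 - e) = (n0 - (lam - 1) * s) ^ 2 + N2 := by
      rw [he]
      field_simp
      ring
    have e2 : lam * D = s * (n0 - (lam - 1) * s) := by
      rw [hD]
      field_simp
    have hL0 : 0 < lam ^ 2 := by positivity
    have he0 : 0 ≤ e := by
      have : lam ^ 2 * (1 - e) ≤ lam ^ 2 * 1 := by rw [e1]; linarith
      have := le_of_mul_le_mul_left this hL0
      linarith
    have hDD : lam ^ 2 * D ^ 2 ≤ lam ^ 2 * (s ^ 2 * (1 - e)) := by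
      have e3 : lam ^ 2 * D ^ 2 = s ^ 2 * (n0 - (lam - 1) * s) ^ 2 := by
        rw [← mul_pow, e2, mul_pow]
      have e4 : lam ^ 2 * (s ^ 2 * (1 - e)) = s ^ 2 * ((n0 - (lam - 1) * s) ^ 2 + N2) := by
        rw [← e1]; ring
      rw [e3, e4]
      exact mul_le_mul_of_nonneg_left (by linarith) hs2
    have hDD' := le_of_mul_le_mul_left hDD hL0
    have e5 : lam ^ 2 * (2 * D - e) = lam ^ 2 * Th := by
      have e6 : lam ^ 2 * (2 * D - e) = 2 * lam * (lam * D) - lam ^ 2 + lam ^ 2 * (1 - e) := by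
        ring
      have e7 : lam ^ 2 * Th = 2 * (A + be) - (lam ^ 2 - 1) * s ^ 2 := by linarith
      rw [e6, e7, e1, e2, hbe, hrho, hA]
      ring
    have e8 : 2 * D - e = Th := mul_left_cancel₀ hL0.ne' e5
    have e9 : 2 * be = 2 * lam * (lam - 1) * D + (lam - 1) ^ 2 * s ^ 2 - lam ^ 2 * e := by
      have e10 : lam ^ 2 * e = lam ^ 2 - ((n0 - (lam - 1) * s) ^ 2 + N2) := by
        rw [← e1]; ring
      have e11 : 2 * lam * (lam - 1) * D = 2 * (lam - 1) * (lam * D) := by ring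
      rw [e10, e11, e2, hbe, hrho]
      ring
    have hX : 0 < 1 - e := by
      rcases lt_or_ge 0 (1 - e) with h0 | h0
      · exact h0
      · exfalso
        have h10 : D ^ 2 ≤ 0 := hDD'.trans (mul_nonpos_of_nonneg_of_nonpos hs2 h0)
        have h11 : D = 0 := by
          have := sq_nonneg D
          exact pow_eq_zero_iff (two_ne_zero) |>.1 (le_antisymm h10 this)
        rw [h11] at e8
        linarith
    have hDe : 0 ≤ D - e / 2 := by linarith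
    have hfin : 0 ≤ (1 - e) * (2 * be + 1) := by
      have h12 : (1 - e) * (2 * be + 1) = (1 - (1 + lam) * e / 2) ^ 2 +
          (1 - e) * (2 * lam * (lam - 1) * (D - e / 2)) +
          (lam - 1) ^ 2 * (s ^ 2 * (1 - e) - D ^ 2) +
          (lam - 1) ^ 2 * ((D - e / 2) * (D + e / 2)) := by
        rw [e9]; ring
      rw [h12]
      have t1 : 0 ≤ (1 - (1 + lam) * e / 2) ^ 2 := sq_nonneg _
      have t2 : 0 ≤ (1 - e) * (2 * lam * (lam - 1) * (D - e / 2)) := by positivity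
      have t3 : 0 ≤ (lam - 1) ^ 2 * (s ^ 2 * (1 - e) - D ^ 2) :=
        mul_nonneg (sq_nonneg _) (by linarith)
      have t4 : 0 ≤ (lam - 1) ^ 2 * ((D - e / 2) * (D + e / 2)) :=
        mul_nonneg (sq_nonneg _) (mul_nonneg hDe (by linarith))
      linarith
    have := nonneg_of_mul_nonneg_right hfin hX
    linarith

theorem lower4 (h : Rul d) (N : Nf d P0 s n0 n) (hlam : 1 < d.lam) (h3 : Fintype.card ι = 3) :
    d.A / 100 * LinearMap.trace ℝ H (d.T ∘ₗ d.T) ≤ d.Qf 4 ∧ 0 ≤ d.A ∧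
      -(1 / 2) ≤ (d.ρ - d.lam ^ 2) / 2 := by
  have hN2 : 0 ≤ ∑ j, n j ^ 2 := Finset.sum_nonneg fun j _ => sq_nonneg _
  have hTh : 0 ≤ ‖P0‖ ^ 2 := sq_nonneg _
  obtain ⟨r1, r2, r3, r4, r5, r6⟩ := region hlam N.s0 hN2 hTh N.A N.ρ rfl N.ball N.nrm
  refine ⟨?_, r4, r6⟩
  have hl0 : 0 < d.lam := by linarith
  have hL0 : 0 < d.lam ^ 2 := by positivity
  rcases le_total 0 ((d.ρ - d.lam ^ 2) / 2) with hb | hb
  · have hrho : d.lam ^ 2 ≤ d.ρ := by linarith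
    have hr0 : 0 ≤ d.ρ := by linarith
    have hh2 : d.ρ = d.lam ^ 2 * (Real.sqrt d.ρ / d.lam) ^ 2 := by
      rw [div_pow, Real.sq_sqrt hr0]
      field_simp
    have hh : 1 ≤ Real.sqrt d.ρ / d.lam := by
      rw [one_le_div hl0]
      exact Real.le_sqrt_of_sq_le hrho
    have hball : ∑ j, n j ^ 2 ≤ d.lam ^ 2 := by
      have h6 := N.ball
      have := sq_nonneg (n0 - (d.lam - 1) * s)
      linarith
    have H1 : d.lam * (Real.sqrt d.ρ / d.lam) * ‖P0‖ ^ 2 ≤ 2 * d.A := by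
      rw [mul_div_cancel₀ _ hl0.ne']
      exact r5
    obtain ⟨q, G, w1, w1', w2, w3, w3', cp, t3, xt, ec, sub, e3, ks, bm, bp, S⟩ :=
      scaP hlam hh rfl rfl hh2 rfl rfl rfl rfl rfl r4 hTh hN2 hball N.ρ.symm H1 r1
    exact asm h N h3 rfl rfl rfl rfl rfl rfl rfl S
  · have hL1 : 1 < d.lam ^ 2 := by nlinarith
    obtain ⟨q, G, w1, w1', w2, w3, w3', cp, t3, xt, ec, sub, e3, ks, bm, bp, S⟩ :=
      scaN (m := -((d.ρ - d.lam ^ 2) / 2)) hL1 rfl rfl (by ring) (by linarith) (by linarith)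
        rfl rfl rfl rfl r2 hTh hN2 N.ρ.symm (by linarith)
    exact asm h N h3 rfl rfl rfl rfl rfl rfl rfl S

theorem Qf_mono (h : Rul d) (N : Nf d P0 s n0 n) (hlam : 1 < d.lam) (h3 : Fintype.card ι = 3)
    (hA : 0 ≤ d.A) (hbe : -(1 / 2) ≤ (d.ρ - d.lam ^ 2) / 2) {M : ℝ} (hM : 4 ≤ M) :
    d.Qf 4 ≤ d.Qf M := by
  have hQ := Qf_eq h N h3 M _ _ _ _ _ rfl rfl rfl rfl rfl
  have hQ4 := Qf_eq h N h3 4 _ _ _ _ _ rfl rfl rfl rfl rfl
  have hL1 : 1 < d.lam ^ 2 := by nlinarith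
  have hi0 : 0 < (d.lam ^ 2)⁻¹ := by positivity
  have hi1 : (d.lam ^ 2)⁻¹ ≤ 1 := inv_le_one_of_one_le₀ hL1.le
  have hc3 : 0 ≤ 1 + (1 - (d.lam ^ 2)⁻¹) * ((d.ρ - d.lam ^ 2) / 2) := by nlinarith
  have ht : 0 ≤ LinearMap.trace ℝ H (d.T ∘ₗ d.T) := by
    rw [tr_sq_onb h.symT]
    exact Finset.sum_nonneg fun _ _ => sq_nonneg _
  have hb2 : 0 ≤ b2 d P0 s := Finset.sum_nonneg fun _ _ => sq_nonneg _
  have hdiff : d.Qf M - d.Qf 4 = (M - 4) * (d.lam ^ 2 *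
      (1 + (1 - (d.lam ^ 2)⁻¹) * ((d.ρ - d.lam ^ 2) / 2)) * (‖d.T P0‖ ^ 2 + b2 d P0 s) +
      (d.lam ^ 2 - 1) * ‖XN d P0 s n0 n‖ ^ 2 + d.lam ^ 2 *
      (1 + (1 - (d.lam ^ 2)⁻¹) * ((d.ρ - d.lam ^ 2) / 2)) * (d.A *
      LinearMap.trace ℝ H (d.T ∘ₗ d.T))) := by
    rw [hQ, hQ4]
    ring
  have h1 : 0 ≤ d.lam ^ 2 * (1 + (1 - (d.lam ^ 2)⁻¹) * ((d.ρ - d.lam ^ 2) / 2)) :=
    mul_nonneg (by positivity) hc3
  have h2 : 0 ≤ (d.lam ^ 2 - 1) * ‖XN d P0 s n0 n‖ ^ 2 :=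
    mul_nonneg (by linarith) (sq_nonneg _)
  have h4 : 0 ≤ d.Qf M - d.Qf 4 := by
    rw [hdiff]
    apply mul_nonneg (by linarith)
    have h5 : 0 ≤ ‖d.T P0‖ ^ 2 + b2 d P0 s := add_nonneg (sq_nonneg _) hb2
    have h6 := mul_nonneg h1 h5
    have h7 := mul_nonneg h1 (mul_nonneg hA ht)
    linarith
  linarith

/-- **positivity** for `card ι = 3`, `M ≥ 4` -/
theorem pos3 (h : Rul d) (N : Nf d P0 s n0 n) (hlam : 1 < d.lam) (h3 : Fintype.card ι = 3)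
    {M : ℝ} (hM : 4 ≤ M) : 0 ≤ d.Qf M ∧ (0 < d.A → d.Qf M = 0 → d.T = 0) := by
  obtain ⟨l1, l2, l3⟩ := lower4 h N hlam h3
  have l4 := Qf_mono h N hlam h3 l2 l3 hM
  have ht : 0 ≤ LinearMap.trace ℝ H (d.T ∘ₗ d.T) := by
    rw [tr_sq_onb h.symT]
    exact Finset.sum_nonneg fun _ _ => sq_nonneg _
  have h0 : 0 ≤ d.A / 100 * LinearMap.trace ℝ H (d.T ∘ₗ d.T) := by positivity
  refine ⟨by linarith, fun hA hQ => ?_⟩
  have h1 : d.A / 100 * LinearMap.trace ℝ H (d.T ∘ₗ d.T) ≤ 0 := by linarith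
  have h2 : LinearMap.trace ℝ H (d.T ∘ₗ d.T) ≤ 0 := by
    by_contra hc
    push Not at hc
    have : 0 < d.A / 100 * LinearMap.trace ℝ H (d.T ∘ₗ d.T) := by positivity
    linarith
  rw [tr_sq_onb h.symT] at h2
  have h5 : ∑ i, ‖d.T (stdOrthonormalBasis ℝ H i)‖ ^ 2 = 0 :=
    le_antisymm h2 (Finset.sum_nonneg fun _ _ => sq_nonneg _)
  rw [Finset.sum_eq_zero_iff_of_nonneg (fun _ _ => sq_nonneg _)] at h5
  apply (stdOrthonormalBasis ℝ H).toBasis.ext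
  intro i
  have h6 := h5 i (Finset.mem_univ i)
  have h7 : ‖d.T (stdOrthonormalBasis ℝ H i)‖ = 0 := pow_eq_zero_iff (two_ne_zero) |>.1 h6
  rw [OrthonormalBasis.coe_toBasis, norm_eq_zero.1 h7, LinearMap.zero_apply]

end Pool.Agent.Helper59.JH
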