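import Pool.Agent.Helper59.JH.Tr

/-! # JH: `tr T² - ∑ tr (φ_i T φ_i T) ≥ |Φ|² + τ²` -/

set_option autoImplicit false
set_option linter.unusedSectionVars false
set_option linter.unusedVariables false

namespace Pool.Agent.Helper59.JH

open Pool.Agent.Helper77.JH

variable {H : Type*} [NormedAddCommGroup H] [InnerProductSpace ℝ H] [FiniteDimensional ℝ H]
variable {ι : Type*} [Fintype ι] [DecidableEq ι] {d : Dat H ι}

/-- `Φ = ∑ φ_i T ξ_i` -/
noncomputable def Ph (d : Dat H ι) : H := ∑ i, d.φ i (d.T (d.ξ i))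

/-- `C = T - ∑ φ_i T φ_i` -/
noncomputable def Cm (d : Dat H ι) : H →ₗ[ℝ] H := d.T - ∑ i, d.φ i ∘ₗ d.T ∘ₗ d.φ i

theorem Cm_apply (v : H) : Cm d v = d.T v - ∑ i, d.φ i (d.T (d.φ i v)) := by
  simp [Cm, LinearMap.sum_apply]

theorem F5_eq : d.F5.1 = Ph d := by
  simp only [Dat.F5, Ph, Prod.fst_sum]
  rfl

theorem sum_ite_neg (h : Rul d) (j : ι) (f : ι → H) :
    (∑ i, if i = j then -f i else 0) = - f j := by
  simp

/-- reindexing -/
theorem cyc (h : Rul d) (j : ι) (f : ι → ι → H) :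
    ∑ i, ∑ k, d.c i j k • f i k = ∑ i, ∑ k, d.c j i k • f k i := by
  rw [Finset.sum_comm]
  refine Finset.sum_congr rfl fun i _ => Finset.sum_congr rfl fun k _ => ?_
  have h1 : d.c k j i = d.c j i k := by rw [h.as1 k j i, h.as2 j k i, neg_neg]
  rw [h1]

theorem Cm_symm (h : Rul d) (u v : H) : inner ℝ (Cm d u) v = inner ℝ u (Cm d v) := by
  rw [Cm_apply, Cm_apply, inner_sub_left, inner_sub_right, sum_inner, inner_sum, h.symT]
  congr 1
  refine Finset.sum_congr rfl fun i _ => ?_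
  rw [h.skew, h.symT, skew' h]

theorem tau_eq (h : Rul d) : d.tau = ∑ i, inner ℝ (d.ξ i) (d.T (d.ξ i)) := by
  unfold Dat.tau
  exact Finset.sum_congr rfl fun i _ => real_inner_comm _ _

/-- `C φ_j = φ_j C - Φ-terms` -/
theorem Cm_phi (h : Rul d) (j : ι) (v : H) :
    Cm d (d.φ j v) = d.φ j (Cm d v) - inner ℝ (Ph d) v • d.ξ j - inner ℝ (d.ξ j) v • Ph d := by
  have e1 : ∑ i, d.φ i (d.T (d.φ i (d.φ j v))) = - d.φ j (d.T v) +
      ∑ i, ∑ k, d.c i j k • d.φ i (d.T (d.φ k v)) + inner ℝ (d.ξ j) v • Ph d := by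
    have e0 : ∀ i, d.φ i (d.T (d.φ i (d.φ j v))) = (if i = j then -d.φ i (d.T v) else 0) +
        ∑ k, d.c i j k • d.φ i (d.T (d.φ k v)) + inner ℝ (d.ξ j) v • d.φ i (d.T (d.ξ i)) := by
      intro i
      rw [h.pp]
      simp only [map_add, map_sum, map_smul]
      congr 2
      split_ifs <;> simp
    rw [Finset.sum_congr rfl fun i _ => e0 i, Finset.sum_add_distrib, Finset.sum_add_distrib,
      sum_ite_neg h j (fun i => d.φ i (d.T v)), ← Finset.smul_sum]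
    rfl
  have e2 : ∑ i, d.φ j (d.φ i (d.T (d.φ i v))) = - d.T (d.φ j v) +
      ∑ i, ∑ k, d.c j i k • d.φ k (d.T (d.φ i v)) - inner ℝ (Ph d) v • d.ξ j := by
    have e0 : ∀ i, d.φ j (d.φ i (d.T (d.φ i v))) = (if i = j then -d.T (d.φ i v) else 0) +
        ∑ k, d.c j i k • d.φ k (d.T (d.φ i v)) + inner ℝ (d.ξ i) (d.T (d.φ i v)) • d.ξ j := by
      intro i
      rw [h.pp]
      congr 2
      by_cases hij : j = i
      · subst hij
        simp
      · rw [if_neg hij, if_neg (Ne.symm hij)]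
    have e3 : ∑ i, inner ℝ (d.ξ i) (d.T (d.φ i v)) = - inner ℝ (Ph d) v := by
      rw [Ph, sum_inner, ← Finset.sum_neg_distrib]
      refine Finset.sum_congr rfl fun i _ => ?_
      rw [← h.symT, h.skew, neg_neg]
    rw [Finset.sum_congr rfl fun i _ => e0 i, Finset.sum_add_distrib, Finset.sum_add_distrib,
      sum_ite_neg h j (fun i => d.T (d.φ i v)), ← Finset.sum_smul, e3, neg_smul, sub_eq_add_neg]
  rw [Cm_apply, Cm_apply, map_sub, map_sum, e1, e2, cyc h j (fun i k => d.φ i (d.T (d.φ k v)))]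
  abel

/-- `C ξ_j = τ ξ_j - φ_j Φ` -/
theorem Cm_xi (h : Rul d) (j : ι) : Cm d (d.ξ j) = d.tau • d.ξ j - d.φ j (Ph d) := by
  have e2 : d.φ j (Ph d) = - d.T (d.ξ j) +
      ∑ i, ∑ k, d.c j i k • d.φ k (d.T (d.ξ i)) + d.tau • d.ξ j := by
    have e0 : ∀ i, d.φ j (d.φ i (d.T (d.ξ i))) = (if i = j then -d.T (d.ξ i) else 0) +
        ∑ k, d.c j i k • d.φ k (d.T (d.ξ i)) + inner ℝ (d.ξ i) (d.T (d.ξ i)) • d.ξ j := by
      intro i
      rw [h.pp]
      congr 2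
      by_cases hij : j = i
      · subst hij
        simp
      · rw [if_neg hij, if_neg (Ne.symm hij)]
    rw [Ph, map_sum, Finset.sum_congr rfl fun i _ => e0 i, Finset.sum_add_distrib,
      Finset.sum_add_distrib, sum_ite_neg h j (fun i => d.T (d.ξ i)), ← Finset.sum_smul,
      ← tau_eq h]
  have e1 : ∑ i, d.φ i (d.T (d.φ i (d.ξ j))) = ∑ i, ∑ k, d.c i j k • d.φ i (d.T (d.ξ k)) := by
    refine Finset.sum_congr rfl fun i _ => ?_
    rw [h.phx]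
    simp only [map_sum, map_smul]
  rw [Cm_apply, e1, e2, cyc h j (fun i k => d.φ i (d.T (d.ξ k)))]
  abel

/-- `φ_i φ_i w` -/
theorem phi2 (h : Rul d) (i : ι) (w : H) : d.φ i (d.φ i w) = -w + inner ℝ (d.ξ i) w • d.ξ i := by
  rw [h.pp, if_pos rfl, Finset.sum_eq_zero (fun k _ => by rw [(h.c0 i k).1, zero_smul]), add_zero]

theorem tr_TC (h : Rul d) : LinearMap.trace ℝ H (d.T ∘ₗ Cm d) =
    LinearMap.trace ℝ H (d.T ∘ₗ d.T) -
      ∑ i, LinearMap.trace ℝ H (d.φ i ∘ₗ d.T ∘ₗ d.φ i ∘ₗ d.T) := by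
  have e1 : d.T ∘ₗ Cm d = d.T ∘ₗ d.T - ∑ i, d.T ∘ₗ (d.φ i ∘ₗ d.T ∘ₗ d.φ i) := by
    refine LinearMap.ext fun v => ?_
    simp only [LinearMap.comp_apply, Cm_apply, LinearMap.sub_apply, LinearMap.sum_apply, map_sub,
      map_sum]
  rw [e1, map_sub, map_sum]
  congr 1
  refine Finset.sum_congr rfl fun i _ => ?_
  rw [LinearMap.trace_comp_comm']
  rfl

theorem Ph_inner (h : Rul d) (u : H) :
    ∑ i, inner ℝ (d.φ i u) (d.T (d.ξ i)) = - inner ℝ u (Ph d) := by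
  rw [Ph, inner_sum, ← Finset.sum_neg_distrib]
  exact Finset.sum_congr rfl fun i _ => h.skew i _ _

theorem tr_CC (h : Rul d) (h3 : Fintype.card ι = 3) : LinearMap.trace ℝ H (Cm d ∘ₗ Cm d) =
    4 * LinearMap.trace ℝ H (d.T ∘ₗ Cm d) - 2 * ‖Ph d‖ ^ 2 - d.tau ^ 2 := by
  have e1 : Cm d ∘ₗ Cm d = d.T ∘ₗ Cm d - ∑ i, d.φ i ∘ₗ (d.T ∘ₗ d.φ i ∘ₗ Cm d) := by
    refine LinearMap.ext fun v => ?_
    rw [LinearMap.comp_apply, Cm_apply (Cm d v)]
    simp only [LinearMap.comp_apply, LinearMap.sub_apply, LinearMap.sum_apply]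
  have e2 : ∀ i, (d.T ∘ₗ d.φ i ∘ₗ Cm d) ∘ₗ d.φ i = -(d.T ∘ₗ Cm d) +
      (innerₛₗ ℝ (Cm d (d.ξ i))).smulRight (d.T (d.ξ i)) -
      (innerₛₗ ℝ (d.ξ i)).smulRight (d.T (d.φ i (Ph d))) := by
    intro i
    refine LinearMap.ext fun v => ?_
    simp only [LinearMap.comp_apply, LinearMap.sub_apply, LinearMap.add_apply,
      LinearMap.neg_apply, LinearMap.smulRight_apply, innerₛₗ_apply_apply]
    rw [Cm_phi h]
    simp only [map_sub, map_smul]
    rw [phx0 h, phi2 h, map_add, map_neg, map_smul, map_zero, smul_zero, sub_zero, ← Cm_symm h]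
  have e3 : ∀ i, LinearMap.trace ℝ H (d.φ i ∘ₗ (d.T ∘ₗ d.φ i ∘ₗ Cm d)) =
      -LinearMap.trace ℝ H (d.T ∘ₗ Cm d) + inner ℝ (Cm d (d.ξ i)) (d.T (d.ξ i)) -
        inner ℝ (d.φ i (Ph d)) (d.T (d.ξ i)) := by
    intro i
    rw [LinearMap.trace_comp_comm', e2, map_sub, map_add, map_neg, tr_rank, tr_rank,
      ← h.symT (d.ξ i) (d.φ i (Ph d)), real_inner_comm (d.φ i (Ph d)) (d.T (d.ξ i))]
  have e4 : ∀ i, inner ℝ (Cm d (d.ξ i)) (d.T (d.ξ i)) = d.tau * inner ℝ (d.ξ i) (d.T (d.ξ i)) -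
      inner ℝ (d.φ i (Ph d)) (d.T (d.ξ i)) := by
    intro i
    rw [Cm_xi h, inner_sub_left, real_inner_smul_left]
  rw [e1, map_sub, map_sum, Finset.sum_congr rfl fun i _ => e3 i, Finset.sum_sub_distrib,
    Finset.sum_add_distrib, Finset.sum_congr rfl fun i _ => e4 i, Finset.sum_sub_distrib,
    ← Finset.mul_sum, ← tau_eq h, Ph_inner h, Finset.sum_const, Finset.card_univ, h3,
    real_inner_self_eq_norm_sq]
  simp only [nsmul_eq_mul]
  push_cast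
  ring

theorem sum_xi_sq (h : Rul d) (w : H) : ∑ i, inner ℝ (d.ξ i) w ^ 2 ≤ ‖w‖ ^ 2 := by
  have hon : Orthonormal ℝ d.ξ := by
    rw [orthonormal_iff_ite]
    exact h.on
  have hb := hon.sum_inner_products_le (x := w) (s := Finset.univ)
  simpa only [Real.norm_eq_abs, sq_abs] using hb

/-- **Lemma K** -/
theorem lemK (h : Rul d) (h3 : Fintype.card ι = 3) :
    ‖Ph d‖ ^ 2 + d.tau ^ 2 ≤ LinearMap.trace ℝ H (d.T ∘ₗ d.T) -
      ∑ i, LinearMap.trace ℝ H (d.φ i ∘ₗ d.T ∘ₗ d.φ i ∘ₗ d.T) := by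
  have h1 := tr_CC h h3
  rw [tr_TC h] at h1
  have h2 := tr_xi h (Cm_symm h)
  have h4 : ∀ i, ‖Cm d (d.ξ i)‖ ^ 2 = d.tau ^ 2 + ‖Ph d‖ ^ 2 - inner ℝ (d.ξ i) (Ph d) ^ 2 := by
    intro i
    have h5 : inner ℝ (d.ξ i) (d.φ i (Ph d)) = 0 := by
      rw [skew' h, phx0 h, inner_zero_left, neg_zero]
    have h6 : ‖d.ξ i‖ ^ 2 = 1 := by
      rw [← real_inner_self_eq_norm_sq, h.on, if_pos rfl]
    rw [Cm_xi h, @norm_sub_sq_real, real_inner_smul_left, h5, phi_sq h, norm_smul, mul_pow,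
      Real.norm_eq_abs, sq_abs, h6]
    ring
  rw [Finset.sum_congr rfl fun i _ => h4 i, Finset.sum_sub_distrib, Finset.sum_const,
    Finset.card_univ, h3] at h2
  have h7 := sum_xi_sq h (Ph d)
  simp only [nsmul_eq_mul] at h2
  push_cast at h2
  linarith

end Pool.Agent.Helper59.JH
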