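import Mathlib

/-! # JH: scalar inequalities, first case -/

set_option autoImplicit false
set_option linter.unusedVariables false

namespace Pool.Agent.Helper59.JH

noncomputable def EtP (r v : ℝ) : ℝ :=
  199 / 100 + v + 3 / 5 * (2 * r + r ^ 2) + 1 / 2 * (2 * r + r ^ 2) * v ^ 2

noncomputable def qP (r v : ℝ) : ℝ := 10 / (9 * ((1 + v) * (1 + r) * (3 + (1 + r) ^ 2)))

noncomputable def GP (r v : ℝ) : ℝ := 9 / 40 * ((1 + v) * (1 + r) * (3 + (1 + r) ^ 2))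

noncomputable def w2P (r v : ℝ) : ℝ :=
  11 / 10 + 4 * v + 9 / 40 * ((1 + r) * (3 + (1 + r) ^ 2))

noncomputable def cpP (r v : ℝ) : ℝ :=
  9 / 64 * ((1 + v) * (2 + v) * (2 * r + r ^ 2) ^ 2) / ((1 + r) * EtP r v)

noncomputable def t3P (r v : ℝ) : ℝ := 9 / 20 * ((2 + v) * (1 + r)) / EtP r v

noncomputable def xtP (r v : ℝ) : ℝ :=
  (2 * r + r ^ 2) * v * (3 * v - 1) ^ 2 / (16 * (1 + v) * EtP r v)

noncomputable def kP (r v : ℝ) : ℝ := 2 + 4 * v + (2 * r + r ^ 2) / 2 +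
  3 / 2 * (2 * r + r ^ 2) * v + 2 * (2 * r + r ^ 2) * v ^ 2

theorem EtP_pos {r v : ℝ} (hr : 0 ≤ r) (hv : 0 ≤ v) : 0 < EtP r v := by
  unfold EtP
  positivity

theorem w2P_pos {r v : ℝ} (hr : 0 ≤ r) (hv : 0 ≤ v) : 0 < w2P r v := by
  unfold w2P
  positivity

theorem p_s9 {r v : ℝ} (hr : 0 ≤ r) (hv : 0 ≤ v) :
    0 ≤ 1 + (2 * r + r ^ 2) * v / 2 + (2 * r + r ^ 2) / 8 - 1 / 2 - v * (1 + r) ^ 2 / (4 * (1 + v)) - cpP r v := by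
  have e : 1 + (2 * r + r ^ 2) * v / 2 + (2 * r + r ^ 2) / 8 - 1 / 2 - v * (1 + r) ^ 2 / (4 * (1 + v)) - cpP r v =
      (1592 + 1596 * v + 400 * v ^ 2 + 3348 * r + 4864 * r * v + 5584 * r * v ^ 2 + 2000 * r * v ^ 3 +
      1314 * r ^ 2 + 1842 * r ^ 2 * v + 6496 * r ^ 2 * v ^ 2 + 3300 * r ^ 2 * v ^ 3 +
      1600 * r ^ 2 * v ^ 4 + 38 * r ^ 3 + 14 * r ^ 3 * v + 3632 * r ^ 3 * v ^ 2 +
      2500 * r ^ 3 * v ^ 3 + 3200 * r ^ 3 * v ^ 4 + 150 * r ^ 4 + 675 * r ^ 4 * v +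
      2000 * r ^ 4 * v ^ 2 + 1275 * r ^ 4 * v ^ 3 + 2000 * r ^ 4 * v ^ 4 + 120 * r ^ 5 +
      360 * r ^ 5 * v + 580 * r ^ 5 * v ^ 2 + 300 * r ^ 5 * v ^ 3 + 400 * r ^ 5 * v ^ 4) /
      (16 * (1 + 1 * v) * (199 + 100 * v + 319 * r + 100 * r * v + 100 * r * v ^ 2 + 180 * r ^ 2 + 150 * r ^ 2 * v ^ 2 +
      60 * r ^ 3 + 50 * r ^ 3 * v ^ 2)) := by
    unfold cpP EtP
    field_simp
    ring
  rw [e]
  positivity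

theorem p_s10 {r v : ℝ} (hr : 0 ≤ r) (hv : 0 ≤ v) :
    0 ≤ kP r v + GP r v + 1 - qP r v * (3 + 2 * (1 + r) ^ 2) - (2 * r + r ^ 2) / 2 - 1 / 2 - w2P r v := by
  have e : kP r v + GP r v + 1 - qP r v * (3 + 2 * (1 + r) ^ 2) - (2 * r + r ^ 2) / 2 - 1 / 2 - w2P r v =
      (16 + 3312 * v + 1296 * v ^ 2 + 1424 * r + 11232 * r * v + 13968 * r * v ^ 2 +
      5760 * r * v ^ 3 + 712 * r ^ 2 + 15012 * r ^ 2 * v + 25020 * r ^ 2 * v ^ 2 +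
      11520 * r ^ 2 * v ^ 3 + 504 * r ^ 3 + 10548 * r ^ 3 * v + 18684 * r ^ 3 * v ^ 2 +
      8640 * r ^ 3 * v ^ 3 + 4401 * r ^ 4 * v + 8001 * r ^ 4 * v ^ 2 + 3600 * r ^ 4 * v ^ 3 +
      1026 * r ^ 5 * v + 1746 * r ^ 5 * v ^ 2 + 720 * r ^ 5 * v ^ 3 + 81 * r ^ 6 * v +
      81 * r ^ 6 * v ^ 2) /
      (360 * (4 + 4 * v + 6 * r + 6 * r * v + 3 * r ^ 2 + 3 * r ^ 2 * v + 1 * r ^ 3 + 1 * r ^ 3 * v)) := by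
    unfold kP GP qP w2P
    field_simp
    ring
  rw [e]
  positivity

theorem p_s11 {r v : ℝ} (hr : 0 ≤ r) (hv : 0 ≤ v) :
    0 ≤ kP r v + (1 + r) ^ 2 - qP r v * ((1 + r) ^ 2) ^ 2 - (2 * r + r ^ 2) / 2 := by
  have e : kP r v + (1 + r) ^ 2 - qP r v * ((1 + r) ^ 2) ^ 2 - (2 * r + r ^ 2) / 2 =
      (196 + 504 * v + 288 * v ^ 2 + 388 * r + 1116 * r * v + 936 * r * v ^ 2 + 288 * r * v ^ 3 +
      330 * r ^ 2 + 1098 * r ^ 2 * v + 1224 * r ^ 2 * v ^ 2 + 576 * r ^ 2 * v ^ 3 + 190 * r ^ 3 +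
      666 * r ^ 3 * v + 828 * r ^ 3 * v ^ 2 + 432 * r ^ 3 * v ^ 3 + 70 * r ^ 4 + 225 * r ^ 4 * v +
      315 * r ^ 4 * v ^ 2 + 180 * r ^ 4 * v ^ 3 + 18 * r ^ 5 + 45 * r ^ 5 * v + 63 * r ^ 5 * v ^ 2 +
      36 * r ^ 5 * v ^ 3) /
      (18 * (4 + 4 * v + 6 * r + 6 * r * v + 3 * r ^ 2 + 3 * r ^ 2 * v + 1 * r ^ 3 + 1 * r ^ 3 * v)) := by
    unfold kP qP
    field_simp
    ring
  rw [e]
  positivity

theorem p_f0 {r v : ℝ} (hr : 0 ≤ r) (hv : 0 ≤ v) :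
    0 ≤ 3 * v - 1 + 4 / (1 + v) - 4 * qP r v * (1 + r) ^ 2 / (1 + v) - xtP r v - t3P r v -
      (1 + r) ^ 2 / ((1 + v) * w2P r v) := by
  have e : 3 * v - 1 + 4 / (1 + v) - 4 * qP r v * (1 + r) ^ 2 / (1 + v) - xtP r v - t3P r v -
      (1 + r) ^ 2 / ((1 + v) * w2P r v) =
      (2147200 + 15911040 * v + 36665600 * v ^ 2 + 42416640 * v ^ 3 + 27694080 * v ^ 4 +
      6912000 * v ^ 5 + 2760992 * r + 31324800 * r * v + 78302240 * r * v ^ 2 +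
      95654912 * r * v ^ 3 + 66251520 * r * v ^ 4 + 22752000 * r * v ^ 5 + 6912000 * r * v ^ 6 +
      1172224 * r ^ 2 + 33431760 * r ^ 2 * v + 83084400 * r ^ 2 * v ^ 2 + 101819024 * r ^ 2 * v ^ 3 +
      73722960 * r ^ 2 * v ^ 4 + 32284800 * r ^ 2 * v ^ 5 + 13824000 * r ^ 2 * v ^ 6 +
      947040 * r ^ 3 + 28779240 * r ^ 3 * v + 63629240 * r ^ 3 * v ^ 2 + 74641240 * r ^ 3 * v ^ 3 +
      52688520 * r ^ 3 * v ^ 4 + 26136000 * r ^ 3 * v ^ 5 + 10368000 * r ^ 3 * v ^ 6 +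
      1016988 * r ^ 4 + 16497480 * r ^ 4 * v + 32596460 * r ^ 4 * v ^ 2 + 37725568 * r ^ 4 * v ^ 3 +
      24451200 * r ^ 4 * v ^ 4 + 13960800 * r ^ 4 * v ^ 5 + 4320000 * r ^ 4 * v ^ 6 +
      1126368 * r ^ 5 + 7674570 * r ^ 5 * v + 13739490 * r ^ 5 * v ^ 2 + 14965398 * r ^ 5 * v ^ 3 +
      8657550 * r ^ 5 * v ^ 4 + 5533200 * r ^ 5 * v ^ 5 + 864000 * r ^ 5 * v ^ 6 + 704268 * r ^ 6 +
      2445255 * r ^ 6 * v + 4213665 * r ^ 6 * v ^ 2 + 4146453 * r ^ 6 * v ^ 3 +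
      2168775 * r ^ 6 * v ^ 4 + 1603800 * r ^ 6 * v ^ 5 + 264600 * r ^ 7 + 602100 * r ^ 7 * v +
      1045080 * r ^ 7 * v ^ 2 + 979380 * r ^ 7 * v ^ 3 + 502200 * r ^ 7 * v ^ 4 +
      388800 * r ^ 7 * v ^ 5 + 58320 * r ^ 8 + 95175 * r ^ 8 * v + 155925 * r ^ 8 * v ^ 2 +
      133245 * r ^ 8 * v ^ 3 + 62775 * r ^ 8 * v ^ 4 + 48600 * r ^ 8 * v ^ 5) /
      (36 * (4 + 4 * v + 6 * r + 6 * r * v + 3 * r ^ 2 + 3 * r ^ 2 * v + 1 * r ^ 3 + 1 * r ^ 3 * v) * (199 + 100 * v + 120 * r + 100 * r * v ^ 2 + 60 * r ^ 2 + 50 * r ^ 2 * v ^ 2) * (80 + 240 * v + 160 * v ^ 2 + 54 * r + 54 * r * v + 27 * r ^ 2 + 27 * r ^ 2 * v + 9 * r ^ 3 +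
      9 * r ^ 3 * v)) := by
    unfold qP xtP t3P w2P EtP
    field_simp
    ring
  rw [e]
  positivity

theorem p_fL {r v : ℝ} (hr : 0 ≤ r) (hv : 0 ≤ v) :
    0 ≤ 3 * v - 1 + 4 / (1 + v) - 4 * qP r v * (1 + r) ^ 2 / (1 + v) - xtP r v - t3P r v -
      (1 + r) ^ 2 / ((1 + v) * w2P r v) - 4 * qP r v / (1 + v) + 69 / 100 / ((1 + v) * w2P r v) := by
  have e : 3 * v - 1 + 4 / (1 + v) - 4 * qP r v * (1 + r) ^ 2 / (1 + v) - xtP r v - t3P r v -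
      (1 + r) ^ 2 / ((1 + v) * w2P r v) - 4 * qP r v / (1 + v) + 69 / 100 / ((1 + v) * w2P r v) =
      (1954528 + 53624928 * v + 172515200 * v ^ 2 + 212083200 * v ^ 3 + 138470400 * v ^ 4 +
      34560000 * v ^ 5 + 5844592 * r + 148241232 * r * v + 390079200 * r * v ^ 2 +
      467461760 * r * v ^ 3 + 331257600 * r * v ^ 4 + 113760000 * r * v ^ 5 + 34560000 * r * v ^ 6 +
      273896 * r ^ 2 + 166544376 * r ^ 2 * v + 413366800 * r ^ 2 * v ^ 2 +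
      506669520 * r ^ 2 * v ^ 3 + 368614800 * r ^ 2 * v ^ 4 + 161424000 * r ^ 2 * v ^ 5 +
      69120000 * r ^ 2 * v ^ 6 + 2683992 * r ^ 3 + 148238592 * r ^ 3 * v +
      317303800 * r ^ 3 * v ^ 2 + 376187000 * r ^ 3 * v ^ 3 + 263442600 * r ^ 3 * v ^ 4 +
      130680000 * r ^ 3 * v ^ 5 + 51840000 * r ^ 3 * v ^ 6 + 4415340 * r ^ 4 + 83977800 * r ^ 4 * v +
      162424300 * r ^ 4 * v ^ 2 + 189869840 * r ^ 4 * v ^ 3 + 122256000 * r ^ 4 * v ^ 4 +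
      69804000 * r ^ 4 * v ^ 5 + 21600000 * r ^ 4 * v ^ 6 + 5497920 * r ^ 5 + 38670930 * r ^ 5 * v +
      68585850 * r ^ 5 * v ^ 2 + 75075390 * r ^ 5 * v ^ 3 + 43287750 * r ^ 5 * v ^ 4 +
      27666000 * r ^ 5 * v ^ 5 + 4320000 * r ^ 5 * v ^ 6 + 3521340 * r ^ 6 + 12226275 * r ^ 6 * v +
      21068325 * r ^ 6 * v ^ 2 + 20732265 * r ^ 6 * v ^ 3 + 10843875 * r ^ 6 * v ^ 4 +
      8019000 * r ^ 6 * v ^ 5 + 1323000 * r ^ 7 + 3010500 * r ^ 7 * v + 5225400 * r ^ 7 * v ^ 2 +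
      4896900 * r ^ 7 * v ^ 3 + 2511000 * r ^ 7 * v ^ 4 + 1944000 * r ^ 7 * v ^ 5 + 291600 * r ^ 8 +
      475875 * r ^ 8 * v + 779625 * r ^ 8 * v ^ 2 + 666225 * r ^ 8 * v ^ 3 + 313875 * r ^ 8 * v ^ 4 +
      243000 * r ^ 8 * v ^ 5) /
      (180 * (4 + 4 * v + 6 * r + 6 * r * v + 3 * r ^ 2 + 3 * r ^ 2 * v + 1 * r ^ 3 + 1 * r ^ 3 * v) * (199 + 100 * v + 120 * r + 100 * r * v ^ 2 + 60 * r ^ 2 + 50 * r ^ 2 * v ^ 2) * (80 + 240 * v + 160 * v ^ 2 + 54 * r + 54 * r * v + 27 * r ^ 2 + 27 * r ^ 2 * v + 9 * r ^ 3 +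
      9 * r ^ 3 * v)) := by
    unfold qP xtP t3P w2P EtP
    field_simp
    ring
  rw [e]
  positivity

theorem p_q2 {r v : ℝ} (hr : 0 ≤ r) (hv : 0 ≤ v) :
    0 ≤ 31 / 100 - 4 * qP r v ^ 2 := by
  have e : 31 / 100 - 4 * qP r v ^ 2 =
      (176 + 80352 * v + 40176 * v ^ 2 + 120528 * r + 241056 * r * v + 120528 * r * v ^ 2 +
      150660 * r ^ 2 + 301320 * r ^ 2 * v + 150660 * r ^ 2 * v ^ 2 + 110484 * r ^ 3 +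
      220968 * r ^ 3 * v + 110484 * r ^ 3 * v ^ 2 + 52731 * r ^ 4 + 105462 * r ^ 4 * v +
      52731 * r ^ 4 * v ^ 2 + 15066 * r ^ 5 + 30132 * r ^ 5 * v + 15066 * r ^ 5 * v ^ 2 +
      2511 * r ^ 6 + 5022 * r ^ 6 * v + 2511 * r ^ 6 * v ^ 2) /
      (8100 * (4 + 4 * v + 6 * r + 6 * r * v + 3 * r ^ 2 + 3 * r ^ 2 * v + 1 * r ^ 3 + 1 * r ^ 3 * v) ^ 2) := by
    unfold qP
    field_simp
    ring
  rw [e]
  positivity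

theorem p_Cp {r v : ℝ} (hr : 0 ≤ r) (hv : 0 ≤ v) :
    0 ≤ 1 + (2 * r + r ^ 2) * v / 2 + (2 * r + r ^ 2) / 8 + (kP r v + (1 + r) ^ 2 -
      qP r v * ((1 + r) ^ 2) ^ 2 - (2 * r + r ^ 2) / 2) / 3 -
      2 / 3 * ((1 + v) * (2 * r + r ^ 2) / 2) + qP r v * ((1 + v) * (2 * r + r ^ 2) / 2) *
      (2 * (1 + r) ^ 2 - 3 * ((1 + v) * (2 * r + r ^ 2) / 2)) := by
  have e : 1 + (2 * r + r ^ 2) * v / 2 + (2 * r + r ^ 2) / 8 + (kP r v + (1 + r) ^ 2 -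
      qP r v * ((1 + r) ^ 2) ^ 2 - (2 * r + r ^ 2) / 2) / 3 -
      2 / 3 * ((1 + v) * (2 * r + r ^ 2) / 2) + qP r v * ((1 + v) * (2 * r + r ^ 2) / 2) *
      (2 * (1 + r) ^ 2 - 3 * ((1 + v) * (2 * r + r ^ 2) / 2)) =
      (1648 + 2880 * v + 1152 * v ^ 2 + 2968 * r + 6168 * r * v + 4032 * r * v ^ 2 +
      1152 * r * v ^ 3 + 1728 * r ^ 2 + 4656 * r ^ 2 * v + 4752 * r ^ 2 * v ^ 2 +
      2304 * r ^ 2 * v ^ 3 + 676 * r ^ 3 + 2292 * r ^ 3 * v + 3024 * r ^ 3 * v ^ 2 +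
      1728 * r ^ 3 * v ^ 3 + 115 * r ^ 4 + 735 * r ^ 4 * v + 1260 * r ^ 4 * v ^ 2 +
      720 * r ^ 4 * v ^ 3 + 27 * r ^ 5 + 171 * r ^ 5 * v + 288 * r ^ 5 * v ^ 2 +
      144 * r ^ 5 * v ^ 3) /
      (216 * (4 + 4 * v + 6 * r + 6 * r * v + 3 * r ^ 2 + 3 * r ^ 2 * v + 1 * r ^ 3 + 1 * r ^ 3 * v)) := by
    unfold kP qP
    field_simp
    ring
  rw [e]
  positivity

theorem p_ao {r v : ℝ} (hr : 0 ≤ r) (hv : 0 ≤ v) :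
    0 ≤ 1 + 4 * qP r v - 3 * qP r v * (1 + v) := by
  have e : 1 + 4 * qP r v - 3 * qP r v * (1 + v) =
      (46 + 6 * v + 54 * r + 54 * r * v + 27 * r ^ 2 + 27 * r ^ 2 * v + 9 * r ^ 3 + 9 * r ^ 3 * v) /
      (9 * (4 + 4 * v + 6 * r + 6 * r * v + 3 * r ^ 2 + 3 * r ^ 2 * v + 1 * r ^ 3 + 1 * r ^ 3 * v)) := by
    unfold qP
    field_simp
    ring
  rw [e]
  positivity

theorem p_disc {r v : ℝ} (hr : 0 ≤ r) (hv : 0 ≤ v) :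
    0 ≤ 4 * (1 + v) * (1 + (2 * r + r ^ 2) * v / 2 + (2 * r + r ^ 2) / 8 + (kP r v + (1 + r) ^ 2 -
      qP r v * ((1 + r) ^ 2) ^ 2 - (2 * r + r ^ 2) / 2) / 3 -
      2 / 3 * ((1 + v) * (2 * r + r ^ 2) / 2) + qP r v * ((1 + v) * (2 * r + r ^ 2) / 2) *
      (2 * (1 + r) ^ 2 - 3 * ((1 + v) * (2 * r + r ^ 2) / 2))) * (1 + 4 * qP r v - 3 * qP r v * (1 + v)) -
      (1 - qP r v * (1 + v) * (1 + (1 + r) ^ 2) + 3 * (qP r v * (1 + v)) * (2 * r + r ^ 2) * v) ^ 2 := by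
  have e : 4 * (1 + v) * (1 + (2 * r + r ^ 2) * v / 2 + (2 * r + r ^ 2) / 8 + (kP r v + (1 + r) ^ 2 -
      qP r v * ((1 + r) ^ 2) ^ 2 - (2 * r + r ^ 2) / 2) / 3 -
      2 / 3 * ((1 + v) * (2 * r + r ^ 2) / 2) + qP r v * ((1 + v) * (2 * r + r ^ 2) / 2) *
      (2 * (1 + r) ^ 2 - 3 * ((1 + v) * (2 * r + r ^ 2) / 2))) * (1 + 4 * qP r v - 3 * qP r v * (1 + v)) -
      (1 - qP r v * (1 + v) * (1 + (1 + r) ^ 2) + 3 * (qP r v * (1 + v)) * (2 * r + r ^ 2) * v) ^ 2 =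
      (74272 + 215104 * v + 211104 * v ^ 2 + 77184 * v ^ 3 + 6912 * v ^ 4 + 218992 * r +
      746992 * r * v + 956688 * r * v ^ 2 + 568080 * r * v ^ 3 + 146304 * r * v ^ 4 +
      6912 * r * v ^ 5 + 274056 * r ^ 2 + 1073760 * r ^ 2 * v + 1654056 * r ^ 2 * v ^ 2 +
      1278288 * r ^ 2 * v ^ 3 + 499968 * r ^ 2 * v ^ 4 + 76032 * r ^ 2 * v ^ 5 + 210712 * r ^ 3 +
      919216 * r ^ 3 * v + 1635000 * r ^ 3 * v ^ 2 + 1533888 * r ^ 3 * v ^ 3 +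
      773280 * r ^ 3 * v ^ 4 + 165888 * r ^ 3 * v ^ 5 + 109756 * r ^ 4 + 541114 * r ^ 4 * v +
      1108608 * r ^ 4 * v ^ 2 + 1206306 * r ^ 4 * v ^ 3 + 699264 * r ^ 4 * v ^ 4 +
      170208 * r ^ 4 * v ^ 5 + 39420 * r ^ 5 + 225864 * r ^ 5 * v + 533412 * r ^ 5 * v ^ 2 +
      654048 * r ^ 5 * v ^ 3 + 414216 * r ^ 5 * v ^ 4 + 107136 * r ^ 5 * v ^ 5 + 10161 * r ^ 6 +
      70029 * r ^ 6 * v + 186363 * r ^ 6 * v ^ 2 + 246051 * r ^ 6 * v ^ 3 + 162324 * r ^ 6 * v ^ 4 +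
      42768 * r ^ 6 * v ^ 5 + 1764 * r ^ 7 + 14760 * r ^ 7 * v + 43344 * r ^ 7 * v ^ 2 +
      59832 * r ^ 7 * v ^ 3 + 39852 * r ^ 7 * v ^ 4 + 10368 * r ^ 7 * v ^ 5 + 243 * r ^ 8 +
      2025 * r ^ 8 * v + 5913 * r ^ 8 * v ^ 2 + 8019 * r ^ 8 * v ^ 3 + 5184 * r ^ 8 * v ^ 4 +
      1296 * r ^ 8 * v ^ 5) /
      (486 * (4 + 4 * v + 6 * r + 6 * r * v + 3 * r ^ 2 + 3 * r ^ 2 * v + 1 * r ^ 3 + 1 * r ^ 3 * v) ^ 2) := by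
    unfold kP qP
    field_simp
    ring
  rw [e]
  positivity

end Pool.Agent.Helper59.JH
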