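import Pool.Agent.Helper59.JH.Core
import Pool.Agent.Helper59.JH.ScP0

/-! # JH: the scalar conditions, first case -/

set_option autoImplicit false
set_option linter.unusedVariables false

namespace Pool.Agent.Helper59.JH

theorem quad_nonneg {a b c : ℝ} (ha : 0 < a) (h : b ^ 2 ≤ 4 * a * c) (x y : ℝ) :
    0 ≤ a * x ^ 2 + b * (x * y) + c * y ^ 2 := by
  have h1 : 0 ≤ 4 * a * (a * x ^ 2 + b * (x * y) + c * y ^ 2) := by
    nlinarith [sq_nonneg (2 * a * x + b * y), mul_nonneg (sub_nonneg.2 h) (sq_nonneg y)]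
  by_contra hc
  push Not at hc
  nlinarith

theorem subv {v : ℝ} (hv : 0 ≤ v) :
    5 / 3 * (v * (2 + v) / (4 + v)) * ((v - 2) / (1 + v)) ^ 2 ≤ 1 / 5 + 2 * v + v ^ 2 / 2 := by
  have e : 5 / 3 * (v * (2 + v) / (4 + v)) * ((v - 2) / (1 + v)) ^ 2 =
      (5 * (v * (2 + v)) * (v - 2) ^ 2) / (3 * (4 + v) * (1 + v) ^ 2) := by
    field_simp
  rw [e, div_le_iff₀ (by positivity)]
  have h2 : 0 ≤ v ^ 2 := by positivity
  have h3 : 0 ≤ v ^ 3 := by positivity
  have h4 : 0 ≤ v ^ 4 := by positivity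
  have h5 : 0 ≤ v ^ 5 := by positivity
  nlinarith [sq_nonneg (v - 1 / 8), h2, h3, h4, h5]

theorem aux_q {h L : ℝ} (hh : 1 ≤ h) (hL : 1 ≤ L) : h ^ 2 * 10 ≤ 9 * (L * h * (3 + h ^ 2)) := by
  have h0 : 0 ≤ h := by linarith
  have h3 : h ^ 2 * 10 ≤ 9 * (h * (3 + h ^ 2)) := by nlinarith [sq_nonneg (h - 1)]
  have h6 : 0 ≤ h * (3 + h ^ 2) := by positivity
  nlinarith

theorem aux_sq {x : ℝ} (h1 : 0 ≤ x) (h2 : x ≤ 1) : (1 - 2 * x) ^ 2 ≤ 1 := by nlinarith

theorem aux_F3 {lam v u : ℝ} (hlam : 1 < lam) (hv : v = (lam - 1) * (lam + 1)) (hu : 0 ≤ u) :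
    (1 + v) * (3 + (1 + u)) / 2 ≤ 3 + 4 * v + u / 2 + 2 * u * v + 2 * u * v ^ 2 - 1 -
      (lam - 1) * (1 + u) := by
  have hl0 : 0 < lam - 1 := by linarith
  have hv0 : 0 < v := by rw [hv]; apply mul_pos hl0; linarith
  have h2 : 3 + 4 * v + u / 2 + 2 * u * v + 2 * u * v ^ 2 - 1 -
      (lam - 1) * (1 + u) - (1 + v) * (3 + (1 + u)) / 2 =
      (2 * v - (lam - 1)) + u * (3 / 2 * v + 2 * v ^ 2 - (lam - 1)) := by ring
  have h3 : 0 ≤ 2 * v - (lam - 1) := by rw [hv]; nlinarith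
  have h4 : 0 ≤ 3 / 2 * v + 2 * v ^ 2 - (lam - 1) := by nlinarith [sq_nonneg v]
  have h5 := mul_nonneg hu h4
  linarith

theorem aux_al {lam v u A al be E1 c1 L g : ℝ} (hlam : 1 < lam) (hv : v = (lam - 1) * (lam + 1))
    (hu : 0 ≤ u) (hA : 0 ≤ A) (hg : g = 1 + u) (hL : L = 1 + v)
    (hc1 : c1 = 3 + 4 * v + u / 2 + 2 * u * v + 2 * u * v ^ 2)
    (H2 : be ≤ (lam - 1) * A) (hE1 : E1 = A + be * g) (hal : al = c1 * A - E1) :
    L * (3 + g) / 2 * A ≤ al := by
  have h1 := mul_le_mul_of_nonneg_right (aux_F3 hlam hv hu) hA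
  have h6 : be * g ≤ (lam - 1) * A * g := mul_le_mul_of_nonneg_right H2 (by rw [hg]; positivity)
  rw [hal, hE1, hL, hg, hc1]
  rw [hg] at h6
  linarith

theorem aux_X {lam v : ℝ} (hlam : 1 < lam) (hv : v = (lam - 1) * (lam + 1)) :
    (lam - 1) * lam ≤ v * (2 + v) / (4 + v) := by
  have hl0 : 0 < lam - 1 := by linarith
  have hv0 : 0 < v := by rw [hv]; apply mul_pos hl0; linarith
  rw [le_div_iff₀ (by positivity)]
  have h1 : v * (2 + v) - (lam - 1) * lam * (4 + v) = (lam - 1) * (2 + v - 2 * lam) := by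
    rw [hv]; ring
  have h2 : 0 ≤ 2 + v - 2 * lam := by rw [hv]; nlinarith [sq_nonneg (lam - 1)]
  have h3 := mul_nonneg hl0.le h2
  linarith

theorem aux_Z {h : ℝ} : h / (3 + h ^ 2) ≤ 3 / 10 := by
  rw [div_le_iff₀ (by positivity)]
  nlinarith [sq_nonneg (h - 5 / 3)]

theorem aux_sub {u v X Y Z sub : ℝ} (hu : 0 ≤ u) (hv : 0 ≤ v) (hX0 : 0 ≤ X)
    (hX : X ≤ v * (2 + v) / (4 + v)) (hY : Y = ((v - 2) / (1 + v)) ^ 2) (hZ : Z ≤ 3 / 10)
    (hsub : sub = 50 / 9 * u * X * Y * Z) : sub ≤ u * (1 / 5 + 2 * v + v ^ 2 / 2) := by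
  have hY0 : 0 ≤ Y := by rw [hY]; positivity
  have h1 : sub ≤ 50 / 9 * u * X * Y * (3 / 10) := by
    rw [hsub]
    apply mul_le_mul_of_nonneg_left hZ
    positivity
  have h2 : 50 / 9 * u * X * Y * (3 / 10) ≤
      50 / 9 * u * (v * (2 + v) / (4 + v)) * Y * (3 / 10) := by
    apply mul_le_mul_of_nonneg_right _ (by norm_num)
    apply mul_le_mul_of_nonneg_right _ hY0
    exact mul_le_mul_of_nonneg_left hX (by positivity)
  have h3 := mul_le_mul_of_nonneg_left (subv hv) hu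
  rw [← hY] at h3
  linarith

theorem aux_e3 {u v sub e3 : ℝ} (hu : 0 ≤ u) (hv : 0 ≤ v)
    (hsub1 : sub ≤ u * (1 / 5 + 2 * v + v ^ 2 / 2))
    (he3 : e3 = (3 + 4 * v + u / 2 + 2 * u * v + 2 * u * v ^ 2 + 3 * (u / 2) - sub - 1 / 100) / 3) :
    199 / 100 + v + 3 / 5 * u + 1 / 2 * u * v ^ 2 - 1 ≤ e3 := by
  rw [he3]
  nlinarith [mul_nonneg hu hv, mul_nonneg hu (sq_nonneg v)]

theorem aux_LhT {lam h Th A v L : ℝ} (hlam : 0 < lam) (hA : 0 ≤ A) (hL : L = lam ^ 2)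
    (h2l : 2 * lam ≤ 2 + v) (H1 : lam * h * Th ≤ 2 * A) : L * h * Th ≤ (2 + v) * A := by
  have h3 : lam * (lam * h * Th) ≤ lam * (2 * A) := mul_le_mul_of_nonneg_left H1 hlam.le
  have h4 : 2 * lam * A ≤ (2 + v) * A := mul_le_mul_of_nonneg_right h2l hA
  have h5 : L * h * Th = lam * (lam * h * Th) := by rw [hL]; ring
  rw [h5]
  linarith

theorem scaP {lam h L i be A rho gam c1 c3 E1 Th n0 N2 : ℝ} (hlam : 1 < lam) (hh : 1 ≤ h)
    (hL : L = lam ^ 2) (hi : i = L⁻¹) (hrho : rho = L * h ^ 2) (hbe : be = (rho - L) / 2)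
    (hc3 : c3 = 1 + (1 - i) * be) (hc1 : c1 = 4 * L * c3 - 1 + be * i) (hgam : gam = rho * i)
    (hE1 : E1 = A + be * gam) (hA : 0 ≤ A) (hTh : 0 ≤ Th) (hN0 : 0 ≤ N2) (hN : N2 ≤ L)
    (hn : n0 ^ 2 + N2 = rho) (H1 : lam * h * Th ≤ 2 * A) (H2 : be ≤ (lam - 1) * A) :
    ∃ q G w1 w1' w2 w3 w3' cp t3 xt ec sub e3 ks bm bp,
      Sca L i be A rho gam c1 c3 (c1 - c3) (4 * (L - 1) - 1 + 2 * i) E1 (c1 * A - E1) Th n0 N2
        q G w1 w1' w2 w3 w3' cp t3 xt ec sub e3 ks bm bp := by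
  obtain ⟨r, hr⟩ : ∃ r, r = h - 1 := ⟨_, rfl⟩
  obtain ⟨v, hv⟩ : ∃ v, v = L - 1 := ⟨_, rfl⟩
  have hr0 : 0 ≤ r := by rw [hr]; linarith
  have hv0 : 0 ≤ v := by rw [hv, hL]; nlinarith
  have hh' : h = 1 + r := by rw [hr]; ring
  have hL' : L = 1 + v := by rw [hv]; ring
  have hLp : 0 < L := by rw [hL']; positivity
  have hLi : L * i = 1 := by rw [hi]; exact mul_inv_cancel₀ hLp.ne'
  have hi0 : 0 < i := by rw [hi]; positivity
  have hiv : i = 1 / (1 + v) := by rw [hi, hL', one_div]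
  have hgam' : gam = h ^ 2 := by rw [hgam, hrho]; linear_combination h ^ 2 * hLi
  obtain ⟨u, hu⟩ : ∃ u, u = 2 * r + r ^ 2 := ⟨_, rfl⟩
  have hu0 : 0 ≤ u := by rw [hu]; positivity
  have hu1 : h ^ 2 = 1 + u := by rw [hh', hu]; ring
  have hbe' : be = L * u / 2 := by rw [hbe, hrho, hu1]; ring
  have hbe0 : 0 ≤ be := by rw [hbe']; positivity
  have hbi : be * i = u / 2 := by rw [hbe']; linear_combination u / 2 * hLi
  have hc3' : c3 = 1 + u * v / 2 := by
    rw [hc3, hbe']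
    linear_combination (-(u / 2)) * hLi + u / 2 * hL'
  have hc1' : c1 = 3 + 4 * v + u / 2 + 2 * u * v + 2 * u * v ^ 2 := by
    rw [hc1, hc3', hL', hbi]; ring
  have hk' : c1 - c3 = kP r v := by
    rw [hc1', hc3', kP, ← hu]; ring
  have hlv : v = (lam - 1) * (lam + 1) := by rw [hv, hL]; ring
  have hl0 : 0 < lam - 1 := by linarith
  have hlam0 : 0 < lam := by linarith
  have hEt := EtP_pos hr0 hv0
  have hE1A : A ≤ E1 := by
    rw [hE1, hgam']
    have : 0 ≤ be * h ^ 2 := by positivity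
    linarith
  -- al
  obtain ⟨al, hal⟩ : ∃ al, al = c1 * A - E1 := ⟨_, rfl⟩
  have hal1 : L * (3 + h ^ 2) / 2 * A ≤ al :=
    aux_al hlam hlv hu0 hA hu1 hL' hc1' H2 (by rw [hE1, hgam']) hal
  have hal2 : 2 * A ≤ al := by
    have h1 : 2 * A ≤ L * (3 + h ^ 2) / 2 * A := by
      apply mul_le_mul_of_nonneg_right _ hA
      rw [hL', hu1]
      have := mul_nonneg hv0 hu0
      linarith
    linarith
  have hal0 : 0 ≤ al := by linarith
  -- sub
  obtain ⟨Y, hY⟩ : ∃ Y, Y = (1 - 3 * i) ^ 2 := ⟨_, rfl⟩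
  have hY0 : 0 ≤ Y := by rw [hY]; positivity
  have hYv : Y = ((v - 2) / (1 + v)) ^ 2 := by
    rw [hY, hiv]
    congr 1
    field_simp
    ring
  obtain ⟨sub, hsub⟩ : ∃ sub, sub = 50 / 9 * u * ((lam - 1) * lam) * Y * (h / (3 + h ^ 2)) :=
    ⟨_, rfl⟩
  have hsub0 : 0 ≤ sub := by
    rw [hsub]
    have : 0 ≤ h := by linarith
    positivity
  have hsub1 : sub ≤ u * (1 / 5 + 2 * v + v ^ 2 / 2) :=
    aux_sub hu0 hv0 (by positivity) (aux_X hlam hlv) hYv aux_Z hsub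
  obtain ⟨e3, he3⟩ : ∃ e3, e3 = (c1 + 3 * be * i - sub - 1 / 100) / 3 := ⟨_, rfl⟩
  have he31 : EtP r v - 1 ≤ e3 := by
    have h1 := aux_e3 hu0 hv0 hsub1 (e3 := e3) (by rw [he3, hc1', mul_assoc 3 be i, hbi])
    rw [EtP, ← hu]
    exact h1
  have he30 : 0 ≤ e3 := by
    have : 1 ≤ EtP r v := by
      unfold EtP
      have : 0 ≤ v + 3 / 5 * (2 * r + r ^ 2) + 1 / 2 * (2 * r + r ^ 2) * v ^ 2 := by positivity
      linarith
    linarith
  have hEE : EtP r v * A ≤ e3 * A + E1 := by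
    have := mul_le_mul_of_nonneg_right he31 hA
    linarith
  have hq0 : 0 < qP r v := by unfold qP; positivity
  have hG0 : 0 < GP r v := by unfold GP; positivity
  have hh0 : 0 < h := by linarith
  have h2l : 2 * lam ≤ 2 + v := by
    have := sq_nonneg (lam - 1)
    rw [hv, hL]
    linarith
  have hLhT := aux_LhT hlam0 hA hL h2l H1
  have hL1 : 1 ≤ L := by rw [hL']; linarith
  have hgq0 : 0 ≤ gam * qP r v := by rw [hgam']; positivity
  have hgq1 : gam * qP r v ≤ 1 := by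
    rw [hgam', qP, ← hh', ← hL', mul_div_assoc', div_le_one (by positivity)]
    exact aux_q hh hL1
  have hgq : (1 - 2 * gam * qP r v) ^ 2 ≤ 1 := by
    have := aux_sq hgq0 hgq1
    rwa [mul_assoc]
  have hcp0 : 0 ≤ cpP r v := by unfold cpP; positivity
  have ht30 : 0 ≤ t3P r v := by unfold t3P; positivity
  have hxt0 : 0 ≤ xtP r v := by unfold xtP; positivity
  refine ⟨qP r v, GP r v, 1 / 2, 1 / 2, w2P r v, v * h ^ 2 / (4 * L), v, cpP r v, t3P r v,
    xtP r v, 9 / 100 * al, sub, e3, u / 2, 0, be, ?_⟩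
  refine ⟨hLi, hi0, hA, by linarith, rfl, rfl, hq0.le, hG0.le, ?_, by positivity, hsub0, he30,
    le_rfl, hbe0, by ring, by positivity, by norm_num, by norm_num, w2P_pos hr0 hv0,
    by positivity, hv0, hcp0, ht30, hxt0, ?_, ?_, ?_, ?_, ?_, ?_, by norm_num, ?_, ?_, ?_, ?_, ?_,
    ?_, ?_⟩
  · -- qG
    unfold qP GP
    field_simp
    norm_num
  · -- s1
    rw [← hal]
    have h1 : GP r v * Th ≤ 9 / 10 * al := by
      have h2 : GP r v * Th = 9 / 40 * (L * (3 + h ^ 2)) * (h * Th) := by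
        rw [GP, hL', hh']; ring
      have h3 : h * Th ≤ 2 * A := by
        have : 1 * (h * Th) ≤ lam * (h * Th) :=
          mul_le_mul_of_nonneg_right hlam.le (mul_nonneg hh0.le hTh)
        linarith
      have h4 := mul_le_mul_of_nonneg_left h3 (by positivity : 0 ≤ 9 / 40 * (L * (3 + h ^ 2)))
      rw [h2]
      linarith
    linarith
  · -- s2
    have h1 : (be * (1 - 3 * i)) ^ 2 * rho * Th = be * Y * (lam * h) * (be * (lam * h * Th)) := by
      rw [hrho, hL, hY]; ring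
    have h2 : be * (lam * h * Th) ≤ (lam - 1) * A * (2 * A) :=
      mul_le_mul H2 H1 (by positivity) (by positivity)
    have h3 : be * Y * (lam * h) * (be * (lam * h * Th)) ≤
        be * Y * (lam * h) * ((lam - 1) * A * (2 * A)) :=
      mul_le_mul_of_nonneg_left h2 (by positivity)
    have h4 : be * Y * (lam * h) * ((lam - 1) * A * (2 * A)) =
        4 * (9 / 100 * (L * (3 + h ^ 2) / 2 * A)) * (sub * A) := by
      rw [hsub, hbe']
      field_simp
      ring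
    have h5 : 4 * (9 / 100 * (L * (3 + h ^ 2) / 2 * A)) * (sub * A) ≤
        4 * (9 / 100 * al) * (sub * A) := by
      apply mul_le_mul_of_nonneg_right _ (by positivity)
      linarith
    rw [h1]
    linarith
  · -- s3
    rw [he3]
    linarith
  · -- s4
    have h1 : 9 / 4 * be ^ 2 * Th ≤ 4 * (EtP r v * A) * cpP r v := by
      have h2 : 4 * (EtP r v * A) * cpP r v = 9 / 16 * (L * u ^ 2) * ((2 + v) * A) / h := by
        rw [cpP, ← hu, ← hh', ← hL']
        field_simp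
        ring
      rw [h2, le_div_iff₀ hh0, hbe']
      have h6 := mul_le_mul_of_nonneg_left hLhT (by positivity : 0 ≤ 9 / 16 * (L * u ^ 2))
      have h7 : 9 / 4 * (L * u / 2) ^ 2 * Th * h = 9 / 16 * (L * u ^ 2) * (L * h * Th) := by ring
      rw [h7]
      linarith
    refine h1.trans (mul_le_mul_of_nonneg_right ?_ hcp0)
    linarith
  · -- s5
    have h1 : 9 / 5 * rho * Th ≤ 4 * (EtP r v * A) * t3P r v := by
      have h2 : 4 * (EtP r v * A) * t3P r v = 9 / 5 * (h * ((2 + v) * A)) := by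
        rw [t3P, ← hh']
        field_simp
        ring
      rw [h2, hrho]
      have h6 := mul_le_mul_of_nonneg_left hLhT hh0.le
      have h7 : 9 / 5 * (L * h ^ 2) * Th = 9 / 5 * (h * (L * h * Th)) := by ring
      rw [h7]
      linarith
    refine h1.trans (mul_le_mul_of_nonneg_right ?_ ht30)
    linarith
  · -- s6
    have h1 : be ^ 2 * (3 - 4 * i) ^ 2 ≤ 4 * (EtP r v * A) * xtP r v := by
      have h2 : 4 * (EtP r v * A) * xtP r v = u * v * (3 * v - 1) ^ 2 * A / (4 * L) := by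
        rw [xtP, ← hu, ← hL']
        field_simp
        ring
      have h3 : (3 - 4 * i) ^ 2 = (3 * v - 1) ^ 2 / L ^ 2 := by
        rw [← div_pow]
        congr 1
        rw [hiv, hL']
        field_simp
        ring
      have h4 : be ^ 2 * (3 - 4 * i) ^ 2 ≤ be * ((lam - 1) * A) * (3 - 4 * i) ^ 2 := by
        apply mul_le_mul_of_nonneg_right _ (sq_nonneg _)
        rw [sq]
        exact mul_le_mul_of_nonneg_left H2 hbe0
      refine h4.trans ?_
      rw [h3, h2, hbe']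
      have h5 : L * u / 2 * ((lam - 1) * A) * ((3 * v - 1) ^ 2 / L ^ 2) =
          2 * (lam - 1) * (u * (3 * v - 1) ^ 2 * A) / (4 * L) := by
        field_simp
        ring
      rw [h5]
      apply div_le_div_of_nonneg_right _ (by positivity)
      have h6 : 2 * (lam - 1) ≤ v := by linarith
      have h7 := mul_le_mul_of_nonneg_right h6 (by positivity : 0 ≤ u * (3 * v - 1) ^ 2 * A)
      linarith
    refine h1.trans (mul_le_mul_of_nonneg_right ?_ hxt0)
    linarith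
  · -- s7'
    exact hgq
  · -- s8
    have h1 : 1 - i = v * i := by
      have := hLi
      rw [hL'] at this
      linarith
    rw [h1, hrho]
    have h2 : 4 * (v * h ^ 2 / (4 * L)) * v = v ^ 2 * h ^ 2 * i := by
      rw [hi]
      field_simp
    rw [h2]
    have h3 : (v * i) ^ 2 * (L * h ^ 2) = v ^ 2 * h ^ 2 * i * (L * i) := by ring
    rw [h3, hLi, mul_one]
  · -- s9
    have h1 := p_s9 hr0 hv0
    rw [← hu, ← hh', ← hL', ← hc3'] at h1
    linarith
  · -- s10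
    have h1 := p_s10 hr0 hv0
    rw [← hu, ← hh', ← hgam', ← hk'] at h1
    linarith
  · -- s11
    have h1 := p_s11 hr0 hv0
    rw [← hu, ← hh', ← hgam', ← hk'] at h1
    linarith
  · -- s12
    have hw2 := w2P_pos hr0 hv0
    have h1 := p_f0 hr0 hv0
    have h2 := p_fL hr0 hv0
    have h3 := p_q2 hr0 hv0
    have h4 := hgq
    have h5 : (1 - 2 * gam * qP r v) ^ 2 * n0 ^ 2 + 4 * qP r v ^ 2 * N2 ≤
        L * h ^ 2 - 69 / 100 * N2 := by
      have h6 := mul_le_mul_of_nonneg_right h4 (sq_nonneg n0)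
      have h7 : 4 * qP r v ^ 2 * N2 ≤ 31 / 100 * N2 :=
        mul_le_mul_of_nonneg_right (by linarith) hN0
      have h8 : n0 ^ 2 = L * h ^ 2 - N2 := by rw [← hrho]; linarith
      linarith
    have h6 : i ^ 2 / w2P r v * ((1 - 2 * gam * qP r v) ^ 2 * n0 ^ 2 + 4 * qP r v ^ 2 * N2) ≤
        i ^ 2 / w2P r v * (L * h ^ 2 - 69 / 100 * N2) :=
      mul_le_mul_of_nonneg_left h5 (by positivity)
    refine h6.trans ?_
    -- linear in `N2`
    obtain ⟨t, ht⟩ : ∃ t, t = N2 * i := ⟨_, rfl⟩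
    have ht0 : 0 ≤ t := by rw [ht]; positivity
    have ht1 : t ≤ 1 := by
      rw [ht]
      calc N2 * i ≤ L * i := mul_le_mul_of_nonneg_right hN hi0.le
        _ = 1 := hLi
    rw [← hh', ← hL', ← hgam'] at h1 h2
    have e1 : ∀ x : ℝ, x / L = x * i := fun x => by rw [hi]; rfl
    have e2 : ∀ x : ℝ, x / (L * w2P r v) = x * i * (w2P r v)⁻¹ := fun x => by
      rw [hi, div_eq_mul_inv, mul_inv, mul_assoc]
    rw [e1, e1, e2] at h1
    rw [e1, e1, e1, e2, e2] at h2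
    have h7 := mul_nonneg (sub_nonneg.2 ht1) h1
    have h8 := mul_nonneg ht0 h2
    have e3 : i ^ 2 / w2P r v * (L * h ^ 2 - 69 / 100 * N2) =
        gam * i * (w2P r v)⁻¹ * (L * i) - 69 / 100 * i * (w2P r v)⁻¹ * t := by
      rw [ht, hgam']
      ring
    have e4 : 4 * qP r v * N2 * i ^ 2 = 4 * qP r v * i * t := by rw [ht]; ring
    have e5 : 4 * (L - 1) - 1 + 2 * i = 4 * v - 1 + 2 * i := by rw [hv]
    rw [e3, hLi, e4, e5]
    linarith
  · -- s13
    intro om p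
    have h1 := p_Cp hr0 hv0
    have h2 := p_ao hr0 hv0
    have h3 := p_disc hr0 hv0
    have hb2 : (1 + v) * (2 * r + r ^ 2) / 2 = be := by rw [hbe', hL', hu]
    rw [hb2, ← hu, ← hh', ← hgam', ← hk', ← hc3', ← hL'] at h3
    obtain ⟨Cp, hCp⟩ : ∃ Cp, Cp = c3 + u / 8 + (c1 - c3 + gam - qP r v * gam ^ 2 - u / 2) / 3 -
      2 / 3 * be + qP r v * be * (2 * gam - 3 * be) := ⟨_, rfl⟩
    rw [← hCp] at h3
    have hao : 0 < 1 + 4 * qP r v - 3 * qP r v * L := by
      rw [hL']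
      have e : 1 + 4 * qP r v - 3 * qP r v * (1 + v) =
          (46 + 6 * v + 54 * r + 54 * r * v + 27 * r ^ 2 + 27 * r ^ 2 * v + 9 * r ^ 3 +
            9 * r ^ 3 * v) / (9 * ((1 + v) * (4 + 6 * r + 3 * r ^ 2 + r ^ 3))) := by
        unfold qP
        have e0 : (1 + v) * (1 + r) * (3 + (1 + r) ^ 2) =
          (1 + v) * (4 + 6 * r + 3 * r ^ 2 + r ^ 3) := by ring
        rw [e0]
        field_simp
        ring
      rw [e]
      positivity
    have h4 : i + 4 * qP r v * i - 3 * qP r v = i * (1 + 4 * qP r v - 3 * qP r v * L) := by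
      linear_combination (3 * qP r v) * hLi
    have h5 : i + 6 * qP r v * be - 2 * gam * qP r v - 4 * qP r v * be * i =
        i * (1 - qP r v * L * (1 + gam) + 3 * (qP r v * L) * u * v) := by
      have h6 : gam = 1 + u := by rw [hgam', hu1]
      rw [h6, hbe']
      linear_combination (-(2 * qP r v * u) + qP r v * (2 + u) - 3 * qP r v * u * (L - 1)) * hLi -
        3 * i * qP r v * L * u * hv
    have h7 : c3 + u / 2 / 4 + (c1 - c3 + gam - qP r v * gam ^ 2 - u / 2 - 0) / 3 + be / 3 - be -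
        3 * qP r v * be ^ 2 + 2 * gam * qP r v * be = Cp := by
      rw [hCp]; ring
    rw [h4, h5, h7]
    apply quad_nonneg (mul_pos hi0 hao)
    have h8 : (i * (1 - qP r v * L * (1 + gam) + 3 * (qP r v * L) * u * v)) ^ 2 =
        i ^ 2 * (1 - qP r v * L * (1 + gam) + 3 * (qP r v * L) * u * v) ^ 2 := by ring
    have h9 : 4 * (i * (1 + 4 * qP r v - 3 * qP r v * L)) * Cp =
        i ^ 2 * (4 * L * Cp * (1 + 4 * qP r v - 3 * qP r v * L)) := by
      linear_combination (-(4 * i * (1 + 4 * qP r v - 3 * qP r v * L) * Cp)) * hLi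
    rw [h8, h9]
    apply mul_le_mul_of_nonneg_left _ (sq_nonneg i)
    linarith

end Pool.Agent.Helper59.JH
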