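import Pool.Agent.Helper77.JH.A2

/-! # JH: traces and the Bessel inequality -/

set_option autoImplicit false
set_option linter.unusedSectionVars false
set_option linter.unusedVariables false

namespace Pool.Agent.Helper59.JH

open Pool.Agent.Helper77.JH

variable {H : Type*} [NormedAddCommGroup H] [InnerProductSpace ℝ H] [FiniteDimensional ℝ H]
variable {ι : Type*} [Fintype ι] [DecidableEq ι] {d : Dat H ι}

theorem phx0 (h : Rul d) (i : ι) : d.φ i (d.ξ i) = 0 := by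
  rw [h.phx i i]
  exact Finset.sum_eq_zero (fun k _ => by rw [(h.c0 i k).1, zero_smul])

theorem phi_self (h : Rul d) (i : ι) (u : H) : inner ℝ (d.φ i u) u = 0 := by
  have h1 := h.skew i u u
  rw [real_inner_comm u (d.φ i u)] at h1
  have h2 : inner ℝ (d.φ i u) u = inner ℝ u (d.φ i u) := real_inner_comm _ _
  linarith

theorem phi_self' (h : Rul d) (i : ι) (u : H) : inner ℝ u (d.φ i u) = 0 := by
  rw [real_inner_comm]
  exact phi_self h i u

theorem skew' (h : Rul d) (i : ι) (u v : H) : inner ℝ u (d.φ i v) = - inner ℝ (d.φ i u) v := by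
  rw [h.skew, neg_neg]

/-- `⟪φ_i u, φ_j v⟫` -/
theorem phi_phi (h : Rul d) (i j : ι) (u v : H) :
    inner ℝ (d.φ i u) (d.φ j v) = (if i = j then inner ℝ u v else 0) -
      ∑ k, d.c i j k * inner ℝ u (d.φ k v) - inner ℝ (d.ξ i) u * inner ℝ (d.ξ j) v := by
  rw [h.skew, h.pp, inner_add_right, inner_add_right, inner_sum, real_inner_smul_right,
    real_inner_comm (d.ξ i) u]
  simp only [real_inner_smul_right]
  split_ifs
  · rw [inner_neg_right]
    ring
  · rw [inner_zero_right]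
    ring

/-- `|φ_i u|² = |u|² - ⟪ξ_i, u⟫²` -/
theorem phi_sq (h : Rul d) (i : ι) (u : H) :
    ‖d.φ i u‖ ^ 2 = ‖u‖ ^ 2 - inner ℝ (d.ξ i) u ^ 2 := by
  rw [← real_inner_self_eq_norm_sq, phi_phi h, if_pos rfl, real_inner_self_eq_norm_sq,
    Finset.sum_eq_zero (fun k _ => by rw [(h.c0 i k).1, zero_mul])]
  ring

/-- the inner products of `φ_i u`, `φ_j u` -/
theorem phi_orth (h : Rul d) (i j : ι) (u : H) (hu : ∀ l, inner ℝ (d.ξ l) u = 0) :
    inner ℝ (d.φ i u) (d.φ j u) = if i = j then ‖u‖ ^ 2 else 0 := by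
  rw [phi_phi h, hu i, zero_mul, sub_zero,
    Finset.sum_eq_zero (fun k _ => by rw [phi_self' h k u, mul_zero]), sub_zero,
    real_inner_self_eq_norm_sq]

theorem xi_phi (h : Rul d) (i j : ι) (u : H) (hu : ∀ l, inner ℝ (d.ξ l) u = 0) :
    inner ℝ (d.ξ j) (d.φ i u) = 0 := by
  rw [skew' h, h.phx, sum_inner, Finset.sum_eq_zero, neg_zero]
  intro k _
  rw [real_inner_smul_left, hu k, mul_zero]

/-- the Bessel inequality at a point -/
theorem bessel_pt (h : Rul d) (u w : H) (hu : ∀ l, inner ℝ (d.ξ l) u = 0) :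
    inner ℝ u w ^ 2 + ∑ i, inner ℝ (d.φ i u) w ^ 2 ≤
      ‖u‖ ^ 2 * (‖w‖ ^ 2 - ∑ i, inner ℝ (d.ξ i) w ^ 2) := by
  rcases eq_or_ne u 0 with rfl | h0
  · simp
  have hn : 0 < ‖u‖ := norm_pos_iff.2 h0
  set v : ι ⊕ Option ι → H := fun x => match x with
    | Sum.inl i => d.ξ i
    | Sum.inr none => ‖u‖⁻¹ • u
    | Sum.inr (some i) => ‖u‖⁻¹ • d.φ i u with hv
  have hon : Orthonormal ℝ v := by
    rw [orthonormal_iff_ite]
    rintro (i | _ | i) (j | _ | j)
    · simp only [hv, h.on, Sum.inl.injEq]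
    · simp [hv, real_inner_smul_right, hu]
    · simp [hv, real_inner_smul_right, xi_phi h j i u hu]
    · simp only [hv, real_inner_smul_left, reduceCtorEq, if_false]
      rw [real_inner_comm, hu j, mul_zero]
    · simp only [hv, if_true]
      rw [real_inner_smul_left, real_inner_smul_right, real_inner_self_eq_norm_sq]
      field_simp
    · simp only [hv, real_inner_smul_left, real_inner_smul_right, phi_self' h, mul_zero]
      simp
    · simp only [hv, real_inner_smul_left, reduceCtorEq, if_false]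
      rw [real_inner_comm, xi_phi h i j u hu, mul_zero]
    · simp only [hv, real_inner_smul_left, real_inner_smul_right, phi_self h, mul_zero]
      simp
    · simp only [hv, real_inner_smul_left, real_inner_smul_right, phi_orth h i j u hu,
        Sum.inr.injEq, Option.some.injEq]
      split_ifs
      · field_simp
      · simp
  have hb := hon.sum_inner_products_le (x := w) (s := Finset.univ)
  rw [Fintype.sum_sum_type, Fintype.sum_option] at hb
  simp only [hv, real_inner_smul_left, Real.norm_eq_abs, sq_abs, mul_pow] at hb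
  rw [← Finset.mul_sum] at hb
  have h1 : (‖u‖⁻¹) ^ 2 * ‖u‖ ^ 2 = 1 := by field_simp
  have h2 : 0 ≤ ‖u‖ ^ 2 := by positivity
  have h3 := mul_le_mul_of_nonneg_left hb h2
  have h4 : ‖u‖ ^ 2 * (∑ x, inner ℝ (d.ξ x) w ^ 2 + (‖u‖⁻¹ ^ 2 * inner ℝ u w ^ 2 +
      ‖u‖⁻¹ ^ 2 * ∑ i, inner ℝ (d.φ i u) w ^ 2)) = ‖u‖ ^ 2 * ∑ x, inner ℝ (d.ξ x) w ^ 2 +
      (‖u‖⁻¹ ^ 2 * ‖u‖ ^ 2) * (inner ℝ u w ^ 2 + ∑ i, inner ℝ (d.φ i u) w ^ 2) := by ring
  rw [h4, h1] at h3
  linarith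

/-- the trace of a square of a symmetric operator -/
theorem tr_sq_onb {T : H →ₗ[ℝ] H} (hT : ∀ u v, inner ℝ (T u) v = inner ℝ u (T v)) :
    LinearMap.trace ℝ H (T ∘ₗ T) = ∑ i, ‖T (stdOrthonormalBasis ℝ H i)‖ ^ 2 := by
  rw [LinearMap.trace_eq_sum_inner _ (stdOrthonormalBasis ℝ H)]
  refine Finset.sum_congr rfl fun i _ => ?_
  rw [LinearMap.comp_apply, ← hT, real_inner_self_eq_norm_sq]

/-- Parseval for `T v` -/
theorem parseval_T {T : H →ₗ[ℝ] H} (hT : ∀ u v, inner ℝ (T u) v = inner ℝ u (T v)) (v : H) :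
    ∑ i, inner ℝ v (T (stdOrthonormalBasis ℝ H i)) ^ 2 = ‖T v‖ ^ 2 := by
  have h1 := (stdOrthonormalBasis ℝ H).sum_sq_norm_inner_right (T v)
  rw [← h1]
  refine Finset.sum_congr rfl fun i _ => ?_
  rw [← hT, real_inner_comm, Real.norm_eq_abs, sq_abs]

/-- `|T u|² + ∑ |T φ_i u|² ≤ |u|² (tr T² - ∑ |T ξ_i|²)` -/
theorem tr_bessel (h : Rul d) (u : H) (hu : ∀ l, inner ℝ (d.ξ l) u = 0) :
    ‖d.T u‖ ^ 2 + ∑ i, ‖d.T (d.φ i u)‖ ^ 2 ≤
      ‖u‖ ^ 2 * (LinearMap.trace ℝ H (d.T ∘ₗ d.T) - ∑ i, ‖d.T (d.ξ i)‖ ^ 2) := by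
  have h1 := Finset.sum_le_sum (s := Finset.univ)
    (fun e _ => bessel_pt h u (d.T (stdOrthonormalBasis ℝ H e)) hu)
  rw [Finset.sum_add_distrib, ← Finset.mul_sum, Finset.sum_sub_distrib, ← tr_sq_onb h.symT,
    parseval_T h.symT, Finset.sum_comm, Finset.sum_comm (f := fun e i =>
      inner ℝ (d.ξ i) (d.T (stdOrthonormalBasis ℝ H e)) ^ 2)] at h1
  simp only [parseval_T h.symT] at h1
  exact h1

/-- `∑ |T ξ_i|² ≤ tr T²` for a symmetric operator -/
theorem tr_xi (h : Rul d) {T : H →ₗ[ℝ] H} (hT : ∀ u v, inner ℝ (T u) v = inner ℝ u (T v)) :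
    ∑ i, ‖T (d.ξ i)‖ ^ 2 ≤ LinearMap.trace ℝ H (T ∘ₗ T) := by
  have hon : Orthonormal ℝ d.ξ := by
    rw [orthonormal_iff_ite]
    exact h.on
  rw [tr_sq_onb hT]
  have h1 : ∀ e, ∑ i, inner ℝ (d.ξ i) (T (stdOrthonormalBasis ℝ H e)) ^ 2 ≤
      ‖T (stdOrthonormalBasis ℝ H e)‖ ^ 2 := by
    intro e
    have hb := hon.sum_inner_products_le (x := T (stdOrthonormalBasis ℝ H e)) (s := Finset.univ)
    simpa only [Real.norm_eq_abs, sq_abs] using hb
  have h2 := Finset.sum_le_sum (s := Finset.univ) (fun e _ => h1 e)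
  rw [Finset.sum_comm] at h2
  simp only [parseval_T hT] at h2
  exact h2

end Pool.Agent.Helper59.JH
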