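import Pool.Agent.Helper59.JH.K
import Pool.Agent.Helper77.JH.Nf

/-! # JH: the vectors of the quadratic form -/

set_option autoImplicit false
set_option linter.unusedSectionVars false
set_option linter.unusedVariables false

namespace Pool.Agent.Helper59.JH

open Pool.Agent.Helper77.JH

variable {H : Type*} [NormedAddCommGroup H] [InnerProductSpace ℝ H] [FiniteDimensional ℝ H]
variable {ι : Type*} [Fintype ι] [DecidableEq ι] {d : Dat H ι}

noncomputable def Pq (d : Dat H ι) (P0 : H) (s : ℝ) (i : ι) : H := d.φ i P0 + s • d.ξ i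

noncomputable def Xq (d : Dat H ι) (P0 : H) (s : ℝ) (i : ι) : H := d.T (Pq d P0 s i)

noncomputable def Psi (d : Dat H ι) (P0 : H) (s : ℝ) : H := d.T P0 - ∑ i, d.φ i (Xq d P0 s i)

noncomputable def pn (d : Dat H ι) (P0 : H) (s : ℝ) : ℝ := ∑ i, inner ℝ (d.ξ i) (Xq d P0 s i)

noncomputable def XN (d : Dat H ι) (P0 : H) (s n0 : ℝ) (n : ι → ℝ) : H :=
  -(n0 • d.T P0 + ∑ i, n i • Xq d P0 s i)

noncomputable def Jn (d : Dat H ι) (n0 : ℝ) (n : ι → ℝ) (u : H) : H :=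
  -(n0 • u + ∑ i, n i • d.φ i u)

variable {P0 : H} {s n0 : ℝ} {n : ι → ℝ}

/-- reindexing of a triple sum -/
theorem cyc3 {E : Type*} [AddCommGroup E] [Module ℝ E] (h : Rul d) (f : ι → ι → ι → E) :
    ∑ i, ∑ j, ∑ k, d.c i j k • f j i k = ∑ i, ∑ j, ∑ k, d.c i j k • f i k j := by
  rw [Finset.sum_comm]
  refine Finset.sum_congr rfl fun i _ => ?_
  rw [Finset.sum_comm]
  refine Finset.sum_congr rfl fun j _ => Finset.sum_congr rfl fun k _ => ?_
  have h1 : d.c k i j = d.c i j k := by rw [h.as1 k i j, h.as2 i k j, neg_neg]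
  rw [h1]

theorem anti_v (h : Rul d) (f : ι → ι → ℝ)
    (hf : ∀ i k, f i k = f k i) (j : ι) : ∑ i, ∑ k, d.c i j k • f i k = 0 := by
  have h1 : ∑ i, ∑ k, d.c i j k • f i k = -∑ i, ∑ k, d.c i j k • f i k := by
    conv_lhs => rw [Finset.sum_comm]
    rw [← Finset.sum_neg_distrib]
    refine Finset.sum_congr rfl fun i _ => ?_
    rw [← Finset.sum_neg_distrib]
    refine Finset.sum_congr rfl fun k _ => ?_
    have h2 : d.c k j i = - d.c i j k := by rw [h.as1 k j i, h.as2 j k i, h.as1 j i k, neg_neg]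
    rw [h2, hf k i, neg_smul]
  exact self_eq_neg.1 h1

/-- `|a u + b ∑ n_i φ_i u|² ≤ (a² + b² |n|²) |u|²` -/
theorem nrm_lin (h : Rul d) (a b : ℝ) (n : ι → ℝ) (u : H) :
    ‖a • u + b • ∑ i, n i • d.φ i u‖ ^ 2 ≤ (a ^ 2 + b ^ 2 * ∑ i, n i ^ 2) * ‖u‖ ^ 2 := by
  have h1 : inner ℝ u (∑ i, n i • d.φ i u) = 0 := by
    rw [inner_sum]
    exact Finset.sum_eq_zero fun i _ => by rw [real_inner_smul_right, phi_self' h, mul_zero]
  have h2 : ‖∑ i, n i • d.φ i u‖ ^ 2 = (∑ i, n i ^ 2) * ‖u‖ ^ 2 -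
      (∑ i, n i * inner ℝ (d.ξ i) u) ^ 2 := by
    rw [← real_inner_self_eq_norm_sq, sum_inner]
    have h3 : ∀ i, inner ℝ (n i • d.φ i u) (∑ j, n j • d.φ j u) = n i ^ 2 * ‖u‖ ^ 2 -
        (n i * inner ℝ (d.ξ i) u) * ∑ j, n j * inner ℝ (d.ξ j) u := by
      intro i
      rw [inner_sum]
      have h4 : ∀ j, inner ℝ (n i • d.φ i u) (n j • d.φ j u) =
          (if i = j then n i * n j * ‖u‖ ^ 2 else 0) -
            (n i * inner ℝ (d.ξ i) u) * (n j * inner ℝ (d.ξ j) u) := by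
        intro j
        rw [real_inner_smul_left, real_inner_smul_right, phi_phi h,
          Finset.sum_eq_zero (fun k _ => by rw [phi_self' h k u, mul_zero]),
          real_inner_self_eq_norm_sq]
        split_ifs <;> ring
      rw [Finset.sum_congr rfl fun j _ => h4 j, Finset.sum_sub_distrib, ← Finset.mul_sum,
        Finset.sum_ite_eq, if_pos (Finset.mem_univ i)]
      ring
    rw [Finset.sum_congr rfl fun i _ => h3 i, Finset.sum_sub_distrib, ← Finset.sum_mul,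
      ← Finset.sum_mul]
    ring
  rw [norm_add_sq_real, real_inner_smul_left, real_inner_smul_right, h1, norm_smul, norm_smul,
    mul_pow, mul_pow, h2, Real.norm_eq_abs, Real.norm_eq_abs, sq_abs, sq_abs]
  nlinarith [mul_nonneg (sq_nonneg b) (sq_nonneg (∑ i, n i * inner ℝ (d.ξ i) u))]

theorem Jn_sq (h : Rul d) (u : H) :
    ‖Jn d n0 n u‖ ^ 2 ≤ (n0 ^ 2 + ∑ i, n i ^ 2) * ‖u‖ ^ 2 := by
  have h1 := nrm_lin h n0 1 n u
  rw [one_smul, one_pow, one_mul] at h1
  rw [Jn, norm_neg]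
  exact h1

theorem xi_Jn (h : Rul d) (u : H) (hu : ∀ l, inner ℝ (d.ξ l) u = 0) (l : ι) :
    inner ℝ (d.ξ l) (Jn d n0 n u) = 0 := by
  rw [Jn, inner_neg_right, inner_add_right, real_inner_smul_right, hu, inner_sum,
    Finset.sum_eq_zero (fun i _ => by rw [real_inner_smul_right, xi_phi h i l u hu, mul_zero])]
  simp

/-- `T W` -/
theorem TW_eq (N : Nf d P0 s n0 n) : d.T d.W = XN d P0 s n0 n := by
  rw [N.W, XN, map_neg, map_add, map_smul, map_sum]
  simp only [map_smul]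
  rfl

theorem W_eq (N : Nf d P0 s n0 n) : d.W = Jn d n0 n P0 - s • ∑ i, n i • d.ξ i := by
  rw [N.W, Jn]
  simp only [smul_add, Finset.sum_add_distrib, Finset.smul_sum]
  have h1 : ∀ i, n i • s • d.ξ i = s • n i • d.ξ i := fun i => smul_comm _ _ _
  rw [Finset.sum_congr rfl fun i _ => h1 i]
  abel

/-- `T φ_i P0 = X_i - s t_i` -/
theorem y_eq (i : ι) : d.T (d.φ i P0) = Xq d P0 s i - s • d.T (d.ξ i) := by
  rw [Xq, Pq, map_add, map_smul, add_sub_cancel_right]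

/-- `T φ_i W` -/
theorem TphW (h : Rul d) (N : Nf d P0 s n0 n) (i : ι) : d.T (d.φ i d.W) =
    d.T (d.φ i (Jn d n0 n P0)) - s • ∑ j, ∑ k, d.c i j k • n j • d.T (d.ξ k) := by
  rw [W_eq N, map_sub, map_sub, map_smul, map_sum, map_smul, map_sum]
  congr 2
  refine Finset.sum_congr rfl fun j _ => ?_
  rw [map_smul, h.phx, map_smul, map_sum, Finset.smul_sum]
  refine Finset.sum_congr rfl fun k _ => ?_
  rw [map_smul, smul_comm]

/-- `tY = ∑ ⟪t_i, T φ_i W⟫` -/
theorem tY_eq (h : Rul d) (N : Nf d P0 s n0 n) :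
    ∑ i, inner ℝ (d.T (d.ξ i)) (d.T (d.φ i d.W)) =
      ∑ i, inner ℝ (d.T (d.ξ i)) (d.T (d.φ i (Jn d n0 n P0))) := by
  have h1 : ∀ i, inner ℝ (d.T (d.ξ i)) (d.T (d.φ i d.W)) =
      inner ℝ (d.T (d.ξ i)) (d.T (d.φ i (Jn d n0 n P0))) -
        s * ∑ j, ∑ k, d.c i j k • (n j * inner ℝ (d.T (d.ξ i)) (d.T (d.ξ k))) := by
    intro i
    rw [TphW h N, inner_sub_right, real_inner_smul_right, inner_sum]
    congr 2
    refine Finset.sum_congr rfl fun j _ => ?_
    rw [inner_sum]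
    refine Finset.sum_congr rfl fun k _ => ?_
    rw [real_inner_smul_right, real_inner_smul_right, smul_eq_mul]
  have h2 : ∑ i, ∑ j, ∑ k, d.c i j k • (n j * inner ℝ (d.T (d.ξ i)) (d.T (d.ξ k))) = 0 := by
    rw [Finset.sum_comm]
    refine Finset.sum_eq_zero fun j _ => ?_
    exact anti_v h (fun i k => n j * inner ℝ (d.T (d.ξ i)) (d.T (d.ξ k)))
      (fun i k => by rw [real_inner_comm]) j
  rw [Finset.sum_congr rfl fun i _ => h1 i, Finset.sum_sub_distrib, ← Finset.mul_sum, h2,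
    mul_zero, sub_zero]

/-- `φ_i P_j` -/
theorem phP (h : Rul d) (N : Nf d P0 s n0 n) (i j : ι) : d.φ i (Pq d P0 s j) =
    (if i = j then -P0 else 0) + ∑ k, d.c i j k • Pq d P0 s k := by
  rw [Pq, map_add, map_smul, h.pp, h.phx, N.xP j, zero_smul, add_zero, Finset.smul_sum, add_assoc,
    ← Finset.sum_add_distrib]
  congr 1
  refine Finset.sum_congr rfl fun k _ => ?_
  rw [Pq, smul_add, smul_comm]

theorem TphP (h : Rul d) (N : Nf d P0 s n0 n) (i j : ι) : d.T (d.φ i (Pq d P0 s j)) =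
    (if i = j then -d.T P0 else 0) + ∑ k, d.c i j k • Xq d P0 s k := by
  rw [phP h N, map_add, map_sum]
  simp only [map_smul]
  congr 1
  split_ifs <;> simp

/-- `T G T` -/
theorem tr_TGT (h : Rul d) (N : Nf d P0 s n0 n) :
    LinearMap.trace ℝ H (d.T ∘ₗ d.G ∘ₗ d.T) = ‖d.T P0‖ ^ 2 + ∑ i, ‖Xq d P0 s i‖ ^ 2 := by
  have e1 : d.T ∘ₗ d.G ∘ₗ d.T = (innerₛₗ ℝ (d.T P0)).smulRight (d.T P0) +
      ∑ i, (innerₛₗ ℝ (Xq d P0 s i)).smulRight (Xq d P0 s i) := by
    refine LinearMap.ext fun v => ?_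
    simp only [LinearMap.comp_apply, LinearMap.add_apply, LinearMap.sum_apply,
      LinearMap.smulRight_apply, innerₛₗ_apply_apply]
    rw [N.G, map_add, map_sum, map_smul, h.symT]
    congr 1
    refine Finset.sum_congr rfl fun i _ => ?_
    rw [map_smul, Xq, Pq, h.symT]
  rw [e1, map_add, map_sum, tr_rank, real_inner_self_eq_norm_sq]
  congr 1
  refine Finset.sum_congr rfl fun i _ => ?_
  rw [tr_rank, real_inner_self_eq_norm_sq]

theorem tr_GT (h : Rul d) (N : Nf d P0 s n0 n) :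
    LinearMap.trace ℝ H (d.G ∘ₗ d.T) = inner ℝ P0 (Psi d P0 s) + s * pn d P0 s := by
  have e1 : d.G ∘ₗ d.T = (innerₛₗ ℝ (d.T P0)).smulRight P0 +
      ∑ i, (innerₛₗ ℝ (Xq d P0 s i)).smulRight (Pq d P0 s i) := by
    refine LinearMap.ext fun v => ?_
    simp only [LinearMap.comp_apply, LinearMap.add_apply, LinearMap.sum_apply,
      LinearMap.smulRight_apply, innerₛₗ_apply_apply]
    rw [N.G, h.symT]
    congr 1
    refine Finset.sum_congr rfl fun i _ => ?_
    rw [Xq, Pq, h.symT]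
  have e2 : ∀ i, inner ℝ (Xq d P0 s i) (Pq d P0 s i) = - inner ℝ P0 (d.φ i (Xq d P0 s i)) +
      s * inner ℝ (d.ξ i) (Xq d P0 s i) := by
    intro i
    have e3 : inner ℝ (Xq d P0 s i) (Pq d P0 s i) =
        inner ℝ (Xq d P0 s i) (d.φ i P0) + s * inner ℝ (d.ξ i) (Xq d P0 s i) := by
      conv_lhs => rw [Pq]
      rw [inner_add_right, real_inner_smul_right, real_inner_comm (d.ξ i)]
    rw [e3, skew' h, real_inner_comm P0]
  rw [e1, map_add, map_sum, tr_rank]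
  simp only [tr_rank]
  rw [Finset.sum_congr rfl fun i _ => e2 i, Finset.sum_add_distrib, ← Finset.mul_sum,
    Finset.sum_neg_distrib, Psi, inner_sub_right, inner_sum, real_inner_comm P0, pn]
  ring

end Pool.Agent.Helper59.JH
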