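import Pool.Agent.Helper59.JH.Vec

/-! # JH: the vectors of the quadratic form, second part -/

set_option autoImplicit false
set_option linter.unusedSectionVars false
set_option linter.unusedVariables false

namespace Pool.Agent.Helper59.JH

open Pool.Agent.Helper77.JH

variable {H : Type*} [NormedAddCommGroup H] [InnerProductSpace ℝ H] [FiniteDimensional ℝ H]
variable {ι : Type*} [Fintype ι] [DecidableEq ι] {d : Dat H ι}
variable {P0 : H} {s n0 : ℝ} {n : ι → ℝ}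

/-- `|∑ φ_i X_i|²` for any family -/
theorem sum_phi_sq (h : Rul d) (X : ι → H) : ‖∑ i, d.φ i (X i)‖ ^ 2 = ∑ i, ‖X i‖ ^ 2 -
    ∑ i, ∑ j, ∑ k, d.c i j k • inner ℝ (X i) (d.φ k (X j)) -
      (∑ i, inner ℝ (d.ξ i) (X i)) ^ 2 := by
  rw [← real_inner_self_eq_norm_sq, sum_inner]
  have h1 : ∀ i, inner ℝ (d.φ i (X i)) (∑ j, d.φ j (X j)) = ‖X i‖ ^ 2 -
      ∑ j, ∑ k, d.c i j k • inner ℝ (X i) (d.φ k (X j)) -
        inner ℝ (d.ξ i) (X i) * ∑ j, inner ℝ (d.ξ j) (X j) := by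
    intro i
    rw [inner_sum]
    simp only [phi_phi h]
    rw [Finset.sum_sub_distrib, Finset.sum_sub_distrib, ← Finset.mul_sum, Finset.sum_ite_eq,
      if_pos (Finset.mem_univ i), real_inner_self_eq_norm_sq]
    simp only [smul_eq_mul]
  rw [Finset.sum_congr rfl fun i _ => h1 i, Finset.sum_sub_distrib, Finset.sum_sub_distrib,
    ← Finset.sum_mul]
  ring

/-- the traces in `q3` -/
theorem tr_q3 (h : Rul d) (N : Nf d P0 s n0 n) :
    ∑ i, LinearMap.trace ℝ H (d.φ i ∘ₗ d.T ∘ₗ d.φ i ∘ₗ (d.G ∘ₗ d.T + d.A • d.T)) =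
      ‖d.T P0‖ ^ 2 + ∑ i, ‖Xq d P0 s i‖ ^ 2 - ‖Psi d P0 s‖ ^ 2 - pn d P0 s ^ 2 -
        s * inner ℝ (d.T P0) (Ph d) +
        d.A * ∑ i, LinearMap.trace ℝ H (d.φ i ∘ₗ d.T ∘ₗ d.φ i ∘ₗ d.T) := by
  have e1 : ∀ i, d.φ i ∘ₗ d.T ∘ₗ d.φ i ∘ₗ (d.G ∘ₗ d.T + d.A • d.T) =
      (innerₛₗ ℝ (d.T P0)).smulRight (d.φ i (d.T (d.φ i P0))) +
      ∑ j, (innerₛₗ ℝ (Xq d P0 s j)).smulRight (d.φ i (d.T (d.φ i (Pq d P0 s j)))) +
      d.A • (d.φ i ∘ₗ d.T ∘ₗ d.φ i ∘ₗ d.T) := by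
    intro i
    refine LinearMap.ext fun v => ?_
    simp only [LinearMap.comp_apply, LinearMap.add_apply, LinearMap.sum_apply,
      LinearMap.smulRight_apply, innerₛₗ_apply_apply, LinearMap.smul_apply]
    rw [N.G, h.symT]
    simp only [map_add, map_sum, map_smul]
    congr 2
    refine Finset.sum_congr rfl fun j _ => ?_
    rw [Xq, Pq, h.symT]
    simp only [map_add, map_smul]
  have e2 : ∀ i, inner ℝ (d.T P0) (d.φ i (d.T (d.φ i P0))) =
      inner ℝ (d.T P0) (d.φ i (Xq d P0 s i)) - s * inner ℝ (d.T P0) (d.φ i (d.T (d.ξ i))) := by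
    intro i
    rw [y_eq (s := s) i, map_sub, map_smul, inner_sub_right, real_inner_smul_right]
  have e3 : ∀ i j, inner ℝ (Xq d P0 s j) (d.φ i (d.T (d.φ i (Pq d P0 s j)))) =
      (if i = j then inner ℝ (d.T P0) (d.φ i (Xq d P0 s j)) else 0) +
        ∑ k, d.c i j k • inner ℝ (Xq d P0 s j) (d.φ i (Xq d P0 s k)) := by
    intro i j
    rw [TphP h N, map_add, map_sum, inner_add_right, inner_sum]
    congr 1
    · split_ifs
      · rw [map_neg, inner_neg_right, skew' h, neg_neg, real_inner_comm]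
      · rw [map_zero, inner_zero_right]
    · refine Finset.sum_congr rfl fun k _ => ?_
      rw [map_smul, real_inner_smul_right, smul_eq_mul]
  have e4 : ∀ i, LinearMap.trace ℝ H (d.φ i ∘ₗ d.T ∘ₗ d.φ i ∘ₗ (d.G ∘ₗ d.T + d.A • d.T)) =
      2 * inner ℝ (d.T P0) (d.φ i (Xq d P0 s i)) - s * inner ℝ (d.T P0) (d.φ i (d.T (d.ξ i))) +
      ∑ j, ∑ k, d.c i j k • inner ℝ (Xq d P0 s j) (d.φ i (Xq d P0 s k)) +
      d.A * LinearMap.trace ℝ H (d.φ i ∘ₗ d.T ∘ₗ d.φ i ∘ₗ d.T) := by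
    intro i
    rw [e1, map_add, map_add, map_sum, map_smul, tr_rank, e2]
    simp only [tr_rank, e3]
    rw [Finset.sum_add_distrib, Finset.sum_ite_eq, if_pos (Finset.mem_univ i), smul_eq_mul]
    ring
  have e5 := cyc3 h (fun j i k => inner ℝ (Xq d P0 s j) (d.φ i (Xq d P0 s k)))
  have e6 : ‖Psi d P0 s‖ ^ 2 = ‖d.T P0‖ ^ 2 -
      2 * inner ℝ (d.T P0) (∑ i, d.φ i (Xq d P0 s i)) + ‖∑ i, d.φ i (Xq d P0 s i)‖ ^ 2 := by
    rw [Psi, norm_sub_sq_real]
  rw [sum_phi_sq h, inner_sum] at e6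
  rw [Finset.sum_congr rfl fun i _ => e4 i, Finset.sum_add_distrib, Finset.sum_add_distrib,
    Finset.sum_sub_distrib, ← Finset.mul_sum, ← Finset.mul_sum, ← Finset.mul_sum, e5, Ph,
    inner_sum, pn]
  linarith

/-- `∑ φ_i T φ_i W` -/
theorem F3_eq (h : Rul d) (N : Nf d P0 s n0 n) : ∑ i, d.φ i (d.T (d.φ i d.W)) =
    d.A • Ph d + XN d P0 s n0 n - Jn d n0 n (Psi d P0 s) + pn d P0 s • ∑ i, n i • d.ξ i := by
  have e1 : ∀ i, d.φ i d.W = -(n0 • Pq d P0 s i) + d.A • d.ξ i + n i • P0 -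
      ∑ j, ∑ k, d.c i j k • n j • Pq d P0 s k := by
    intro i
    have e0 : d.φ i P0 = Pq d P0 s i - s • d.ξ i := by rw [Pq, add_sub_cancel_right]
    have e2 : ∀ j, n j • d.φ i (Pq d P0 s j) = (if i = j then -(n j • P0) else 0) +
        ∑ k, d.c i j k • n j • Pq d P0 s k := by
      intro j
      rw [phP h N, smul_add, Finset.smul_sum]
      congr 1
      · split_ifs
        · rw [smul_neg]
        · rw [smul_zero]
      · exact Finset.sum_congr rfl fun k _ => smul_comm _ _ _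
    have e3 : d.W = -(n0 • P0 + ∑ j, n j • Pq d P0 s j) := N.W
    rw [e3, map_neg, map_add, map_smul, map_sum, e0, N.A]
    simp only [map_smul, e2]
    rw [Finset.sum_add_distrib, Finset.sum_ite_eq, if_pos (Finset.mem_univ i), smul_sub,
      smul_smul, mul_comm n0 s]
    abel
  have e4 : ∀ i, d.φ i (d.T (d.φ i d.W)) = -(n0 • d.φ i (Xq d P0 s i)) +
      d.A • d.φ i (d.T (d.ξ i)) + n i • d.φ i (d.T P0) -
      ∑ j, ∑ k, d.c i j k • n j • d.φ i (Xq d P0 s k) := by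
    intro i
    rw [e1]
    simp only [map_sub, map_add, map_neg, map_smul, map_sum]
    rfl
  have e5 := cyc3 h (fun j i k => n j • d.φ i (Xq d P0 s k))
  have e6 : ∑ i, n i • d.φ i (Psi d P0 s) = ∑ i, n i • d.φ i (d.T P0) +
      ∑ i, n i • Xq d P0 s i - ∑ i, ∑ j, ∑ k, d.c i j k • n i • d.φ k (Xq d P0 s j) -
        pn d P0 s • ∑ i, n i • d.ξ i := by
    have e7 : ∀ i, n i • d.φ i (Psi d P0 s) = n i • d.φ i (d.T P0) + n i • Xq d P0 s i -
        ∑ j, ∑ k, d.c i j k • n i • d.φ k (Xq d P0 s j) - pn d P0 s • n i • d.ξ i := by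
      intro i
      have e8 : ∑ j, d.φ i (d.φ j (Xq d P0 s j)) = -Xq d P0 s i +
          ∑ j, ∑ k, d.c i j k • d.φ k (Xq d P0 s j) + pn d P0 s • d.ξ i := by
        simp only [h.pp]
        rw [Finset.sum_add_distrib, Finset.sum_add_distrib, Finset.sum_ite_eq,
          if_pos (Finset.mem_univ i), ← Finset.sum_smul]
        rfl
      have e9 : n i • ∑ j, ∑ k, d.c i j k • d.φ k (Xq d P0 s j) =
          ∑ j, ∑ k, d.c i j k • n i • d.φ k (Xq d P0 s j) := by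
        rw [Finset.smul_sum]
        refine Finset.sum_congr rfl fun j _ => ?_
        rw [Finset.smul_sum]
        exact Finset.sum_congr rfl fun k _ => smul_comm _ _ _
      rw [Psi, map_sub, map_sum, e8, smul_sub, smul_add, smul_add, smul_neg, e9,
        smul_comm (n i) (pn d P0 s)]
      abel
    rw [Finset.sum_congr rfl fun i _ => e7 i, Finset.sum_sub_distrib, Finset.sum_sub_distrib,
      Finset.sum_add_distrib, ← Finset.smul_sum]
  rw [Finset.sum_congr rfl fun i _ => e4 i, Finset.sum_sub_distrib, Finset.sum_add_distrib,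
    Finset.sum_add_distrib, Finset.sum_neg_distrib, ← Finset.smul_sum, ← Finset.smul_sum, e5,
    XN, Jn, e6, Ph]
  have e10 : n0 • Psi d P0 s = n0 • d.T P0 - n0 • ∑ i, d.φ i (Xq d P0 s i) := by
    rw [Psi, smul_sub]
  rw [e10]
  abel

end Pool.Agent.Helper59.JH
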