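import Pool.Agent.Helper59.JH.Vec2

/-! # JH: the quadratic form in the normal form -/

set_option autoImplicit false
set_option linter.unusedSectionVars false
set_option linter.unusedVariables false

namespace Pool.Agent.Helper59.JH

open Pool.Agent.Helper77.JH

variable {H : Type*} [NormedAddCommGroup H] [InnerProductSpace ℝ H] [FiniteDimensional ℝ H]
variable {ι : Type*} [Fintype ι] [DecidableEq ι] {d : Dat H ι}
variable {P0 : H} {s n0 : ℝ} {n : ι → ℝ}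

noncomputable def T2 (d : Dat H ι) : ℝ := ∑ i, ‖d.T (d.ξ i)‖ ^ 2

noncomputable def trs (d : Dat H ι) : ℝ :=
  ∑ i, LinearMap.trace ℝ H (d.φ i ∘ₗ d.T ∘ₗ d.φ i ∘ₗ d.T)

noncomputable def b2 (d : Dat H ι) (P0 : H) (s : ℝ) : ℝ := ∑ i, ‖Xq d P0 s i‖ ^ 2

noncomputable def yX (d : Dat H ι) (P0 : H) (s : ℝ) : ℝ :=
  ∑ i, inner ℝ (d.T (d.φ i P0)) (Xq d P0 s i)

noncomputable def yN (d : Dat H ι) (P0 : H) (s n0 : ℝ) (n : ι → ℝ) : ℝ :=
  ∑ i, n i * inner ℝ (XN d P0 s n0 n) (d.T (d.φ i P0))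

noncomputable def y0 (d : Dat H ι) (P0 : H) : ℝ :=
  ∑ i, inner ℝ (d.φ i (d.T P0)) (d.T (d.φ i P0))

noncomputable def yx (d : Dat H ι) (P0 : H) : ℝ := ∑ i, inner ℝ (d.ξ i) (d.T (d.φ i P0))

noncomputable def tY (d : Dat H ι) (P0 : H) (n0 : ℝ) (n : ι → ℝ) : ℝ :=
  ∑ i, inner ℝ (d.T (d.ξ i)) (d.T (d.φ i (Jn d n0 n P0)))

noncomputable def Bx (d : Dat H ι) (P0 : H) (s : ℝ) : ℝ :=
  ∑ i, (inner ℝ (d.ξ i) (d.T P0) ^ 2 + ∑ j, inner ℝ (d.ξ i) (Xq d P0 s j) ^ 2)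

noncomputable def om (d : Dat H ι) (P0 : H) (s n0 : ℝ) (n : ι → ℝ) : ℝ :=
  ∑ i, n i * inner ℝ (d.ξ i) (XN d P0 s n0 n)

/-- `s ∑ ⟪X_i, t_i⟫ = ∑ |X_i|² - ∑ ⟪y_i, X_i⟫` -/
theorem sXt (h : Rul d) : s * ∑ i, inner ℝ (Xq d P0 s i) (d.T (d.ξ i)) =
    b2 d P0 s - yX d P0 s := by
  rw [b2, yX, ← Finset.sum_sub_distrib, Finset.mul_sum]
  refine Finset.sum_congr rfl fun i _ => ?_
  rw [y_eq (s := s) i, inner_sub_left, real_inner_self_eq_norm_sq, real_inner_smul_left,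
    real_inner_comm (Xq d P0 s i)]
  ring

/-- `s ⟪X_0, Φ⟫` -/
theorem sXPh (h : Rul d) : s * inner ℝ (d.T P0) (Ph d) =
    ‖d.T P0‖ ^ 2 - inner ℝ (d.T P0) (Psi d P0 s) + y0 d P0 := by
  have e1 : ∀ i, inner ℝ (d.φ i (d.T P0)) (d.T (d.φ i P0)) =
      s * inner ℝ (d.T P0) (d.φ i (d.T (d.ξ i))) - inner ℝ (d.T P0) (d.φ i (Xq d P0 s i)) := by
    intro i
    rw [y_eq (s := s) i, h.skew, map_sub, map_smul, inner_sub_right, real_inner_smul_right]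
    ring
  rw [y0, Finset.sum_congr rfl fun i _ => e1 i, Finset.sum_sub_distrib, ← Finset.mul_sum, Ph,
    inner_sum, Psi, inner_sub_right, inner_sum, real_inner_self_eq_norm_sq]
  ring

/-- `s τ` -/
theorem s_tau (h : Rul d) : s * d.tau = pn d P0 s - yx d P0 := by
  rw [tau_eq h, pn, yx, ← Finset.sum_sub_distrib, Finset.mul_sum]
  refine Finset.sum_congr rfl fun i _ => ?_
  rw [y_eq (s := s) i, inner_sub_right, real_inner_smul_right]
  ring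

/-- `s ∑ n_i ⟪X_N, t_i⟫` -/
theorem s_nXN (h : Rul d) : s * ∑ i, n i * inner ℝ (XN d P0 s n0 n) (d.T (d.ξ i)) =
    -(‖XN d P0 s n0 n‖ ^ 2 + n0 * inner ℝ (d.T P0) (XN d P0 s n0 n) + yN d P0 s n0 n) := by
  have e1 : ∀ i, n i * inner ℝ (XN d P0 s n0 n) (d.T (d.φ i P0)) =
      n i * inner ℝ (XN d P0 s n0 n) (Xq d P0 s i) -
        s * (n i * inner ℝ (XN d P0 s n0 n) (d.T (d.ξ i))) := by
    intro i
    rw [y_eq (s := s) i, inner_sub_right, real_inner_smul_right]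
    ring
  have e2 : ‖XN d P0 s n0 n‖ ^ 2 = -(n0 * inner ℝ (d.T P0) (XN d P0 s n0 n) +
      ∑ i, n i * inner ℝ (XN d P0 s n0 n) (Xq d P0 s i)) := by
    rw [← real_inner_self_eq_norm_sq]
    conv_lhs => rw [show XN d P0 s n0 n = -(n0 • d.T P0 + ∑ i, n i • Xq d P0 s i) from rfl]
    rw [← show XN d P0 s n0 n = -(n0 • d.T P0 + ∑ i, n i • Xq d P0 s i) from rfl]
    conv_lhs =>
      rw [show inner ℝ (XN d P0 s n0 n) (XN d P0 s n0 n) =
        inner ℝ (-(n0 • d.T P0 + ∑ i, n i • Xq d P0 s i)) (XN d P0 s n0 n) from rfl]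
    rw [inner_neg_left, inner_add_left, real_inner_smul_left, sum_inner]
    congr 2
    refine Finset.sum_congr rfl fun i _ => ?_
    rw [real_inner_smul_left, real_inner_comm (XN d P0 s n0 n)]
  rw [yN, Finset.sum_congr rfl fun i _ => e1 i, Finset.sum_sub_distrib, ← Finset.mul_sum, e2]
  ring

theorem bJ1 (d : Dat H ι) : d.bJ.1 = (d.ρ - d.lam ^ 2) / 2 := by
  simp only [Dat.bJ, Dat.rJ, cJ, Prod.smul_fst, Prod.fst_sub, smul_eq_mul]
  ring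

theorem c1J1 (d : Dat H ι) (h3 : Fintype.card ι = 3) (M : ℝ) : (d.c1J M).1 =
    M * d.lam ^ 2 - 1 + (M * (d.lam ^ 2 - 1) + (d.lam ^ 2)⁻¹) * ((d.ρ - d.lam ^ 2) / 2) := by
  simp only [Dat.c1J, cJ, Prod.fst_add, Prod.smul_fst, smul_eq_mul, bJ1, h3]
  push_cast
  have e : ((3 : ℝ) - 1) / (2 * d.lam ^ 2) = (d.lam ^ 2)⁻¹ := by
    rw [show (3 : ℝ) - 1 = 2 by norm_num, div_mul_eq_div_div, div_self (by norm_num), one_div]
  rw [e]
  ring

theorem c2J1 (d : Dat H ι) (h3 : Fintype.card ι = 3) : d.c2J.1 =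
    d.lam + 2 / d.lam * ((d.ρ - d.lam ^ 2) / 2) := by
  simp only [Dat.c2J, cJ, Prod.fst_add, Prod.smul_fst, smul_eq_mul, bJ1, h3]
  push_cast
  norm_num

theorem c3J1 (d : Dat H ι) : d.c3J.1 =
    1 + (d.lam ^ 2 - 1) / d.lam ^ 2 * ((d.ρ - d.lam ^ 2) / 2) := by
  simp only [Dat.c3J, cJ, Prod.fst_add, Prod.smul_fst, smul_eq_mul, bJ1]

theorem q1_eq (h : Rul d) (N : Nf d P0 s n0 n) : d.q1 = ‖d.T P0‖ ^ 2 + b2 d P0 s +
    d.A * LinearMap.trace ℝ H (d.T ∘ₗ d.T) := by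
  rw [Dat.q1, tr_TGT h N, b2]

theorem q2_eq (h : Rul d) (N : Nf d P0 s n0 n) : d.q2 = d.lam⁻¹ *
    (b2 d P0 s - yX d P0 s + d.A * T2 d - tY d P0 n0 n) := by
  have e1 : ∀ i, inner ℝ (d.G (d.T (d.T (d.ξ i)))) (d.ξ i) =
      s * inner ℝ (Xq d P0 s i) (d.T (d.ξ i)) := by
    intro i
    have e2 : ∀ j, inner ℝ (Pq d P0 s j) (d.ξ i) = if j = i then s else 0 := by
      intro j
      rw [Pq, inner_add_left, real_inner_smul_left, h.on,
        real_inner_comm (d.ξ i) (d.φ j P0), xi_phi h j i P0 N.xP, zero_add]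
      split_ifs
      · rw [mul_one]
      · rw [mul_zero]
    rw [N.G, inner_add_left, real_inner_smul_left, real_inner_comm (d.ξ i) P0, N.xP, mul_zero,
      zero_add, sum_inner]
    have e3 : ∀ j, inner ℝ (inner ℝ (d.φ j P0 + s • d.ξ j) (d.T (d.T (d.ξ i))) •
        (d.φ j P0 + s • d.ξ j)) (d.ξ i) =
        if j = i then s * inner ℝ (Xq d P0 s j) (d.T (d.ξ i)) else 0 := by
      intro j
      have e4 := e2 j
      rw [Pq] at e4
      rw [real_inner_smul_left, e4, ← h.symT, Xq, Pq]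
      split_ifs <;> ring
    rw [Finset.sum_congr rfl fun j _ => e3 j, Finset.sum_ite_eq', if_pos (Finset.mem_univ i)]
  have e5 : ∀ i, inner ℝ (d.φ i d.W) (d.T (d.T (d.ξ i))) =
      inner ℝ (d.T (d.ξ i)) (d.T (d.φ i d.W)) := by
    intro i
    rw [← h.symT, real_inner_comm]
  rw [Dat.q2]
  congr 1
  rw [Finset.sum_sub_distrib, Finset.sum_add_distrib, Finset.sum_congr rfl fun i _ => e1 i,
    Finset.sum_congr rfl fun i _ => e5 i, tY_eq h N, ← Finset.mul_sum, ← Finset.mul_sum, sXt h]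
  rfl

theorem phXN (h : Rul d) (u : H) : ∑ i, inner ℝ (d.φ i u) (d.T (d.ξ i)) =
    - inner ℝ u (Ph d) := Ph_inner h u

theorem q3_eq (h : Rul d) (N : Nf d P0 s n0 n) : d.q3 = -tY d P0 n0 n -
    inner ℝ (XN d P0 s n0 n) (Ph d) + (b2 d P0 s - ‖Psi d P0 s‖ ^ 2 - pn d P0 s ^ 2 +
      inner ℝ (d.T P0) (Psi d P0 s) - y0 d P0) + d.A * trs d := by
  rw [Dat.q3, Finset.sum_add_distrib, Finset.sum_add_distrib, Finset.sum_neg_distrib,
    tY_eq h N, TW_eq N, phXN h, tr_q3 h N, sXPh h, b2, tY, trs]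
  ring

theorem q4_eq (h : Rul d) (N : Nf d P0 s n0 n) : d.q4 = 3 * inner ℝ (XN d P0 s n0 n) (Ph d) +
    Bx d P0 s + d.A * T2 d - d.tau * (inner ℝ P0 (Psi d P0 s) + s * pn d P0 s) := by
  have e1 : ∀ i, inner ℝ (d.G (d.T (d.ξ i))) (d.T (d.ξ i)) =
      inner ℝ (d.ξ i) (d.T P0) ^ 2 + ∑ j, inner ℝ (d.ξ i) (Xq d P0 s j) ^ 2 := by
    intro i
    rw [N.G, inner_add_left, real_inner_smul_left, sum_inner, ← h.symT P0 (d.ξ i),
      real_inner_comm (d.ξ i) (d.T P0)]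
    congr 1
    · ring
    · refine Finset.sum_congr rfl fun j _ => ?_
      rw [real_inner_smul_left, ← h.symT, Xq, Pq, real_inner_comm (d.ξ i)]
      ring
  rw [Dat.q4, Finset.sum_add_distrib, Finset.sum_add_distrib,
    Finset.sum_congr rfl fun i _ => e1 i, tr_GT h N, TW_eq N, ← Finset.mul_sum, ← Finset.mul_sum,
    Bx, T2, Ph, inner_sum]

theorem q5_eq (h : Rul d) : d.q5 = -T2 d + trs d := by
  rw [Dat.q5, Finset.sum_add_distrib, Finset.sum_neg_distrib, T2, trs]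

theorem WXN (h : Rul d) (N : Nf d P0 s n0 n) : inner ℝ d.W (XN d P0 s n0 n) =
    inner ℝ (Jn d n0 n P0) (XN d P0 s n0 n) - s * om d P0 s n0 n := by
  rw [W_eq N, inner_sub_left, real_inner_smul_left, sum_inner, om]
  congr 2
  exact Finset.sum_congr rfl fun i _ => real_inner_smul_left _ _ _

theorem F1_1 (N : Nf d P0 s n0 n) : d.F1.1 = XN d P0 s n0 n := TW_eq N

theorem F2_in (h : Rul d) (N : Nf d P0 s n0 n) : inner ℝ (XN d P0 s n0 n) d.F2.1 =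
    d.lam⁻¹ * (‖XN d P0 s n0 n‖ ^ 2 + n0 * inner ℝ (d.T P0) (XN d P0 s n0 n) +
      yN d P0 s n0 n) := by
  have e1 : d.F2.1 = ∑ i, d.κ i • d.T (d.ξ i) := by
    simp only [Dat.F2, Prod.fst_sum, smJ, Dat.kJ, inJ, Dat.wJ, Dat.xJ, Dat.tJ, Prod.smul_fst]
    refine Finset.sum_congr rfl fun i _ => ?_
    rw [real_inner_comm (d.ξ i) d.W, h.Wx, smul_eq_mul, inv_mul_cancel_left₀ h.lam0]
  rw [e1, inner_sum]
  have e2 : ∀ i, inner ℝ (XN d P0 s n0 n) (d.κ i • d.T (d.ξ i)) =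
      -d.lam⁻¹ * (s * (n i * inner ℝ (XN d P0 s n0 n) (d.T (d.ξ i)))) := by
    intro i
    rw [real_inner_smul_right, N.κ]
    ring
  rw [Finset.sum_congr rfl fun i _ => e2 i, ← Finset.mul_sum, ← Finset.mul_sum, s_nXN h]
  ring

theorem F3_in (h : Rul d) (N : Nf d P0 s n0 n) : inner ℝ (XN d P0 s n0 n) d.F3.1 =
    d.A * inner ℝ (XN d P0 s n0 n) (Ph d) + ‖XN d P0 s n0 n‖ ^ 2 -
      inner ℝ (XN d P0 s n0 n) (Jn d n0 n (Psi d P0 s)) + pn d P0 s * om d P0 s n0 n := by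
  have e1 : d.F3.1 = ∑ i, d.φ i (d.T (d.φ i d.W)) := by
    simp only [Dat.F3, Prod.fst_sum]
    rfl
  have e2 : inner ℝ (XN d P0 s n0 n) (∑ i, n i • d.ξ i) = om d P0 s n0 n := by
    rw [inner_sum, om]
    refine Finset.sum_congr rfl fun i _ => ?_
    rw [real_inner_smul_right, real_inner_comm (d.ξ i)]
  rw [e1, F3_eq h N, inner_add_right, inner_sub_right, inner_add_right, real_inner_smul_right,
    real_inner_smul_right, e2, real_inner_self_eq_norm_sq]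

theorem F4_in (h : Rul d) (N : Nf d P0 s n0 n) : inner ℝ (XN d P0 s n0 n) d.F4.1 =
    ∑ i, inner ℝ (d.ξ i) (XN d P0 s n0 n) ^ 2 -
      d.tau * (inner ℝ (Jn d n0 n P0) (XN d P0 s n0 n) - s * om d P0 s n0 n) := by
  have e1 : d.F4.1 = ∑ i, inner ℝ (d.T (d.ξ i)) d.W • d.ξ i - d.tau • d.W := by
    simp only [Dat.F4, Prod.fst_sum, Prod.fst_sub, smJ, inJ, Dat.wJ, Dat.xJ, Dat.tJ, Dat.tau]
  rw [e1, inner_sub_right, inner_sum, real_inner_smul_right, real_inner_comm d.W, WXN h N]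
  congr 1
  refine Finset.sum_congr rfl fun i _ => ?_
  rw [real_inner_smul_right, h.symT, TW_eq N, real_inner_comm (d.ξ i)]
  ring

end Pool.Agent.Helper59.JH
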