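import Pool.Agent.Helper59.JH.Vec3

/-! # JH: the quadratic form in the normal form, final formula -/

set_option autoImplicit false
set_option linter.unusedSectionVars false
set_option linter.unusedVariables false

namespace Pool.Agent.Helper59.JH

open Pool.Agent.Helper77.JH

variable {H : Type*} [NormedAddCommGroup H] [InnerProductSpace ℝ H] [FiniteDimensional ℝ H]
variable {ι : Type*} [Fintype ι] [DecidableEq ι] {d : Dat H ι}
variable {P0 : H} {s n0 : ℝ} {n : ι → ℝ}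

/-- the formula for the quadratic form -/
theorem Qf_eq (h : Rul d) (N : Nf d P0 s n0 n) (h3 : Fintype.card ι = 3) (M L i be c1 c3 : ℝ)
    (hL : L = d.lam ^ 2) (hi : i = L⁻¹) (hbe : be = (d.ρ - L) / 2)
    (hc3 : c3 = 1 + (1 - i) * be) (hc1 : c1 = M * L * c3 - 1 + be * i) :
    d.Qf M = (c1 - c3) * (‖d.T P0‖ ^ 2 + b2 d P0 s) +
      c3 * (‖Psi d P0 s‖ ^ 2 + pn d P0 s ^ 2) +
      (M * (L - 1) - 1 + 2 * i) * ‖XN d P0 s n0 n‖ ^ 2 +
      (1 - i) * (inner ℝ (XN d P0 s n0 n) (Jn d n0 n (Psi d P0 s)) -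
        pn d P0 s * om d P0 s n0 n) +
      ∑ j, inner ℝ (d.ξ j) (XN d P0 s n0 n) ^ 2 + be * Bx d P0 s +
      (c1 * d.A - (d.A + be * (d.ρ * i))) * LinearMap.trace ℝ H (d.T ∘ₗ d.T) +
      (d.A + be * (d.ρ * i)) * (LinearMap.trace ℝ H (d.T ∘ₗ d.T) - trs d) +
      ((d.A + be * (d.ρ * i)) + be * d.A) * T2 d +
      (d.ρ * i) * (b2 d P0 s - yX d P0 s) +
      be * (1 - 3 * i) * (tY d P0 n0 n - d.A * T2 d) +
      2 * i * (‖XN d P0 s n0 n‖ ^ 2 + n0 * inner ℝ (d.T P0) (XN d P0 s n0 n) +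
        yN d P0 s n0 n) +
      (‖d.T P0‖ ^ 2 - inner ℝ (d.T P0) (Psi d P0 s) + y0 d P0) +
      be * (3 - 4 * i) * inner ℝ (XN d P0 s n0 n) (Ph d) -
      be * (d.tau * inner ℝ P0 (Psi d P0 s) + (pn d P0 s - yx d P0) * pn d P0 s) -
      d.tau * inner ℝ (Jn d n0 n P0) (XN d P0 s n0 n) +
      (pn d P0 s - yx d P0) * om d P0 s n0 n := by
  have hl := h.lam0
  have hL0 : L ≠ 0 := by rw [hL]; positivity
  have hF1 : d.F1.1 = XN d P0 s n0 n := F1_1 N
  have hF2 := F2_in h N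
  have hF3 := F3_in h N
  have hF4 := F4_in h N
  have hst : s * d.tau = pn d P0 s - yx d P0 := s_tau h
  have hTU : inner ℝ (d.T (d.U + d.W)) (Ph d) = (‖d.T P0‖ ^ 2 -
      inner ℝ (d.T P0) (Psi d P0 s) + y0 d P0) + inner ℝ (XN d P0 s n0 n) (Ph d) := by
    rw [map_add, N.U, map_smul, TW_eq N, inner_add_left, real_inner_smul_left, sXPh h]
  unfold Dat.Qf
  rw [c1J1 d h3, c2J1 d h3, c3J1, bJ1, q1_eq h N, q2_eq h N, q3_eq h N, q4_eq h N, q5_eq h,
    F5_eq, hTU, TW_eq N, hF1]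
  simp only [inner_add_right, inner_sub_right, real_inner_smul_right]
  rw [hF2, hF3, hF4, real_inner_self_eq_norm_sq, Dat.c0, h3, ← hL]
  have hrho : d.ρ = L + 2 * be := by rw [hbe]; ring
  have hl2 : d.lam⁻¹ * d.lam⁻¹ = i := by rw [hi, hL, ← mul_inv, sq]
  have e1 : (d.lam + 2 / d.lam * ((d.ρ - L) / 2)) * (d.lam⁻¹ *
      (b2 d P0 s - yX d P0 s + d.A * T2 d - tY d P0 n0 n)) =
      (d.ρ * i) * (b2 d P0 s - yX d P0 s + d.A * T2 d - tY d P0 n0 n) := by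
    have e2 : (d.lam + 2 / d.lam * ((d.ρ - L) / 2)) * d.lam⁻¹ = d.ρ * i := by
      rw [hi, hL]
      field_simp
      ring
    rw [← e2]
    ring
  rw [e1]
  have e3 : ((3 : ℕ) : ℝ) - 1 = 2 := by norm_num
  rw [e3]
  have e4 : (2 : ℝ) / d.lam * (d.lam⁻¹ * (‖XN d P0 s n0 n‖ ^ 2 +
      n0 * inner ℝ (d.T P0) (XN d P0 s n0 n) + yN d P0 s n0 n)) =
      2 * i * (‖XN d P0 s n0 n‖ ^ 2 + n0 * inner ℝ (d.T P0) (XN d P0 s n0 n) +
        yN d P0 s n0 n) := by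
    rw [← hl2]
    ring
  rw [e4, ← hbe]
  have e5 : (L - 1) / L = 1 - i := by rw [hi]; field_simp
  have e6 : (2 : ℝ) / (2 * L) = i := by rw [hi]; field_simp
  have e7 : ((L - 1) * d.A - d.ρ) / L = (1 - i) * d.A - d.ρ * i := by
    rw [hi]
    field_simp
  have e8 : (2 : ℝ) / L = 2 * i := by rw [hi]; field_simp
  have e9 : L⁻¹ = i := hi.symm
  rw [e5, e6, e7, e8, e9]
  have hst' : d.tau * s = pn d P0 s - yx d P0 := by rw [mul_comm]; exact hst
  have hLi : L * i = 1 := by rw [hi]; exact mul_inv_cancel₀ hL0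
  have e10 : d.tau * (inner ℝ P0 (Psi d P0 s) + s * pn d P0 s) =
      d.tau * inner ℝ P0 (Psi d P0 s) + (pn d P0 s - yx d P0) * pn d P0 s := by
    rw [← hst]; ring
  have e11 : d.tau * (inner ℝ (Jn d n0 n P0) (XN d P0 s n0 n) - s * om d P0 s n0 n) =
      d.tau * inner ℝ (Jn d n0 n P0) (XN d P0 s n0 n) -
        (pn d P0 s - yx d P0) * om d P0 s n0 n := by
    rw [← hst]; ring
  rw [e10, e11, hc1, hc3, hrho]
  generalize ‖d.T P0‖ ^ 2 = a2
  generalize b2 d P0 s = bb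
  generalize ‖Psi d P0 s‖ ^ 2 = ps
  generalize ‖XN d P0 s n0 n‖ ^ 2 = x2
  generalize inner ℝ (XN d P0 s n0 n) (Jn d n0 n (Psi d P0 s)) = cNP
  generalize ∑ j, inner ℝ (d.ξ j) (XN d P0 s n0 n) ^ 2 = z2
  generalize Bx d P0 s = B
  generalize LinearMap.trace ℝ H (d.T ∘ₗ d.T) = tt
  generalize trs d = tr
  generalize T2 d = t2
  generalize yX d P0 s = yXv
  generalize tY d P0 n0 n = tYv
  generalize inner ℝ (d.T P0) (XN d P0 s n0 n) = c0N
  generalize yN d P0 s n0 n = yNv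
  generalize inner ℝ (d.T P0) (Psi d P0 s) = c0P
  generalize y0 d P0 = y0v
  generalize inner ℝ (XN d P0 s n0 n) (Ph d) = cNF
  generalize inner ℝ P0 (Psi d P0 s) = bP
  generalize yx d P0 = yxv
  generalize pn d P0 s = p
  generalize inner ℝ (Jn d n0 n P0) (XN d P0 s n0 n) = bW
  generalize om d P0 s n0 n = o
  generalize d.tau = ta
  generalize d.A = A
  linear_combination (M * be * (a2 + bb + A * tt) + (A * t2 - tYv - cNF)) * hLi

end Pool.Agent.Helper59.JH
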